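import Pool.Agent.Helper40.GS.Cyc

set_option autoImplicit false
set_option linter.unusedSectionVars false
set_option linter.style.haveILetI false
set_option linter.deprecated false

namespace Pool.Agent.Helper40.GS

variable {G : Type*} [AddCommGroup G] {ψ : Equiv.Perm G} {X Y : Set G}

section fin

variable [Finite G]

theorem Good.closure_loc (h : Good ψ X) (u : G) :
    loc ψ u '' (AddSubgroup.closure X : Set G) = AddSubgroup.closure (loc ψ u '' X) := by
  apply Set.Subset.antisymm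
  · rintro _ ⟨x, hx, rfl⟩
    have hx' : x ∈ AddSubgroup.closure X := hx
    clear hx
    show loc ψ u x ∈ AddSubgroup.closure (loc ψ u '' X)
    induction hx' using AddSubgroup.closure_induction generalizing u with
    | mem x hx => exact AddSubgroup.subset_closure ⟨x, hx, rfl⟩
    | zero => rw [loc_zero]; exact AddSubgroup.zero_mem _
    | add x y hx' hy' hx hy =>
      rw [loc_add]
      refine AddSubgroup.add_mem _ (hx u) ?_
      have := hy (u + x)
      rwa [h.closure u x hx'] at this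
    | neg x hx' hx =>
      rw [loc_neg]
      refine AddSubgroup.neg_mem _ ?_
      have h1 := hx (u - x)
      have h2 := h.closure (u - x) x hx'
      rw [sub_add_cancel] at h2
      rwa [← h2] at h1
  · intro y hy
    have hy' : y ∈ AddSubgroup.closure (loc ψ u '' X) := hy
    clear hy
    induction hy' using AddSubgroup.closure_induction_right with
    | zero => exact ⟨0, AddSubgroup.zero_mem _, loc_zero _ _⟩
    | add_right z hz y hy ih =>
      obtain ⟨x, hx, rfl⟩ := ih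
      rw [← h.closure u x hx] at hy
      obtain ⟨x', hx', rfl⟩ := hy
      exact ⟨x + x', AddSubgroup.add_mem _ hx (AddSubgroup.subset_closure hx'), loc_add _ _ _ _⟩
    | add_neg_cancel z hz y hy ih =>
      obtain ⟨x, hx, rfl⟩ := ih
      rw [← h.closure u x hx, ← h.image_sub] at hy
      obtain ⟨x', hx', rfl⟩ := hy
      refine ⟨x + -x', AddSubgroup.add_mem _ hx
        (AddSubgroup.neg_mem _ (AddSubgroup.subset_closure hx')), ?_⟩
      rw [loc_add, loc_neg]

theorem Good.blk [IsAddCyclic G] (h : Good ψ X) : Blk ψ (AddSubgroup.closure X) := by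
  intro u
  rw [h.closure_loc]
  congr 1
  apply eq_of_card_eq
  have h1 := congrArg Set.ncard (h.closure_loc u)
  rw [Set.ncard_image_of_injective _ (loc ψ u).injective] at h1
  rw [← Nat.card_coe_set_eq, ← Nat.card_coe_set_eq] at h1
  exact h1.symm

end fin

/-- periods of `X` -/
def Rad (X : Set G) : AddSubgroup G where
  carrier := {g | ∀ x, x + g ∈ X ↔ x ∈ X}
  zero_mem' := by intro x; simp
  add_mem' := by
    intro a b ha hb x
    rw [← add_assoc, hb, ha]
  neg_mem' := by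
    intro a ha x
    rw [← ha (x + -a), neg_add_cancel_right]

theorem mem_Rad {g : G} : g ∈ Rad X ↔ ∀ x, x + g ∈ X ↔ x ∈ X := Iff.rfl

theorem mem_Rad_of [Finite G] {g : G} (h : ∀ x ∈ X, x + g ∈ X) : g ∈ Rad X := by
  have h1 : (fun x => x + g) '' X = X := by
    apply eq_of_subset_ncard
    · rintro _ ⟨x, hx, rfl⟩; exact h x hx
    · rw [Set.ncard_image_of_injective _ (add_left_injective g)]
  intro x
  constructor
  · intro hx
    rw [← h1] at hx
    obtain ⟨y, hy, hyx⟩ := hx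
    rw [← add_right_cancel hyx]; exact hy
  · exact h x

theorem Good.rad_loc [Finite G] (h : Good ψ X) (u g : G) :
    loc ψ u g ∈ Rad (loc ψ u '' X) ↔ g ∈ Rad X := by
  have key : ∀ x ∈ X, (loc ψ (u - x) x + loc ψ u g ∈ loc ψ u '' X ↔ x + g ∈ X) := by
    intro x hx
    have h1 : loc ψ (u - x) x + loc ψ u g = loc ψ (u - x) (x + g) := by
      rw [loc_add, sub_add_cancel]
    rw [h1, h.mem_sub (AddSubgroup.subset_closure hx)]
  constructor
  · intro hg
    apply mem_Rad_of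
    intro x hx
    rw [← key x hx, hg]
    exact (h.mem_sub (AddSubgroup.subset_closure hx)).2 hx
  · intro hg
    apply mem_Rad_of
    intro y hy
    rw [← h.image_sub] at hy
    obtain ⟨x, hx, rfl⟩ := hy
    show loc ψ (u - x) x + loc ψ u g ∈ _
    rw [key x hx, hg]
    exact hx

theorem Good.rad_blk [Finite G] [IsAddCyclic G] (h : Good ψ X) : Blk ψ (Rad X) := by
  have h1 : ∀ u, loc ψ u '' (Rad X : Set G) = Rad (loc ψ u '' X) := by
    intro u
    ext y
    obtain ⟨g, rfl⟩ := (loc ψ u).surjective y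
    rw [(loc ψ u).injective.mem_set_image, SetLike.mem_coe, SetLike.mem_coe, h.rad_loc]
  intro u
  rw [h1]
  congr 1
  apply eq_of_card_eq
  have h2 := congrArg Set.ncard (h1 u)
  rw [Set.ncard_image_of_injective _ (loc ψ u).injective] at h2
  rw [← Nat.card_coe_set_eq, ← Nat.card_coe_set_eq] at h2
  exact h2.symm

/-- general sets defined from a good set in an equivariant way -/
theorem Good.equivariant (h : Good ψ X) (P : Set G → G → Prop)
    (hP : ∀ u w, P (loc ψ u '' X) (loc ψ u w) ↔ P X w) :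
    InvOn ψ (AddSubgroup.closure X) {w | P X w} := by
  have h1 : ∀ u, loc ψ u '' {w | P X w} = {w | P (loc ψ u '' X) w} := by
    intro u
    ext y
    obtain ⟨g, rfl⟩ := (loc ψ u).surjective y
    rw [(loc ψ u).injective.mem_set_image]
    exact (hP u g).symm
  intro u x hx
  rw [h1, h1, h.closure u x hx]

theorem diff_invOn [Finite G] {U : AddSubgroup G} {A B : Set G} (hA : InvOn ψ U A)
    (hB : InvOn ψ U B) (hBU : B ⊆ U) : InvOn ψ U {g | ∃ a ∈ A, ∃ b ∈ B, g = a - b} := by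
  have hBg : Good ψ B := hB.good hBU
  have h0 : ∀ u a b, loc ψ u (a - b) = loc ψ (u - b) a - loc ψ (u - b) b := by
    intro u a b
    simp only [loc_apply, sub_add_cancel]
    have : u + (a - b) = u - b + a := by abel
    rw [this]; abel
  have h1 : ∀ u, loc ψ u '' {g | ∃ a ∈ A, ∃ b ∈ B, g = a - b} =
      {g | ∃ a ∈ loc ψ u '' A, ∃ b ∈ loc ψ u '' B, g = a - b} := by
    intro u
    ext y
    constructor
    · rintro ⟨_, ⟨a, ha, b, hb, rfl⟩, rfl⟩
      have e1 := hA (u - b) b (hBU hb)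
      have e2 := hB (u - b) b (hBU hb)
      rw [sub_add_cancel] at e1 e2
      refine ⟨loc ψ (u - b) a, ?_, loc ψ (u - b) b, ?_, h0 _ _ _⟩
      · rw [e1]; exact ⟨a, ha, rfl⟩
      · rw [e2]; exact ⟨b, hb, rfl⟩
    · rintro ⟨a', ha', b', hb', rfl⟩
      rw [← hBg.image_sub] at hb'
      obtain ⟨b, hb, rfl⟩ := hb'
      have e1 := hA (u - b) b (hBU hb)
      rw [sub_add_cancel] at e1
      rw [e1] at ha'
      obtain ⟨a, ha, rfl⟩ := ha'
      exact ⟨a - b, ⟨a, ha, b, hb, rfl⟩, h0 _ _ _⟩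
  intro u x hx
  rw [h1, h1, hA u x hx, hB u x hx]

theorem Good.inter (hX : Good ψ X) (hY : Good ψ Y) : Good ψ (X ∩ Y) :=
  InvOn.inter (hX.mono Set.inter_subset_left) (hY.mono Set.inter_subset_right)

theorem Good.inter_blk (hX : Good ψ X) {K : AddSubgroup G} (hK : Blk ψ K) :
    Good ψ (X ∩ K) := hX.inter hK.good

theorem Good.diff_blk (hX : Good ψ X) {K : AddSubgroup G} (hK : Blk ψ K) :
    Good ψ (X \ K) :=
  (InvOn.diff hX (hK.invOn X)).mono Set.sdiff_subset

/-- minimal good sets -/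
structure MinGood (ψ : Equiv.Perm G) (X : Set G) : Prop where
  good : Good ψ X
  ne : X.Nonempty
  min : ∀ Y, Good ψ Y → (X ∩ Y).Nonempty → X ⊆ Y

theorem exists_minGood [Finite G] [IsAddCyclic G] (ψ : Equiv.Perm G) (x : G) :
    ∃ X, MinGood ψ X ∧ x ∈ X := by
  classical
  have hex : ∃ n, ∃ X, Good ψ X ∧ x ∈ X ∧ X.ncard = n :=
    ⟨_, Set.univ, (fun u y _ => by simp), Set.mem_univ x, rfl⟩
  obtain ⟨X, hX, hxX, hn⟩ := Nat.find_spec hex
  have hmin : ∀ Z, Good ψ Z → x ∈ Z → X ⊆ Z := by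
    intro Z hZ hxZ
    have h1 := Nat.find_min' hex ⟨X ∩ Z, hX.inter hZ, ⟨hxX, hxZ⟩, rfl⟩
    rw [← hn] at h1
    have h2 := eq_of_subset_ncard (Set.inter_subset_left (s := X) (t := Z)) h1
    rw [← h2]
    exact Set.inter_subset_right
  refine ⟨X, ⟨hX, ⟨x, hxX⟩, ?_⟩, hxX⟩
  rintro Y hY ⟨y, hyX, hyY⟩
  by_cases hxY : x ∈ Y
  · exact hmin Y hY hxY
  exfalso
  by_cases hxK : x ∈ AddSubgroup.closure Y
  · have h1 : X ⊆ AddSubgroup.closure Y := fun z hz =>
      (hmin _ (hX.inter_blk hY.blk) ⟨hxX, hxK⟩ hz).2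
    have h2 : Good ψ (X \ Y) :=
      (InvOn.diff hX (hY.closure.mono h1)).mono Set.sdiff_subset
    exact (hmin _ h2 ⟨hxX, hxY⟩ hyX).2 hyY
  · have h2 := hmin _ (hX.diff_blk hY.blk) ⟨hxX, hxK⟩ hyX
    exact h2.2 (AddSubgroup.subset_closure hyY)

theorem MinGood.eq_of_ncard [Finite G] (h : MinGood ψ X) (hY : Good ψ Y)
    (hne : (X ∩ Y).Nonempty) (hc : Y.ncard ≤ X.ncard) : Y = X :=
  (eq_of_subset_ncard (h.min Y hY hne) hc).symm

/-- if a multiplier maps some element of a local image into the local image, it fixes `X` -/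
theorem MinGood.mult_eq [Finite G] (h : MinGood ψ X) {k : ℕ} (hk : k.Coprime (Nat.card G))
    {u z : G} (hz : z ∈ loc ψ u '' X) (hkz : k • z ∈ loc ψ u '' X) :
    (fun x => k • x) '' X = X := by
  have h1 : k • z ∈ loc ψ u '' ((fun x => k • x) '' X) := by
    rw [mult k hk h.good]
    exact ⟨z, hz, rfl⟩
  obtain ⟨a, ha, hau⟩ := h1
  obtain ⟨b, hb, hbu⟩ := hkz
  have : a = b := (loc ψ u).injective (hau.trans hbu.symm)
  subst this
  refine h.eq_of_ncard (mult_good hk h.good) ⟨a, hb, ha⟩ ?_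
  exact Set.ncard_image_le (Set.toFinite _)

theorem MinGood.mult_loc [Finite G] (h : MinGood ψ X) {k : ℕ} (hk : k.Coprime (Nat.card G))
    (hkX : (fun x => k • x) '' X = X) (u : G) {z : G} (hz : z ∈ loc ψ u '' X) :
    k • z ∈ loc ψ u '' X := by
  have h1 := mult k hk h.good u
  rw [hkX] at h1
  rw [h1]
  exact ⟨z, hz, rfl⟩

theorem loc_sub (ψ : Equiv.Perm G) (u z w : G) :
    loc ψ u z - loc ψ u w = loc ψ (u + w) (z - w) := by
  simp only [loc_apply]
  have : u + w + (z - w) = u + z := by abel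
  rw [this]; abel

/-- intersections of a minimal good set with cosets of a block have constant size -/
theorem MinGood.ncard_const [Finite G] (h : MinGood ψ X) {R : AddSubgroup G} (hR : Blk ψ R)
    {x y : G} (hx : x ∈ X) (hy : y ∈ X) :
    {z | z ∈ X ∧ z - x ∈ R}.ncard = {z | z ∈ X ∧ z - y ∈ R}.ncard := by
  set c := {z | z ∈ X ∧ z - x ∈ R}.ncard with hc
  have h1 := h.good.equivariant (fun Y w => {z | z ∈ Y ∧ z - w ∈ R}.ncard = c) (by
    intro u w
    have : {z | z ∈ loc ψ u '' X ∧ z - loc ψ u w ∈ R} = loc ψ u '' {z | z ∈ X ∧ z - w ∈ R} := by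
      ext y
      obtain ⟨g, rfl⟩ := (loc ψ u).surjective y
      rw [(loc ψ u).injective.mem_set_image]
      simp only [Set.mem_ofPred_eq]
      rw [(loc ψ u).injective.mem_set_image, loc_sub, hR.loc_mem]
    rw [this, Set.ncard_image_of_injective _ (loc ψ u).injective])
  have h2 : Good ψ (X ∩ {w | {z | z ∈ X ∧ z - w ∈ R}.ncard = c}) :=
    (InvOn.inter h.good.closure h1).good
      (fun z hz => AddSubgroup.subset_closure hz.1)
  have h3 := h.min _ h2 ⟨x, hx, hx, hc.symm⟩ hy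
  exact h3.2.symm

/-- `T8` -/
theorem loc_shift {N W : AddSubgroup G} (hN : Blk ψ N) (hW : Blk ψ W) (hd : N ⊓ W = ⊥)
    {n w : G} (hn : n ∈ N) (hw : w ∈ W) (u : G) : loc ψ (u + n) w = loc ψ u w := by
  have h1 : loc ψ u (n + w) = loc ψ u n + loc ψ (u + n) w := loc_add _ _ _ _
  have h2 : loc ψ u (w + n) = loc ψ u w + loc ψ (u + w) n := loc_add _ _ _ _
  rw [add_comm w n] at h2
  have h3 : loc ψ (u + n) w - loc ψ u w = loc ψ (u + w) n - loc ψ u n := by
    rw [h1] at h2
    rw [sub_eq_sub_iff_add_eq_add, add_comm, h2, add_comm]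
  have h4 : loc ψ (u + n) w - loc ψ u w ∈ N ⊓ W := by
    refine AddSubgroup.mem_inf.2 ⟨?_, ?_⟩
    · rw [h3]; exact AddSubgroup.sub_mem _ (hN.loc_mem.2 hn) (hN.loc_mem.2 hn)
    · exact AddSubgroup.sub_mem _ (hW.loc_mem.2 hw) (hW.loc_mem.2 hw)
  rw [hd, AddSubgroup.mem_bot] at h4
  exact sub_eq_zero.1 h4

theorem loc_add' {N W : AddSubgroup G} (hN : Blk ψ N) (hW : Blk ψ W) (hd : N ⊓ W = ⊥)
    {n w : G} (hn : n ∈ N) (hw : w ∈ W) (u : G) :
    loc ψ u (n + w) = loc ψ u n + loc ψ u w := by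
  rw [loc_add, loc_shift hN hW hd hn hw]

/-- there is a multiplier projecting `N + W` onto `N` -/
theorem exists_proj [Finite G] [IsAddCyclic G] {N W : AddSubgroup G} (hd : N ⊓ W = ⊥) :
    ∃ k : ℕ, (∀ n ∈ N, k • n = n) ∧ ∀ w ∈ W, k • w = 0 := by
  rw [inf_eq_bot_iff] at hd
  obtain ⟨k, hk1, hk2⟩ := Nat.chineseRemainder hd 1 0
  refine ⟨k, fun n hn => ?_, fun w hw => ?_⟩
  · have h1 := addOrderOf_dvd_of_nsmul_eq_zero (mem_iff.1 hn)
    have h2 : k ≡ 1 [MOD addOrderOf n] := hk1.of_dvd h1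
    have h3 := (nsmul_eq_nsmul_iff_modEq (n := k) (m := 1) (x := n)).2 h2
    rw [h3, one_smul]
  · have h1 := addOrderOf_dvd_of_nsmul_eq_zero (mem_iff.1 hw)
    have h2 : k ≡ 0 [MOD addOrderOf w] := hk2.of_dvd h1
    have h3 := (nsmul_eq_nsmul_iff_modEq (n := k) (m := 0) (x := w)).2 h2
    rw [h3, zero_smul]

/-- fibres of good sets over a complementary block are good -/
theorem Good.fib [Finite G] [IsAddCyclic G] {N W : AddSubgroup G} (hN : Blk ψ N)
    (hW : Blk ψ W) (hd : N ⊓ W = ⊥) (hX : Good ψ X) {w : G} (hw : w ∈ W) :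
    Good ψ {n | n ∈ N ∧ n + w ∈ X} := by
  rintro u x ⟨hxN, hxX⟩
  obtain ⟨k, hk1, hk2⟩ := exists_proj hd
  have hxU : x ∈ AddSubgroup.closure X := by
    have h1 : k • (x + w) = x := by rw [smul_add, hk1 x hxN, hk2 w hw, add_zero]
    rw [← h1]
    exact nsmul_mem_closure k hxX
  apply eq_of_subset_ncard
  · rintro _ ⟨n, ⟨hnN, hnX⟩, rfl⟩
    have h1 : loc ψ (u + x) (n + w) ∈ loc ψ (u + x) '' X := ⟨_, hnX, rfl⟩
    rw [hX.closure u x hxU, loc_add' hN hW hd hnN hw, loc_shift hN hW hd hxN hw] at h1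
    have h2 : loc ψ (u + x) n ∈ loc ψ u '' (N : Set G) := by
      rw [hN]; exact hN.loc_mem.2 hnN
    obtain ⟨n', hn', he⟩ := h2
    rw [← he, ← loc_add' hN hW hd hn' hw, (loc ψ u).injective.mem_set_image] at h1
    exact ⟨n', ⟨hn', h1⟩, he⟩
  · rw [Set.ncard_image_of_injective _ (loc ψ _).injective,
      Set.ncard_image_of_injective _ (loc ψ _).injective]

end Pool.Agent.Helper40.GS
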