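import Pool.Agent.Helper40.GS.Key

set_option autoImplicit false
set_option linter.unusedSectionVars false
set_option linter.style.haveILetI false
set_option linter.deprecated false

namespace Pool.Agent.Helper40.GS

section cyc

variable {G : Type*} [AddCommGroup G]

/-- `n`-torsion -/
def E (G : Type*) [AddCommGroup G] (n : ℕ) : AddSubgroup G := (nsmulAddMonoidHom n : G →+ G).ker

theorem mem_E {n : ℕ} {x : G} : x ∈ E G n ↔ n • x = 0 := by
  simp [E, AddMonoidHom.mem_ker]

variable [IsAddCyclic G] [Finite G]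

theorem card_E (n : ℕ) : Nat.card (E G n) = (Nat.card G).gcd n :=
  IsAddCyclic.card_nsmulAddMonoidHom_ker G n

theorem eq_E_card (H : AddSubgroup G) : H = E G (Nat.card H) := by
  apply AddSubgroup.eq_of_le_of_card_ge
  · intro x hx
    rw [mem_E]
    have : Nat.card H • (⟨x, hx⟩ : H) = 0 := card_nsmul_eq_zero'
    have h2 := congrArg (Subtype.val : H → G) this
    rwa [AddSubgroup.coe_nsmul, AddSubgroup.coe_zero] at h2
  · rw [card_E, Nat.gcd_eq_right (AddSubgroup.card_addSubgroup_dvd_card H)]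

theorem mem_iff {H : AddSubgroup G} {x : G} : x ∈ H ↔ Nat.card H • x = 0 := by
  conv_lhs => rw [eq_E_card H]
  exact mem_E

theorem le_of_card_dvd {H K : AddSubgroup G} (h : Nat.card H ∣ Nat.card K) : H ≤ K := by
  intro x hx
  rw [mem_iff] at hx ⊢
  obtain ⟨c, hc⟩ := h
  rw [hc, mul_comm, mul_smul, hx, smul_zero]

theorem eq_of_card_eq {H K : AddSubgroup G} (h : Nat.card H = Nat.card K) : H = K :=
  le_antisymm (le_of_card_dvd (by rw [h])) (le_of_card_dvd (by rw [h]))

theorem card_E_of_dvd {n : ℕ} (h : n ∣ Nat.card G) : Nat.card (E G n) = n := by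
  rw [card_E, Nat.gcd_eq_right h]

theorem E_le {n : ℕ} {H : AddSubgroup G} (h : n ∣ Nat.card H) : E G n ≤ H := by
  intro x hx
  rw [mem_E] at hx
  rw [mem_iff]
  obtain ⟨c, hc⟩ := h
  rw [hc, mul_comm, mul_smul, hx, smul_zero]

theorem inf_eq_bot_iff {H K : AddSubgroup G} :
    H ⊓ K = ⊥ ↔ (Nat.card H).Coprime (Nat.card K) := by
  constructor
  · intro h
    by_contra hne
    obtain ⟨p, hp, h1, h2⟩ := Nat.Prime.not_coprime_iff_dvd.1 hne
    have h3 : E G p ≤ H ⊓ K := le_inf (E_le h1) (E_le h2)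
    rw [h, le_bot_iff] at h3
    have h4 := card_E_of_dvd (G := G) (h1.trans (AddSubgroup.card_addSubgroup_dvd_card H))
    rw [h3, AddSubgroup.card_bot] at h4
    exact hp.one_lt.ne h4
  · intro h
    rw [eq_bot_iff]
    intro x hx
    rw [AddSubgroup.mem_inf, mem_iff, mem_iff] at hx
    rw [AddSubgroup.mem_bot]
    have h1 := addOrderOf_dvd_of_nsmul_eq_zero hx.1
    have h2 := addOrderOf_dvd_of_nsmul_eq_zero hx.2
    have h3 := Nat.eq_one_of_dvd_coprimes h h1 h2
    exact AddMonoid.addOrderOf_eq_one_iff.1 h3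

/-- a nonzero element killed by `p` generates the `p`-torsion -/
theorem gen_E {p : ℕ} (hp : p.Prime) {e e' : G} (he : e ≠ 0) (hpe : p • e = 0)
    (hpe' : p • e' = 0) : ∃ t : ℕ, e' = t • e := by
  have h1 : addOrderOf e = p := by
    rcases (Nat.dvd_prime hp).1 (addOrderOf_dvd_of_nsmul_eq_zero hpe) with h | h
    · exact absurd (AddMonoid.addOrderOf_eq_one_iff.1 h) he
    · exact h
  have h2 : e' ∈ AddSubgroup.zmultiples e := by
    rw [mem_iff, Nat.card_zmultiples, h1]
    exact hpe'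
  rw [← mem_multiples_iff_mem_zmultiples] at h2
  obtain ⟨t, ht⟩ := h2
  exact ⟨t, ht.symm⟩

theorem E_ne_bot {p : ℕ} (hp : p.Prime) (hd : p ∣ Nat.card G) : ∃ e : G, e ≠ 0 ∧ p • e = 0 := by
  have h1 := card_E_of_dvd (G := G) hd
  have h2 : E G p ≠ ⊥ := by
    intro h
    rw [h, AddSubgroup.card_bot] at h1
    exact hp.one_lt.ne h1
  obtain ⟨a, ha⟩ := AddSubgroup.ne_bot_iff_exists_ne_zero.1 h2
  exact ⟨a.1, fun h => ha (Subtype.ext h), mem_E.1 a.2⟩

instance quotCyclic (N : AddSubgroup G) : IsAddCyclic (G ⧸ N) :=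
  isAddCyclic_of_surjective (QuotientAddGroup.mk' N) (QuotientAddGroup.mk'_surjective N)

/-- a periodic set has cardinality divisible by the order of the group of periods -/
theorem card_dvd_of_periodic {G : Type*} [AddCommGroup G] [Finite G] (R : AddSubgroup G)
    {Z : Set G} (hZ : ∀ z ∈ Z, ∀ r ∈ R, z + r ∈ Z) : Nat.card R ∣ Z.ncard := by
  have h1 : Z = (QuotientAddGroup.mk : G → G ⧸ R) ⁻¹' ((QuotientAddGroup.mk : G → G ⧸ R) '' Z) := by
    ext x
    constructor
    · intro hx; exact ⟨x, hx, rfl⟩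
    · rintro ⟨z, hz, hzx⟩
      rw [QuotientAddGroup.eq] at hzx
      have := hZ z hz _ hzx
      rwa [add_neg_cancel_left] at this
  rw [h1, ← Nat.card_coe_set_eq, Nat.card_congr (QuotientAddGroup.preimageMkEquivAddSubgroupProdSet R _),
    Nat.card_prod]
  exact Dvd.intro _ rfl

theorem dvd_ncard_of_periodic {p : ℕ} (hd : p ∣ Nat.card G) {Z : Set G}
    (hZ : ∀ z ∈ Z, ∀ e : G, p • e = 0 → z + e ∈ Z) : p ∣ Z.ncard := by
  have h1 := card_dvd_of_periodic (E G p) (Z := Z) (fun z hz r hr => hZ z hz r (mem_E.1 hr))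
  rwa [card_E_of_dvd hd] at h1

end cyc

end Pool.Agent.Helper40.GS
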