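import Pool.Agent.Helper40.GS.ThmB

set_option autoImplicit false
set_option linter.unusedSectionVars false
set_option linter.style.haveILetI false
set_option linter.deprecated false
set_option linter.unusedVariables false

namespace Pool.Agent.Helper40.GR

open Pool.Agent.Helper40.GS

variable {G : Type*} [AddCommGroup G]

/-- adjacency in the product description -/
def Adj (S : ZMod 2 → Set G) (w v : ZMod 2 × G) : Prop := v.2 - w.2 ∈ S (w.1 + v.1)

/-- two-fold morphisms -/
def TF (S : ZMod 2 → Set G) (α β : Equiv.Perm (ZMod 2 × G)) : Prop :=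
  ∀ w v, Adj S w v ↔ Adj S (α w) (β v)

/-- the standing assumptions -/
structure Ctx (S : ZMod 2 → Set G) : Prop where
  sym : ∀ i x, x ∈ S i → -x ∈ S i
  odd : Odd (Nat.card G)
  ne : ∃ x, ¬ (x ∈ S 0 ↔ x ∈ S 1)
  typeII : ∀ α β, TF S α β → (∀ w, (α w).1 = w.1) → (∀ w, (β w).1 = w.1) → α = β

/-- the subgroup generated by the symmetric difference -/
def MM (S : ZMod 2 → Set G) : AddSubgroup G := AddSubgroup.closure {x | ¬ (x ∈ S 0 ↔ x ∈ S 1)}

/-- same block -/
def Sb (S : ZMod 2 → Set G) (w v : ZMod 2 × G) : Prop := w.1 = v.1 ∧ w.2 - v.2 ∈ MM S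

theorem z2_add_self (a : ZMod 2) : a + a = 0 := by revert a; decide
theorem z2_cases (a : ZMod 2) : a = 0 ∨ a = 1 := by revert a; decide
theorem z2_ne (a b : ZMod 2) (h : a ≠ b) : a = b + 1 := by revert a b; decide
theorem z2_add_one_ne (a : ZMod 2) : a + 1 ≠ a := by revert a; decide
theorem z2_sub (a b : ZMod 2) : a - b = a + b := by revert a b; decide

section sb

variable {S : ZMod 2 → Set G} {w v z : ZMod 2 × G}

theorem Sb.refl (w : ZMod 2 × G) : Sb S w w := ⟨rfl, by rw [sub_self]; exact AddSubgroup.zero_mem _⟩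
theorem Sb.symm (h : Sb S w v) : Sb S v w :=
  ⟨h.1.symm, by rw [← neg_sub]; exact AddSubgroup.neg_mem _ h.2⟩
theorem Sb.trans (h : Sb S w v) (h' : Sb S v z) : Sb S w z :=
  ⟨h.1.trans h'.1, by
    have : w.2 - z.2 = (w.2 - v.2) + (v.2 - z.2) := by abel
    rw [this]; exact AddSubgroup.add_mem _ h.2 h'.2⟩

theorem mem_MM {x : G} (h : ¬ (x ∈ S 0 ↔ x ∈ S 1)) : x ∈ MM S := AddSubgroup.subset_closure h

theorem S_indep {x : G} (h : x ∉ MM S) (i j : ZMod 2) : x ∈ S i ↔ x ∈ S j := by
  have h1 : x ∈ S 0 ↔ x ∈ S 1 := by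
    by_contra hc
    exact h (mem_MM hc)
  rcases z2_cases i with rfl | rfl <;> rcases z2_cases j with rfl | rfl <;> tauto

end sb

namespace TF

variable {S : ZMod 2 → Set G} {α β α' β' : Equiv.Perm (ZMod 2 × G)}

theorem mul (h : TF S α β) (h' : TF S α' β') : TF S (α * α') (β * β') := by
  intro u v
  rw [h' u v, h]; rfl

theorem inv (h : TF S α β) : TF S α⁻¹ β⁻¹ := by
  intro u v
  rw [h (α⁻¹ u) (β⁻¹ v)]; simp

end TF

namespace Ctx

variable {S : ZMod 2 → Set G} (c : Ctx S) {α β α' β' : Equiv.Perm (ZMod 2 × G)}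

include c

theorem sym_iff (i : ZMod 2) (x : G) : -x ∈ S i ↔ x ∈ S i :=
  ⟨fun h => by simpa using c.sym i _ h, c.sym i x⟩

theorem adj_comm (w v : ZMod 2 × G) : Adj S w v ↔ Adj S v w := by
  unfold Adj
  rw [← neg_sub, c.sym_iff, add_comm]

theorem swap (h : TF S α β) : TF S β α := by
  intro u v
  rw [c.adj_comm, h v u, c.adj_comm]

omit c in
/-- translations -/
theorem trans (a : ZMod 2 × G) : TF S (Equiv.addRight a) (Equiv.addRight a) := by
  intro u v
  unfold Adj
  simp only [Equiv.coe_addRight, Prod.fst_add, Prod.snd_add, add_sub_add_right_eq_sub]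
  have : u.1 + a.1 + (v.1 + a.1) = u.1 + v.1 := by
    have := z2_add_self a.1
    linear_combination this
  rw [this]

variable [Finite G]

theorem half (x : G) : ∃ y, 2 • y = x ∧ ∀ K : AddSubgroup G, x ∈ K → y ∈ K := by
  obtain ⟨k, hk⟩ := c.odd
  refine ⟨(k + 1) • x, ?_, fun K hx => AddSubgroup.nsmul_mem _ hx _⟩
  rw [← mul_smul]
  have : 2 * (k + 1) = Nat.card G + 1 := by omega
  rw [this, add_smul, card_nsmul_eq_zero', zero_add, one_smul]

theorem two_inj {x : G} (h : 2 • x = 0) : x = 0 := by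
  have h2 : (Nat.card G) • x = 0 := card_nsmul_eq_zero'
  exact smul_eq_zero_of_coprime c.odd.coprime_two_left h h2

open Classical in
/-- number of common neighbours modulo 2 -/
noncomputable def cod (S : ZMod 2 → Set G) (u w : ZMod 2 × G) : ZMod 2 :=
  haveI := Fintype.ofFinite (ZMod 2 × G)
  ∑ v, if Adj S u v ∧ Adj S w v then (1 : ZMod 2) else 0

omit c in
theorem cod_tf (h : TF S α β) (u w : ZMod 2 × G) : cod S (α u) (α w) = cod S u w := by
  classical
  unfold cod
  letI := Fintype.ofFinite (ZMod 2 × G)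
  rw [← Equiv.sum_comp β]
  refine Finset.sum_congr rfl fun v _ => ?_
  rw [← h u v, ← h w v]

theorem cod_eq_one_iff (u w : ZMod 2 × G) : cod S u w = 1 ↔
    u.1 = w.1 ∧ ∃ t, ¬ (t ∈ S 0 ↔ t ∈ S 1) ∧ 2 • t = w.2 - u.2 := by
  classical
  letI := Fintype.ofFinite (ZMod 2 × G)
  -- reduction to the fixed points of the involution
  have hred : cod S u w = ∑ v ∈ Finset.univ.filter (fun v => v + v = u + w),
      if Adj S u v ∧ Adj S w v then (1 : ZMod 2) else 0 := by
    unfold cod
    rw [← Finset.sum_filter_add_sum_filter_not Finset.univ (fun v => v + v = u + w)]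
    conv_rhs => rw [← add_zero (Finset.sum _ _)]
    congr 1
    refine Finset.sum_involution (fun v _ => u + w - v) ?_ ?_ ?_ ?_
    · intro v _
      have h1 : (Adj S u (u + w - v) ∧ Adj S w (u + w - v)) ↔ (Adj S u v ∧ Adj S w v) := by
        have e1 : Adj S u (u + w - v) ↔ Adj S w v := by
          unfold Adj
          have a1 : (u + w - v).2 - u.2 = -(v.2 - w.2) := by simp; abel
          have a2 : u.1 + (u + w - v).1 = w.1 + v.1 := by
            simp only [Prod.fst_add, Prod.fst_sub]
            have b1 := z2_add_self u.1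
            rw [z2_sub]
            linear_combination b1
          rw [a1, a2, c.sym_iff]
        have e2 : Adj S w (u + w - v) ↔ Adj S u v := by
          unfold Adj
          have a1 : (u + w - v).2 - w.2 = -(v.2 - u.2) := by simp; abel
          have a2 : w.1 + (u + w - v).1 = u.1 + v.1 := by
            simp only [Prod.fst_add, Prod.fst_sub]
            have b1 := z2_add_self w.1
            rw [z2_sub]
            linear_combination b1
          rw [a1, a2, c.sym_iff]
        rw [e1, e2, and_comm]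
      simp only [h1]
      exact CharTwo.add_self_eq_zero _
    · intro v hv _ h
      rw [Finset.mem_filter] at hv
      apply hv.2
      have h' : u + w - v = v := h
      rw [sub_eq_iff_eq_add] at h'
      exact h'.symm
    · intro v hv
      rw [Finset.mem_filter] at hv ⊢
      refine ⟨Finset.mem_univ _, fun h => hv.2 ?_⟩
      have h3 : (u + w) - (v + v) = 0 := by
        have h4 : (u + w) + ((u + w) - (v + v)) = u + w := by
          have h5 : (u + w) + ((u + w) - (v + v)) = (u + w - v) + (u + w - v) := by abel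
          rw [h5]; exact h
        exact left_eq_add.1 h4.symm
      exact (sub_eq_zero.1 h3).symm
    · intro v _
      exact sub_sub_cancel _ _
  obtain ⟨mid, hmid, -⟩ := c.half (u.2 + w.2)
  by_cases h1 : u.1 = w.1
  · have hfil : Finset.univ.filter (fun v : ZMod 2 × G => v + v = u + w) =
        {(u.1, mid), (u.1 + 1, mid)} := by
      ext v
      simp only [Finset.mem_filter, Finset.mem_univ, true_and, Finset.mem_insert,
        Finset.mem_singleton]
      constructor
      · intro h
        have h2 : v.2 + v.2 = u.2 + w.2 := congrArg Prod.snd h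
        have h3 : v.2 = mid := by
          have : 2 • (v.2 - mid) = 0 := by rw [smul_sub, two_smul, h2, hmid, sub_self]
          exact sub_eq_zero.1 (c.two_inj this)
        by_cases h4 : v.1 = u.1
        · left; exact Prod.ext h4 h3
        · right; exact Prod.ext (z2_ne _ _ h4) h3
      · rintro (rfl | rfl)
        · refine Prod.ext ?_ ?_
          · show u.1 + u.1 = u.1 + w.1
            rw [← h1]
          · show mid + mid = u.2 + w.2
            rw [← two_smul ℕ]; exact hmid
        · refine Prod.ext ?_ ?_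
          · show u.1 + 1 + (u.1 + 1) = u.1 + w.1
            rw [← h1, z2_add_self, z2_add_self]
          · show mid + mid = u.2 + w.2
            rw [← two_smul ℕ]; exact hmid
    have e0 : ∀ i : ZMod 2, (Adj S u (i, mid) ∧ Adj S w (i, mid)) ↔ mid - u.2 ∈ S (u.1 + i) := by
      intro i
      unfold Adj
      have a1 : mid - w.2 = -(mid - u.2) := by
        have : mid + mid = u.2 + w.2 := by rw [← two_smul ℕ]; exact hmid
        have h5 : w.2 = mid + mid - u.2 := by rw [this]; abel
        rw [h5]; abel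
      show mid - u.2 ∈ S (u.1 + i) ∧ mid - w.2 ∈ S (w.1 + i) ↔ _
      rw [a1, c.sym_iff, ← h1]
      tauto
    rw [hred, hfil, Finset.sum_pair (by
      intro h
      exact z2_add_one_ne u.1 (congrArg Prod.fst h).symm)]
    simp only [e0]
    rw [z2_add_self, ← add_assoc, z2_add_self, zero_add]
    have ht : 2 • (mid - u.2) = w.2 - u.2 := by
      rw [smul_sub, hmid, two_smul]; abel
    constructor
    · intro h
      refine ⟨h1, mid - u.2, ?_, ht⟩
      intro hiff
      by_cases h6 : mid - u.2 ∈ S 0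
      · rw [if_pos h6, if_pos (hiff.1 h6)] at h
        exact absurd h (by decide)
      · rw [if_neg h6, if_neg (fun h7 => h6 (hiff.2 h7))] at h
        exact absurd h (by decide)
    · rintro ⟨-, t, ht1, ht2⟩
      have h7 : t = mid - u.2 := by
        have : 2 • (t - (mid - u.2)) = 0 := by rw [smul_sub, ht2, ht, sub_self]
        exact sub_eq_zero.1 (c.two_inj this)
      rw [← h7]
      by_cases h6 : t ∈ S 0
      · have h8 : t ∉ S 1 := fun h9 => ht1 ⟨fun _ => h9, fun _ => h6⟩
        rw [if_pos h6, if_neg h8]; decide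
      · have h8 : t ∈ S 1 := by
          by_contra h9
          exact ht1 ⟨fun h => absurd h h6, fun h => absurd h h9⟩
        rw [if_neg h6, if_pos h8]; decide
  · have hfil : Finset.univ.filter (fun v : ZMod 2 × G => v + v = u + w) = ∅ := by
      rw [Finset.filter_eq_empty_iff]
      intro v _ h
      apply h1
      have h2 : v.1 + v.1 = u.1 + w.1 := congrArg Prod.fst h
      rw [z2_add_self] at h2
      have h3 := z2_add_self w.1
      linear_combination -h2 - h3 + 2 * w.1
    rw [hred, hfil, Finset.sum_empty]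
    constructor
    · intro h; exact absurd h (by decide)
    · rintro ⟨h, -⟩; exact absurd h h1

theorem sb_closure (h : TF S α β) {x : G} (hx : x ∈ MM S) (w : ZMod 2 × G) :
    Sb S (α (w.1, w.2 + 2 • x)) (α w) := by
  unfold MM at hx
  induction hx using AddSubgroup.closure_induction generalizing w with
  | mem x hx =>
    have h1 : cod S w (w.1, w.2 + 2 • x) = 1 :=
      (c.cod_eq_one_iff _ _).2 ⟨rfl, x, hx, by simp⟩
    rw [← cod_tf h, c.cod_eq_one_iff] at h1
    obtain ⟨h2, t, ht, h3⟩ := h1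
    refine ⟨h2.symm, ?_⟩
    rw [← h3]
    exact AddSubgroup.nsmul_mem _ (mem_MM ht) _
  | zero =>
    rw [smul_zero, add_zero]
    exact Sb.refl _
  | add x y _ _ hx hy =>
    have h1 := hy (w.1, w.2 + 2 • x)
    have h2 := hx w
    simp only at h1
    rw [smul_add, ← add_assoc]
    exact h1.trans h2
  | neg x _ hx =>
    have h1 := hx (w.1, w.2 + 2 • -x)
    simp only at h1
    have h2 : w.2 + 2 • -x + 2 • x = w.2 := by rw [smul_neg, neg_add_cancel_right]
    rw [h2] at h1
    exact h1.symm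

theorem sb_of (h : TF S α β) {w v : ZMod 2 × G} (hwv : Sb S w v) : Sb S (α w) (α v) := by
  obtain ⟨y, hy, hyM⟩ := c.half (w.2 - v.2)
  have h1 := c.sb_closure h (hyM _ hwv.2) v
  rw [hy] at h1
  have h2 : ((v.1, v.2 + (w.2 - v.2)) : ZMod 2 × G) = w := Prod.ext hwv.1.symm (by simp)
  rwa [h2] at h1

theorem sb_iff (h : TF S α β) {w v : ZMod 2 × G} : Sb S (α w) (α v) ↔ Sb S w v := by
  refine ⟨fun h1 => ?_, c.sb_of h⟩
  have h2 := c.sb_of h.inv h1
  simpa using h2

end Ctx

/-- symmetric difference of neighbourhoods -/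
def NN (S : ZMod 2 → Set G) (w v : ZMod 2 × G) : Set (ZMod 2 × G) :=
  {z | ¬ (Adj S w z ↔ Adj S v z)}

/-- `NN w v` meets exactly the blocks of `a` and `b` -/
structure TB (S : ZMod 2 → Set G) (w v a b : ZMod 2 × G) : Prop where
  cover : ∀ z ∈ NN S w v, Sb S z a ∨ Sb S z b
  left : ∃ z ∈ NN S w v, Sb S z a
  right : ∃ z ∈ NN S w v, Sb S z b
  ne : ¬ Sb S a b

theorem TB.symm {S : ZMod 2 → Set G} {w v a b : ZMod 2 × G} (h : TB S w v a b) : TB S w v b a :=
  ⟨fun z hz => (h.cover z hz).symm, h.right, h.left, fun h1 => h.ne h1.symm⟩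

theorem NN_comm {S : ZMod 2 → Set G} {w v z : ZMod 2 × G} : z ∈ NN S w v ↔ z ∈ NN S v w := by
  unfold NN
  simp only [Set.mem_ofPred_eq]
  tauto

namespace Ctx

variable {S : ZMod 2 → Set G} (c : Ctx S) {α β α' β' : Equiv.Perm (ZMod 2 × G)}

include c

theorem tb_map [Finite G] (h : TF S α β) {w v a b : ZMod 2 × G} (hT : TB S w v a b) :
    TB S (α w) (α v) (β a) (β b) := by
  have h1 : ∀ z, β z ∈ NN S (α w) (α v) ↔ z ∈ NN S w v := by
    intro z
    unfold NN
    simp only [Set.mem_ofPred_eq]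
    rw [← h, ← h]
  have hβ := c.swap h
  refine ⟨fun z hz => ?_, ?_, ?_, fun h2 => hT.ne ((c.sb_iff hβ).1 h2)⟩
  · obtain ⟨z, rfl⟩ := β.surjective z
    rw [h1] at hz
    rw [c.sb_iff hβ, c.sb_iff hβ]
    exact hT.cover z hz
  · obtain ⟨z, hz, hz2⟩ := hT.left
    exact ⟨β z, (h1 z).2 hz, (c.sb_iff hβ).2 hz2⟩
  · obtain ⟨z, hz, hz2⟩ := hT.right
    exact ⟨β z, (h1 z).2 hz, (c.sb_iff hβ).2 hz2⟩

/-- `S 0` has no periods -/
theorem no_period0 {h : G} (hp : ∀ x, x ∈ S 0 ↔ x + h ∈ S 0) : h = 0 := by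
  let α : Equiv.Perm (ZMod 2 × G) :=
    { toFun := fun w => (w.1, if w.1 = 1 then w.2 + h else w.2)
      invFun := fun w => (w.1, if w.1 = 1 then w.2 - h else w.2)
      left_inv := by
        intro w
        refine Prod.ext rfl ?_
        by_cases h1 : w.1 = 1 <;> simp [h1]
      right_inv := by
        intro w
        refine Prod.ext rfl ?_
        by_cases h1 : w.1 = 1 <;> simp [h1] }
  let β : Equiv.Perm (ZMod 2 × G) :=
    { toFun := fun w => (w.1, if w.1 = 1 then w.2 else w.2 + h)
      invFun := fun w => (w.1, if w.1 = 1 then w.2 else w.2 - h)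
      left_inv := by
        intro w
        refine Prod.ext rfl ?_
        by_cases h1 : w.1 = 1 <;> simp [h1]
      right_inv := by
        intro w
        refine Prod.ext rfl ?_
        by_cases h1 : w.1 = 1 <;> simp [h1] }
  have hα : ∀ w, α w = (w.1, if w.1 = 1 then w.2 + h else w.2) := fun w => rfl
  have hβ : ∀ w, β w = (w.1, if w.1 = 1 then w.2 else w.2 + h) := fun w => rfl
  have hTF : TF S α β := by
    rintro ⟨i, x⟩ ⟨j, y⟩
    rw [hα, hβ]
    unfold Adj
    rcases z2_cases i with rfl | rfl <;> rcases z2_cases j with rfl | rfl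
    · simp only [zero_ne_one, if_false, add_zero]
      rw [hp (y - x)]
      have : y - x + h = y + h - x := by abel
      rw [this]
    · simp
    · simp
    · simp only [if_true]
      have h11 : (1 : ZMod 2) + 1 = 0 := by decide
      rw [h11, hp (y - (x + h))]
      have : y - (x + h) + h = y - x := by abel
      rw [this]
  have h1 := c.typeII α β hTF (fun w => rfl) (fun w => rfl)
  have h2 := congrArg (fun f => (f ((0 : ZMod 2), (0 : G))).2) h1
  simp only [hα, hβ] at h2
  simpa using h2.symm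

/-- the analysis of pairs of vertices in different rows -/
theorem tb_far {w v a b : ZMod 2 × G} (hT : TB S w v a b) (hh : w.2 - v.2 ∉ MM S) :
    (∀ x, x ∈ S 1 ↔ x + (w.2 - v.2) ∈ S 1) ∧
      ((Sb S a w ∧ Sb S b v) ∨ (Sb S a v ∧ Sb S b w)) := by
  set h := w.2 - v.2 with hdef
  have hwv : w.2 = v.2 + h := by rw [hdef]; abel
  have hneg : ∀ {x : G}, -x ∈ MM S ↔ x ∈ MM S := fun {x} =>
    ⟨fun h => by simpa using AddSubgroup.neg_mem _ h, AddSubgroup.neg_mem _⟩
  obtain ⟨e, he⟩ := c.ne
  have heM := mem_MM he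
  have hadd : ∀ {μ : G}, μ ∈ MM S → μ + h ∉ MM S := fun {μ} hμ h1 => by
    apply hh
    have : h = (μ + h) - μ := by abel
    rw [this]; exact AddSubgroup.sub_mem _ h1 hμ
  have hsub : ∀ {μ : G}, μ ∈ MM S → μ - h ∉ MM S := fun {μ} hμ h1 => by
    apply hh
    have : h = μ - (μ - h) := by abel
    rw [this]; exact AddSubgroup.sub_mem _ hμ h1
  -- elements in both rows
  have hz : ∃ i, ((i, w.2 + e) : ZMod 2 × G) ∈ NN S w v := by
    by_contra hcon
    push Not at hcon
    have h0 : ∀ i, (e ∈ S (w.1 + i) ↔ e + h ∈ S 0) := by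
      intro i
      have h1 := hcon i
      unfold NN Adj at h1
      simp only [Set.mem_ofPred_eq, not_not] at h1
      have e1 : w.2 + e - w.2 = e := by abel
      have e2 : w.2 + e - v.2 = e + h := by rw [hdef]; abel
      rw [e1, e2] at h1
      rw [h1]
      exact S_indep (hadd heM) _ _
    apply he
    have h1 := h0 w.1
    have h2 := h0 (w.1 + 1)
    rw [z2_add_self] at h1
    rw [← add_assoc, z2_add_self, zero_add] at h2
    exact h1.trans h2.symm
  have hz' : ∃ i, ((i, v.2 + e) : ZMod 2 × G) ∈ NN S w v := by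
    by_contra hcon
    push Not at hcon
    have h0 : ∀ i, (e ∈ S (v.1 + i) ↔ e - h ∈ S 0) := by
      intro i
      have h1 := hcon i
      unfold NN Adj at h1
      simp only [Set.mem_ofPred_eq, not_not] at h1
      have e1 : v.2 + e - v.2 = e := by abel
      have e2 : v.2 + e - w.2 = e - h := by rw [hwv]; abel
      rw [e1, e2] at h1
      rw [← h1]
      exact S_indep (hsub heM) _ _
    apply he
    have h1 := h0 v.1
    have h2 := h0 (v.1 + 1)
    rw [z2_add_self] at h1
    rw [← add_assoc, z2_add_self, zero_add] at h2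
    exact h1.trans h2.symm
  obtain ⟨i₀, hz₀⟩ := hz
  obtain ⟨i₁, hz₁⟩ := hz'
  set z : ZMod 2 × G := (i₀, w.2 + e) with hzdef
  set z' : ZMod 2 × G := (i₁, v.2 + e) with hz'def
  have hzz' : ¬ Sb S z z' := by
    intro h1
    apply hh
    have : h = z.2 - z'.2 := by
      show h = w.2 + e - (v.2 + e)
      rw [hwv]; abel
    rw [this]; exact h1.2
  -- the blocks of `z`, `z'` cover
  have hcov : ∀ y ∈ NN S w v, Sb S y z ∨ Sb S y z' := by
    intro y hy
    rcases hT.cover z hz₀ with h1 | h1 <;> rcases hT.cover z' hz₁ with h2 | h2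
    · exact absurd (h1.trans h2.symm) hzz'
    · rcases hT.cover y hy with h3 | h3
      · exact Or.inl (h3.trans h1.symm)
      · exact Or.inr (h3.trans h2.symm)
    · rcases hT.cover y hy with h3 | h3
      · exact Or.inr (h3.trans h2.symm)
      · exact Or.inl (h3.trans h1.symm)
    · exact absurd (h1.trans h2.symm) hzz'
  -- (a)
  have ha : ∀ μ ∈ MM S, (μ ∈ S (w.1 + i₀ + 1) ↔ μ + h ∈ S 0) := by
    intro μ hμ
    have h1 : ((i₀ + 1, w.2 + μ) : ZMod 2 × G) ∉ NN S w v := by
      intro h2
      rcases hcov _ h2 with h3 | h3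
      · exact z2_add_one_ne i₀ h3.1
      · apply hadd (AddSubgroup.sub_mem _ hμ heM)
        have h4 := h3.2
        have : μ - e + h = w.2 + μ - (v.2 + e) := by rw [hwv]; abel
        rw [this]; exact h4
    unfold NN Adj at h1
    simp only [Set.mem_ofPred_eq, not_not] at h1
    have e1 : w.2 + μ - w.2 = μ := by abel
    have e2 : w.2 + μ - v.2 = μ + h := by rw [hdef]; abel
    rw [e1, e2, ← add_assoc] at h1
    rw [h1]
    exact S_indep (hadd hμ) _ _
  have hb : ∀ μ ∈ MM S, (μ ∈ S (v.1 + i₁ + 1) ↔ μ - h ∈ S 0) := by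
    intro μ hμ
    have h1 : ((i₁ + 1, v.2 + μ) : ZMod 2 × G) ∉ NN S w v := by
      intro h2
      rcases hcov _ h2 with h3 | h3
      · apply hsub (AddSubgroup.sub_mem _ hμ heM)
        have h4 := h3.2
        have : μ - e - h = v.2 + μ - (w.2 + e) := by rw [hwv]; abel
        rw [this]; exact h4
      · exact z2_add_one_ne i₁ h3.1
    unfold NN Adj at h1
    simp only [Set.mem_ofPred_eq, not_not] at h1
    have e1 : v.2 + μ - v.2 = μ := by abel
    have e2 : v.2 + μ - w.2 = μ - h := by rw [hwv]; abel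
    rw [e1, e2, ← add_assoc v.1] at h1
    rw [← h1]
    exact S_indep (hsub hμ) _ _
  have hc : ∀ x, x ∉ MM S → x + h ∉ MM S → (x ∈ S 0 ↔ x + h ∈ S 0) := by
    intro x hx hxh
    have h1 : ((0, w.2 + x) : ZMod 2 × G) ∉ NN S w v := by
      intro h2
      rcases hcov _ h2 with h3 | h3
      · apply hx
        have h4 := h3.2
        have : x = (w.2 + x - (w.2 + e)) + e := by abel
        rw [this]; exact AddSubgroup.add_mem _ h4 heM
      · apply hxh
        have h4 := h3.2
        have : x + h = (w.2 + x - (v.2 + e)) + e := by rw [hwv]; abel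
        rw [this]; exact AddSubgroup.add_mem _ h4 heM
    unfold NN Adj at h1
    simp only [Set.mem_ofPred_eq, not_not] at h1
    have e1 : w.2 + x - w.2 = x := by abel
    have e2 : w.2 + x - v.2 = x + h := by rw [hdef]; abel
    rw [e1, e2] at h1
    rw [S_indep hx 0 (w.1 + 0), h1]
    exact S_indep hxh _ _
  have hcc : w.1 + i₀ + 1 = v.1 + i₁ + 1 := by
    by_contra hne
    apply he
    have h1 : ∀ μ ∈ MM S, (μ ∈ S (w.1 + i₀ + 1) ↔ μ ∈ S (v.1 + i₁ + 1)) := by
      intro μ hμ
      rw [ha μ hμ, ← c.sym_iff (v.1 + i₁ + 1), hb _ (AddSubgroup.neg_mem _ hμ),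
        ← c.sym_iff 0 (μ + h)]
      have : -(μ + h) = -μ - h := by abel
      rw [this]
    have h2 := h1 e heM
    have h3 := z2_ne _ _ hne
    rw [h3] at h2
    rcases z2_cases (v.1 + i₁ + 1) with h4 | h4
    · rw [h4, zero_add] at h2; exact h2.symm
    · rw [h4] at h2
      have h11 : (1 : ZMod 2) + 1 = 0 := by decide
      rw [h11] at h2; exact h2
  have hper : ∀ x, x ∈ S (w.1 + i₀ + 1) ↔ x + h ∈ S (w.1 + i₀ + 1) := by
    intro x
    by_cases h1 : x ∈ MM S
    · rw [ha x h1]
      exact S_indep (hadd h1) _ _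
    by_cases h2 : x + h ∈ MM S
    · conv_rhs => rw [hcc]
      rw [hb _ h2, add_sub_cancel_right]
      exact S_indep h1 _ _
    · rw [S_indep h1 _ 0, S_indep h2 _ 0]
      exact hc x h1 h2
  have hc1 : w.1 + i₀ + 1 = 1 := by
    rcases z2_cases (w.1 + i₀ + 1) with h1 | h1
    · exfalso
      rw [h1] at hper
      have := c.no_period0 hper
      rw [this] at hh
      exact hh (AddSubgroup.zero_mem _)
    · exact h1
  have hi₀ : i₀ = w.1 := by
    have h1 := z2_add_self w.1
    linear_combination hc1 - h1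
  have hi₁ : i₁ = v.1 := by
    have h1 := z2_add_self v.1
    linear_combination hc1 - hcc - h1
  refine ⟨by rw [hc1] at hper; exact hper, ?_⟩
  have hzw : Sb S z w := ⟨hi₀, by
    show w.2 + e - w.2 ∈ MM S
    rw [add_sub_cancel_left]; exact heM⟩
  have hzv : Sb S z' v := ⟨hi₁, by
    show v.2 + e - v.2 ∈ MM S
    rw [add_sub_cancel_left]; exact heM⟩
  rcases hT.cover z hz₀ with h1 | h1 <;> rcases hT.cover z' hz₁ with h2 | h2
  · exact absurd (h1.trans h2.symm) hzz'
  · exact Or.inl ⟨h1.symm.trans hzw, h2.symm.trans hzv⟩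
  · exact Or.inr ⟨h2.symm.trans hzv, h1.symm.trans hzw⟩
  · exact absurd (h1.trans h2.symm) hzz'

/-- the analysis of pairs of vertices in the same row -/
theorem tb_near [Finite G] {w v a b : ZMod 2 × G} (hT : TB S w v a b) (hh : w.2 - v.2 ∈ MM S)
    (hwv1 : w.1 ≠ v.1) : (Sb S a w ∧ Sb S b v) ∨ (Sb S a v ∧ Sb S b w) := by
  set h := w.2 - v.2 with hdef
  obtain ⟨e, he⟩ := c.ne
  have heM := mem_MM he
  have hw1 : w.1 = v.1 + 1 := z2_ne _ _ hwv1
  -- some element in the row
  have hz : ∃ z ∈ NN S w v, z.2 - w.2 ∈ MM S := by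
    by_contra hcon
    push Not at hcon
    have h0 : ∀ i, ∀ μ ∈ MM S, (μ ∈ S i ↔ μ + h ∈ S (i + 1)) := by
      intro i μ hμ
      have h1 : ((i + w.1, w.2 + μ) : ZMod 2 × G) ∉ NN S w v := by
        intro h2
        apply hcon _ h2
        show w.2 + μ - w.2 ∈ MM S
        rw [add_sub_cancel_left]; exact hμ
      unfold NN Adj at h1
      simp only [Set.mem_ofPred_eq, not_not] at h1
      have e1 : w.2 + μ - w.2 = μ := by abel
      have e2 : w.2 + μ - v.2 = μ + h := by rw [hdef]; abel
      have e3 : w.1 + (i + w.1) = i := by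
        have := z2_add_self w.1
        linear_combination this
      have e4 : v.1 + (i + w.1) = i + 1 := by
        rw [hw1]
        have := z2_add_self v.1
        linear_combination this
      rwa [e1, e2, e3, e4] at h1
    have h11 : (1 : ZMod 2) + 1 = 0 := by decide
    have h2 : ∀ k : ℕ, ∀ μ ∈ MM S, (μ ∈ S 0 ↔ μ + k • (2 • h) ∈ S 0) := by
      intro k
      induction k with
      | zero => intro μ _; simp
      | succ k ih =>
        intro μ hμ
        have h3 : μ + k • (2 • h) ∈ MM S :=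
          AddSubgroup.add_mem _ hμ (AddSubgroup.nsmul_mem _ (AddSubgroup.nsmul_mem _ hh _) _)
        have h4 := h0 0 _ h3
        have h5 := h0 1 _ (AddSubgroup.add_mem _ h3 hh)
        rw [zero_add] at h4
        rw [h11] at h5
        rw [ih μ hμ, h4, h5]
        have : μ + k • 2 • h + h + h = μ + (k + 1) • 2 • h := by
          rw [add_smul k 1 (2 • h), one_smul, two_smul]; abel
        rw [this]
    obtain ⟨n, hn⟩ := c.odd
    have h3 : (n + 1) • (2 • h) = h := by
      rw [← mul_smul]
      have : (n + 1) * 2 = Nat.card G + 1 := by omega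
      rw [this, add_smul, card_nsmul_eq_zero', zero_add, one_smul]
    have h4 := h2 (n + 1) e heM
    rw [h3] at h4
    have h5 := h0 1 e heM
    rw [h11] at h5
    exact he (h4.trans h5.symm)
  obtain ⟨z₀, hz₀, hz₀r⟩ := hz
  have hrow : ∀ z ∈ NN S w v, z.2 - w.2 ∈ MM S := by
    intro z hz
    by_contra hzr
    have hzr' : z.2 - v.2 ∉ MM S := by
      intro h1
      apply hzr
      have : z.2 - w.2 = (z.2 - v.2) - h := by rw [hdef]; abel
      rw [this]; exact AddSubgroup.sub_mem _ h1 hh
    have hz2 : ((z.1 + 1, z.2) : ZMod 2 × G) ∈ NN S w v := by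
      unfold NN Adj at hz ⊢
      simp only [Set.mem_ofPred_eq] at hz ⊢
      rw [S_indep hzr (w.1 + (z.1 + 1)) (w.1 + z.1), S_indep hzr' (v.1 + (z.1 + 1)) (v.1 + z.1)]
      exact hz
    have n1 : ¬ Sb S z₀ z := by
      intro h1
      apply hzr
      have : z.2 - w.2 = (z₀.2 - w.2) - (z₀.2 - z.2) := by abel
      rw [this]; exact AddSubgroup.sub_mem _ hz₀r h1.2
    have n2 : ¬ Sb S z₀ (z.1 + 1, z.2) := by
      intro h1
      apply hzr
      have : z.2 - w.2 = (z₀.2 - w.2) - (z₀.2 - z.2) := by abel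
      rw [this]; exact AddSubgroup.sub_mem _ hz₀r h1.2
    have n3 : ¬ Sb S z (z.1 + 1, z.2) := fun h1 => z2_add_one_ne z.1 h1.1.symm
    rcases hT.cover _ hz₀ with h1 | h1 <;> rcases hT.cover _ hz with h2 | h2 <;>
      rcases hT.cover _ hz2 with h3 | h3
    · exact n1 (h1.trans h2.symm)
    · exact n1 (h1.trans h2.symm)
    · exact n2 (h1.trans h3.symm)
    · exact n3 (h2.trans h3.symm)
    · exact n3 (h2.trans h3.symm)
    · exact n2 (h1.trans h3.symm)
    · exact n1 (h1.trans h2.symm)
    · exact n1 (h1.trans h2.symm)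
  obtain ⟨x, hx, hxa⟩ := hT.left
  obtain ⟨y, hy, hyb⟩ := hT.right
  have hxy : x.1 ≠ y.1 := by
    intro h1
    apply hT.ne
    have h2 : Sb S x y := ⟨h1, by
      have : x.2 - y.2 = (x.2 - w.2) - (y.2 - w.2) := by abel
      rw [this]; exact AddSubgroup.sub_mem _ (hrow x hx) (hrow y hy)⟩
    exact (hxa.symm.trans h2).trans hyb
  have hrv : ∀ z : ZMod 2 × G, z.2 - w.2 ∈ MM S → z.2 - v.2 ∈ MM S := by
    intro z hz
    have : z.2 - v.2 = (z.2 - w.2) + h := by rw [hdef]; abel
    rw [this]; exact AddSubgroup.add_mem _ hz hh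
  by_cases hxw : x.1 = w.1
  · left
    have hyv : y.1 = v.1 := by
      have h1 := z2_ne _ _ hxy
      linear_combination -h1 + hxw + hw1
    exact ⟨hxa.symm.trans ⟨hxw, hrow x hx⟩, hyb.symm.trans ⟨hyv, hrv y (hrow y hy)⟩⟩
  · right
    have hxv : x.1 = v.1 := by
      have h1 := z2_ne _ _ hxw
      have h2 := z2_add_self (1 : ZMod 2)
      linear_combination h1 + hw1 + h2
    have hyw : y.1 = w.1 := by
      have h1 := z2_ne _ _ (Ne.symm hxy)
      linear_combination h1 + hxv - hw1
    exact ⟨hxa.symm.trans ⟨hxv, hrv x (hrow x hx)⟩, hyb.symm.trans ⟨hyw, hrow y hy⟩⟩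

theorem tb_blocks [Finite G] {w v a b : ZMod 2 × G} (hT : TB S w v a b) (hne : ¬ Sb S w v) :
    (Sb S a w ∧ Sb S b v) ∨ (Sb S a v ∧ Sb S b w) := by
  by_cases hh : w.2 - v.2 ∈ MM S
  · exact c.tb_near hT hh (fun h1 => hne ⟨h1, hh⟩)
  · exact (c.tb_far hT hh).2

end Ctx

end Pool.Agent.Helper40.GR
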