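import Pool.Agent.Helper40.GS.Graph

set_option autoImplicit false
set_option linter.unusedSectionVars false
set_option linter.style.haveILetI false
set_option linter.deprecated false
set_option linter.unusedVariables false

namespace Pool.Agent.Helper40.GR

open Pool.Agent.Helper40.GS

variable {G : Type*} [AddCommGroup G]

theorem perm_apply_inv {V : Type*} (f : Equiv.Perm V) (x : V) : f (f⁻¹ x) = x :=
  f.apply_symm_apply x

theorem perm_inv_apply {V : Type*} (f : Equiv.Perm V) (x : V) : f⁻¹ (f x) = x :=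
  f.symm_apply_apply x

/-- row-wise parity swap -/
def sw (e : G → ZMod 2) : Equiv.Perm (ZMod 2 × G) where
  toFun w := (w.1 + e w.2, w.2)
  invFun w := (w.1 + e w.2, w.2)
  left_inv w := by
    refine Prod.ext ?_ rfl
    show w.1 + e w.2 + e w.2 = w.1
    rw [add_assoc, z2_add_self, add_zero]
  right_inv w := by
    refine Prod.ext ?_ rfl
    show w.1 + e w.2 + e w.2 = w.1
    rw [add_assoc, z2_add_self, add_zero]

theorem sw_apply (e : G → ZMod 2) (w : ZMod 2 × G) : sw e w = (w.1 + e w.2, w.2) := rfl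

theorem sw_inv (e : G → ZMod 2) : (sw e)⁻¹ = sw e := rfl

theorem sw_sw (e : G → ZMod 2) (w : ZMod 2 × G) : sw e (sw e w) = w := (sw e).left_inv w

namespace Ctx

variable {S : ZMod 2 → Set G} (c : Ctx S) {α β α' β' : Equiv.Perm (ZMod 2 × G)}

theorem tf_sw {e : G → ZMod 2} (he : ∀ x, ∀ μ ∈ MM S, e (x + μ) = e x) :
    TF S (sw e) (sw e) := by
  intro w v
  rw [sw_apply, sw_apply]
  unfold Adj
  show v.2 - w.2 ∈ S (w.1 + v.1) ↔ v.2 - w.2 ∈ S (w.1 + e w.2 + (v.1 + e v.2))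
  by_cases h : v.2 - w.2 ∈ MM S
  · have h1 := he w.2 _ h
    rw [add_sub_cancel] at h1
    rw [h1]
    have h2 : w.1 + e w.2 + (v.1 + e w.2) = w.1 + v.1 := by
      have := z2_add_self (e w.2)
      linear_combination this
    rw [h2]
  · exact S_indep h _ _

include c

/-- `N(w) △ N(τ w)` -/
theorem tb_tau (w : ZMod 2 × G) : TB S w (w.1 + 1, w.2) w (w.1 + 1, w.2) := by
  have hN : ∀ z : ZMod 2 × G, z ∈ NN S w (w.1 + 1, w.2) ↔ ¬ (z.2 - w.2 ∈ S 0 ↔ z.2 - w.2 ∈ S 1) := by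
    intro z
    unfold NN Adj
    simp only [Set.mem_ofPred_eq]
    have h11 : (1 : ZMod 2) + 1 = 0 := by decide
    have h1 : w.1 + 1 + z.1 = w.1 + z.1 + 1 := by ring
    rw [h1]
    rcases z2_cases (w.1 + z.1) with h | h
    · rw [h, zero_add]
    · rw [h, h11]; tauto
  obtain ⟨e, he⟩ := c.ne
  refine ⟨?_, ⟨(w.1, w.2 + e), ?_, rfl, ?_⟩, ⟨(w.1 + 1, w.2 + e), ?_, rfl, ?_⟩, ?_⟩
  · intro z hz
    rw [hN] at hz
    have h1 := mem_MM hz
    by_cases h2 : z.1 = w.1
    · exact Or.inl ⟨h2, h1⟩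
    · exact Or.inr ⟨z2_ne _ _ h2, h1⟩
  · rw [hN]
    simpa using he
  · simpa using mem_MM he
  · rw [hN]
    simpa using he
  · simpa using mem_MM he
  · intro h
    exact z2_add_one_ne w.1 h.1.symm

theorem not_sb_tau (w : ZMod 2 × G) : ¬ Sb S w (w.1 + 1, w.2) := fun h =>
  z2_add_one_ne w.1 h.1.symm

theorem tb_h {h : G} (hh : h ∉ MM S) (hp : ∀ x, x ∈ S 1 ↔ x + h ∈ S 1) (w : ZMod 2 × G) :
    TB S w (w.1, w.2 + h) w (w.1, w.2 + h) := by
  have hN : ∀ z : ZMod 2 × G, z ∈ NN S w (w.1, w.2 + h) ↔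
      ¬ (z.2 - w.2 ∈ S (w.1 + z.1) ↔ z.2 - w.2 - h ∈ S (w.1 + z.1)) := by
    intro z
    unfold NN Adj
    simp only [Set.mem_ofPred_eq]
    have : z.2 - (w.2 + h) = z.2 - w.2 - h := by abel
    rw [this]
  have hadd : ∀ {μ : G}, μ ∈ MM S → μ + h ∉ MM S := fun {μ} hμ h1 => by
    apply hh
    have : h = (μ + h) - μ := by abel
    rw [this]; exact AddSubgroup.sub_mem _ h1 hμ
  have hsub : ∀ {μ : G}, μ ∈ MM S → μ - h ∉ MM S := fun {μ} hμ h1 => by
    apply hh
    have : h = μ - (μ - h) := by abel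
    rw [this]; exact AddSubgroup.sub_mem _ hμ h1
  have hp' : ∀ x, x ∈ S 1 ↔ x - h ∈ S 1 := by
    intro x
    have := hp (x - h)
    rw [sub_add_cancel] at this
    exact this.symm
  obtain ⟨e, he⟩ := c.ne
  refine ⟨?_, ⟨(w.1, w.2 + e), ?_, rfl, ?_⟩, ⟨(w.1, w.2 + h + e), ?_, rfl, ?_⟩, ?_⟩
  · intro z hz
    rw [hN] at hz
    have h1 : z.1 = w.1 := by
      by_contra hne
      apply hz
      have h2 := z2_ne _ _ hne
      have h3 : w.1 + z.1 = 1 := by
        have := z2_add_self w.1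
        rw [h2]; linear_combination this
      rw [h3]
      exact hp' _
    rw [h1, z2_add_self] at hz
    by_cases h2 : z.2 - w.2 ∈ MM S
    · exact Or.inl ⟨h1, h2⟩
    by_cases h3 : z.2 - w.2 - h ∈ MM S
    · refine Or.inr ⟨h1, ?_⟩
      show z.2 - (w.2 + h) ∈ MM S
      have : z.2 - (w.2 + h) = z.2 - w.2 - h := by abel
      rw [this]; exact h3
    · exfalso
      apply hz
      rw [S_indep h2 0 1, S_indep h3 0 1]
      exact hp' _
  · rw [hN]
    simp only [add_sub_cancel_left, z2_add_self]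
    rw [S_indep (hsub (mem_MM he)) 0 1, ← hp']
    exact he
  · simpa using mem_MM he
  · rw [hN]
    simp only [z2_add_self]
    have e1 : w.2 + h + e - w.2 = e + h := by abel
    have e2 : w.2 + h + e - w.2 - h = e := by abel
    rw [e2, e1, S_indep (hadd (mem_MM he)) 0 1, ← hp]
    tauto
  · simpa using mem_MM he
  · intro h1
    apply hh
    have h2 := h1.2
    have : w.2 - (w.2 + h) = -h := by abel
    simp only [this] at h2
    simpa using AddSubgroup.neg_mem _ h2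

variable [Finite G]

/-- Lemma Z -/
theorem lemZ (h : TF S α β) {e : G → ZMod 2} (he : ∀ x, ∀ μ ∈ MM S, e (x + μ) = e x)
    (hb : ∀ w, Sb S (sw e (β w)) (α w)) : sw e * β = α := by
  obtain ⟨β', hβ'⟩ : ∃ γ, γ = sw e * β := ⟨_, rfl⟩
  rw [← hβ']
  have hβ'w : ∀ w, β' w = sw e (β w) := fun w => by rw [hβ']; rfl
  have hE := tf_sw (S := S) he
  have hsym := c.swap h
  -- blocks under `β'`
  have hblk : ∀ w, Sb S (β' w) (α w) := fun w => by rw [hβ'w]; exact hb w
  have hiβ : ∀ {w v}, Sb S (β' w) (β' v) ↔ Sb S w v := by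
    intro w v
    rw [hβ'w, hβ'w, c.sb_iff hE, c.sb_iff hsym]
  have hβ'inv : ∀ v, Sb S (β'⁻¹ v) (α⁻¹ v) := by
    intro v
    rw [← hiβ, perm_apply_inv]
    have := hblk (α⁻¹ v)
    rw [perm_apply_inv] at this
    exact this.symm
  -- first identity
  have h1 : α⁻¹ * β' = β'⁻¹ * α := by
    apply c.typeII
    · have h2 : TF S (α⁻¹ * (sw e * β)) (β⁻¹ * (sw e * α)) := h.inv.mul (hE.mul hsym)
      have h3 : β⁻¹ * (sw e * α) = β'⁻¹ * α := by
        rw [hβ', mul_inv_rev, sw_inv, mul_assoc]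
      rw [h3, ← hβ'] at h2
      exact h2
    · intro w
      have h3 : Sb S (α ((α⁻¹ * β') w)) (α w) := by
        rw [Equiv.Perm.mul_apply, perm_apply_inv]; exact hblk w
      exact ((c.sb_iff h).1 h3).1
    · intro w
      have h3 : Sb S (β' ((β'⁻¹ * α) w)) (β' w) := by
        rw [Equiv.Perm.mul_apply, perm_apply_inv]; exact (hblk w).symm
      exact (hiβ.1 h3).1
  -- conjugates of translations
  have h2 : ∀ a ∈ MM S, α⁻¹ * Equiv.addRight ((0, a) : ZMod 2 × G) * α =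
      β'⁻¹ * Equiv.addRight ((0, a) : ZMod 2 × G) * β' := by
    intro a ha
    have hsbt : ∀ w : ZMod 2 × G, Sb S (w + (0, a)) w := by
      intro w
      refine ⟨?_, ?_⟩
      · show w.1 + 0 = w.1
        rw [add_zero]
      · show w.2 + a - w.2 ∈ MM S
        rw [add_sub_cancel_left]; exact ha
    apply c.typeII
    · have h3 : TF S (α⁻¹ * Equiv.addRight ((0, a) : ZMod 2 × G) * α)
          (β⁻¹ * Equiv.addRight ((0, a) : ZMod 2 × G) * β) := (h.inv.mul (trans _)).mul h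
      have h4 : β⁻¹ * Equiv.addRight ((0, a) : ZMod 2 × G) * β =
          β'⁻¹ * Equiv.addRight ((0, a) : ZMod 2 × G) * β' := by
        have h5 : sw e * Equiv.addRight ((0, a) : ZMod 2 × G) * sw e =
            Equiv.addRight ((0, a) : ZMod 2 × G) := by
          ext1 w
          show sw e (sw e w + (0, a)) = w + (0, a)
          rw [sw_apply, sw_apply]
          refine Prod.ext ?_ rfl
          show w.1 + e w.2 + 0 + e (w.2 + a) = w.1 + 0
          rw [he _ _ ha]
          have := z2_add_self (e w.2)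
          linear_combination this
        calc β⁻¹ * Equiv.addRight ((0, a) : ZMod 2 × G) * β
            = β⁻¹ * (sw e * Equiv.addRight ((0, a) : ZMod 2 × G) * sw e) * β := by rw [h5]
          _ = _ := by rw [hβ', mul_inv_rev, sw_inv]; simp only [mul_assoc]
      rw [h4] at h3
      exact h3
    · intro w
      have h3 : Sb S (α ((α⁻¹ * Equiv.addRight ((0, a) : ZMod 2 × G) * α) w)) (α w) := by
        rw [Equiv.Perm.mul_apply, Equiv.Perm.mul_apply, perm_apply_inv]; exact hsbt _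
      exact ((c.sb_iff h).1 h3).1
    · intro w
      have h3 : Sb S (β' ((β'⁻¹ * Equiv.addRight ((0, a) : ZMod 2 × G) * β') w)) (β' w) := by
        rw [Equiv.Perm.mul_apply, Equiv.Perm.mul_apply, perm_apply_inv]; exact hsbt _
      exact (hiβ.1 h3).1
  -- `δ = α β'⁻¹`
  have hδ2 : ∀ v, α (β'⁻¹ (α (β'⁻¹ v))) = v := by
    intro v
    have h3 : (α⁻¹ * β') (β'⁻¹ v) = (β'⁻¹ * α) (β'⁻¹ v) := by rw [h1]
    simp only [Equiv.Perm.mul_apply, perm_apply_inv] at h3
    rw [← h3, perm_apply_inv]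
  have hδt : ∀ v, ∀ a ∈ MM S, α (β'⁻¹ (v + (0, a))) = α (β'⁻¹ v) + (0, a) := by
    intro v a ha
    have h3 := congrArg (fun f => f (β'⁻¹ v)) (h2 a ha)
    simp only [Equiv.Perm.mul_apply, perm_apply_inv, Equiv.coe_addRight] at h3
    rw [← h3, perm_apply_inv]
  have hδ1 : ∀ v, α (β'⁻¹ v) = v := by
    intro v
    have h3 : Sb S (α (β'⁻¹ v)) v := by
      have h4 := hblk (β'⁻¹ v)
      rw [perm_apply_inv] at h4
      exact h4.symm
    set a := (α (β'⁻¹ v)).2 - v.2 with ha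
    have h4 : α (β'⁻¹ v) = v + (0, a) := by
      refine Prod.ext ?_ ?_
      · show _ = v.1 + 0
        rw [add_zero]; exact h3.1
      · show _ = v.2 + a
        rw [ha]; abel
    have h5 := hδ2 v
    rw [h4, hδt v a h3.2, h4] at h5
    have h6 : v.2 + a + a = v.2 := congrArg Prod.snd h5
    have h7 : a = 0 := by
      apply c.two_inj
      rw [two_smul]
      have : a + a = (v.2 + a + a) - v.2 := by abel
      rw [this, h6, sub_self]
    rw [h4, h7]
    show v + 0 = v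
    rw [add_zero]
  ext1 w
  have := hδ1 (β' w)
  rw [perm_inv_apply] at this
  exact this.symm

/-- with a nontrivial TF-morphism there are no periods outside `MM S` -/
theorem no_period1 (hex : ∃ α β, TF S α β ∧ α ≠ β) {h : G} (hh : h ∉ MM S)
    (hp : ∀ x, x ∈ S 1 ↔ x + h ∈ S 1) : False := by
  obtain ⟨α, β, hT, hne⟩ := hex
  apply hne
  have hblk : ∀ w, Sb S (β w) (α w) := by
    intro w
    have h1 := c.tb_blocks (c.tb_map hT (c.tb_tau w))
      (fun h2 => c.not_sb_tau w ((c.sb_iff hT).1 h2))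
    have h2 := c.tb_blocks (c.tb_map hT (c.tb_h hh hp w)) (by
      rw [c.sb_iff hT]
      exact (c.tb_h hh hp w).ne)
    rcases h1 with ⟨h1, -⟩ | ⟨h1, -⟩
    · exact h1
    rcases h2 with ⟨h2, -⟩ | ⟨h2, -⟩
    · exact h2
    exfalso
    have h3 := (c.sb_iff hT).1 (h1.symm.trans h2)
    exact z2_add_one_ne w.1 h3.1
  have h1 := c.lemZ hT (e := fun _ => 0) (fun _ _ _ => rfl) (by
    intro w
    have : sw (fun _ => (0 : ZMod 2)) (β w) = β w := by
      rw [sw_apply, add_zero]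
    rw [this]; exact hblk w)
  rw [← h1]
  ext1 w
  show sw (fun _ => (0 : ZMod 2)) (β w) = β w
  rw [sw_apply, add_zero]

/-- rows are preserved -/
theorem rows (hex : ∃ α β, TF S α β ∧ α ≠ β) (h : TF S α β) (w : ZMod 2 × G) :
    (α w).2 - (α (w.1 + 1, w.2)).2 ∈ MM S := by
  by_contra hcon
  have h1 := c.tb_far (c.tb_map h (c.tb_tau w)) hcon
  exact c.no_period1 hex hcon h1.1

theorem rows' (hex : ∃ α β, TF S α β ∧ α ≠ β) (h : TF S α β) {w v : ZMod 2 × G}
    (hwv : w.2 - v.2 ∈ MM S) : (α w).2 - (α v).2 ∈ MM S := by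
  by_cases h1 : w.1 = v.1
  · exact (c.sb_of h ⟨h1, hwv⟩).2
  · have h2 : Sb S w (v.1 + 1, v.2) := ⟨z2_ne _ _ h1, hwv⟩
    have h3 := (c.sb_of h h2).2
    have h4 := c.rows hex h v
    have : (α w).2 - (α v).2 = ((α w).2 - (α (v.1 + 1, v.2)).2) -
        ((α v).2 - (α (v.1 + 1, v.2)).2) := by abel
    rw [this]
    exact AddSubgroup.sub_mem _ h3 h4

/-- structure of TF-morphisms -/
theorem struct (hex : ∃ α β, TF S α β ∧ α ≠ β) (h : TF S α β) :
    (∀ w, (β w).2 = (α w).2) ∧ (∀ w v : ZMod 2 × G, w.2 - v.2 ∈ MM S →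
      (β w).1 - (α w).1 = (β v).1 - (α v).1) := by
  have hβ := c.swap h
  -- parities in a row
  have hpar : ∀ {γ δ : Equiv.Perm (ZMod 2 × G)}, TF S γ δ → ∀ {w v : ZMod 2 × G},
      w.2 - v.2 ∈ MM S → w.1 ≠ v.1 → (γ w).1 ≠ (γ v).1 := by
    intro γ δ hγ w v hwv hne heq
    have h1 : Sb S (γ w) (γ v) := ⟨heq, c.rows' hex hγ hwv⟩
    exact hne ((c.sb_iff hγ).1 h1).1
  have hpar2 : ∀ {γ δ : Equiv.Perm (ZMod 2 × G)}, TF S γ δ → ∀ {w v : ZMod 2 × G},
      w.2 - v.2 ∈ MM S → (γ w).1 - (γ v).1 = w.1 - v.1 := by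
    intro γ δ hγ w v hwv
    by_cases h1 : w.1 = v.1
    · rw [h1, sub_self, (c.sb_of hγ ⟨h1, hwv⟩).1, sub_self]
    · have h2 := hpar hγ hwv h1
      rw [z2_ne _ _ h1, z2_ne _ _ h2]
      ring
  have hcst : ∀ w v : ZMod 2 × G, w.2 - v.2 ∈ MM S →
      (β w).1 - (α w).1 = (β v).1 - (α v).1 := by
    intro w v hwv
    have h1 := hpar2 h hwv
    have h2 := hpar2 hβ hwv
    linear_combination h2 - h1
  refine ⟨?_, hcst⟩
  -- same rows
  have hrow : ∀ w, (β w).2 - (α w).2 ∈ MM S := by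
    intro w
    have h1 := c.tb_blocks (c.tb_map h (c.tb_tau w))
      (fun h2 => c.not_sb_tau w ((c.sb_iff h).1 h2))
    rcases h1 with ⟨h1, -⟩ | ⟨h1, -⟩
    · exact h1.2
    · have h2 := c.rows hex h w
      have : (β w).2 - (α w).2 = ((β w).2 - (α (w.1 + 1, w.2)).2) -
          ((α w).2 - (α (w.1 + 1, w.2)).2) := by abel
      rw [this]
      exact AddSubgroup.sub_mem _ h1.2 h2
  let e : G → ZMod 2 := fun y =>
    (β (β⁻¹ ((0 : ZMod 2), y))).1 - (α (β⁻¹ ((0 : ZMod 2), y))).1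
  have he1 : ∀ w v : ZMod 2 × G, (β w).2 - v.2 ∈ MM S → e v.2 = (β w).1 - (α w).1 := by
    intro w v hwv
    apply hcst
    have h1 := c.rows' hex hβ.inv (w := ((0 : ZMod 2), v.2)) (v := β w) (by
      show v.2 - (β w).2 ∈ MM S
      rw [← neg_sub]; exact AddSubgroup.neg_mem _ hwv)
    rwa [perm_inv_apply] at h1
  have he : ∀ x, ∀ μ ∈ MM S, e (x + μ) = e x := by
    intro x μ hμ
    have h1 := he1 (β⁻¹ ((0 : ZMod 2), x)) ((0 : ZMod 2), x + μ) (by
      rw [perm_apply_inv]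
      show x - (x + μ) ∈ MM S
      have : x - (x + μ) = -μ := by abel
      rw [this]; exact AddSubgroup.neg_mem _ hμ)
    exact h1
  have hZ := c.lemZ h he (by
    intro w
    have h1 := he1 w (β w) (by rw [sub_self]; exact AddSubgroup.zero_mem _)
    rw [sw_apply, h1]
    refine ⟨?_, hrow w⟩
    show (β w).1 + ((β w).1 - (α w).1) = (α w).1
    have h2 := z2_add_self (β w).1
    have h3 := z2_add_self (α w).1
    linear_combination h2 - h3)
  intro w
  rw [← hZ]
  rfl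

/-- the final product form -/
theorem final (hcyc : IsAddCyclic G) (hex : ∃ α β, TF S α β ∧ α ≠ β) :
    ∃ φ : Equiv.Perm G, ∀ i a b, b - a ∈ S i ↔ φ b - φ a ∈ S (i + 1) := by
  -- WLOG `α` preserves parity
  have hex2 : ∃ α β, TF S α β ∧ α ≠ β ∧ ∀ w, (α w).1 = w.1 := by
    obtain ⟨α, β, h, hne⟩ := hex
    have hex : ∃ α β, TF S α β ∧ α ≠ β := ⟨α, β, h, hne⟩
    let e : G → ZMod 2 := fun y => (α⁻¹ ((0 : ZMod 2), y)).1
    have he1 : ∀ x, ∀ μ ∈ MM S, e (x + μ) = e x := by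
      intro x μ hμ
      have h1 : Sb S ((0 : ZMod 2), x + μ) ((0 : ZMod 2), x) := ⟨rfl, by
        show x + μ - x ∈ MM S
        rw [add_sub_cancel_left]; exact hμ⟩
      exact (c.sb_of h.inv h1).1
    have he2 : ∀ w, (α w).1 + e (α w).2 = w.1 := by
      intro w
      by_cases h1 : (α w).1 = 0
      · have h2 : ((0 : ZMod 2), (α w).2) = α w := Prod.ext h1.symm rfl
        show (α w).1 + (α⁻¹ ((0 : ZMod 2), (α w).2)).1 = w.1
        rw [h2, perm_inv_apply, h1, zero_add]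
      · have h2 : ¬ Sb S ((0 : ZMod 2), (α w).2) (α w) := fun h3 => h1 h3.1.symm
        have h3 : (α⁻¹ ((0 : ZMod 2), (α w).2)).2 - w.2 ∈ MM S := by
          have := c.rows' hex h.inv (w := ((0 : ZMod 2), (α w).2)) (v := α w) (by
            show (α w).2 - (α w).2 ∈ MM S
            rw [sub_self]; exact AddSubgroup.zero_mem _)
          rwa [perm_inv_apply] at this
        have h4 : (α⁻¹ ((0 : ZMod 2), (α w).2)).1 ≠ w.1 := by
          intro h5
          apply h2
          have h6 := c.sb_of h (w := α⁻¹ ((0 : ZMod 2), (α w).2)) (v := w) ⟨h5, h3⟩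
          rwa [perm_apply_inv] at h6
        have h5 := z2_ne _ _ h4
        have h6 := z2_ne _ _ h1
        show (α w).1 + (α⁻¹ ((0 : ZMod 2), (α w).2)).1 = w.1
        rw [h5, h6]
        have h7 := z2_add_self (1 : ZMod 2)
        linear_combination h7
    have hE := tf_sw (S := S) he1
    refine ⟨sw e * α, sw e * β, hE.mul h, fun h1 => hne (mul_left_cancel h1), fun w => ?_⟩
    show (α w).1 + e (α w).2 = w.1
    exact he2 w
  obtain ⟨α, β, h, hne, hα⟩ := hex2
  obtain ⟨hs1, hs2⟩ := c.struct hex h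
  -- a vertex on which they differ
  have hw₀ : ∃ w₀, β w₀ ≠ α w₀ := by
    by_contra hcon
    push Not at hcon
    exact hne (Equiv.ext fun w => (hcon w).symm)
  obtain ⟨w₀, hw₀⟩ := hw₀
  have hw₀1 : (β w₀).1 = (α w₀).1 + 1 := by
    apply z2_ne
    intro h1
    exact hw₀ (Prod.ext h1 (hs1 w₀))
  have hαsnd : ∀ v : ZMod 2 × G, v.1 = w₀.1 → (α (v.1 + 1, v.2)).2 = (α v).2 := by
    intro v hv
    set b : ZMod 2 × G := (0, v.2 - (α w₀).2) with hb
    have h1 : TF S (α * Equiv.addRight b * α) (β * Equiv.addRight b * β) :=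
      (h.mul (trans b)).mul h
    have h2 := (c.struct hex h1).1 w₀
    simp only [Equiv.Perm.mul_apply, Equiv.coe_addRight] at h2
    have h3 : α w₀ + b = v := by
      refine Prod.ext ?_ ?_
      · show (α w₀).1 + 0 = v.1
        rw [add_zero, hα, hv]
      · show (α w₀).2 + (v.2 - (α w₀).2) = v.2
        abel
    have h4 : β w₀ + b = (v.1 + 1, v.2) := by
      refine Prod.ext ?_ ?_
      · show (β w₀).1 + 0 = v.1 + 1
        rw [add_zero, hw₀1, hα, hv]
      · show (β w₀).2 + (v.2 - (α w₀).2) = v.2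
        rw [hs1 w₀]; abel
    rw [h3, h4, hs1] at h2
    exact h2
  have hαsnd' : ∀ (i j : ZMod 2) (x : G), (α (i, x)).2 = (α (j, x)).2 := by
    have h1 : ∀ (i : ZMod 2) (x : G), (α (i, x)).2 = (α (w₀.1, x)).2 := by
      intro i x
      by_cases h2 : i = w₀.1
      · rw [h2]
      · have h3 := z2_ne _ _ h2
        rw [h3]
        exact hαsnd (w₀.1, x) rfl
    intro i j x
    rw [h1 i, h1 j]
  have hψinj : Function.Injective (fun x : G => (α ((0 : ZMod 2), x)).2) := by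
    intro x y hxy
    have h1 : α ((0 : ZMod 2), x) = α ((0 : ZMod 2), y) := by
      refine Prod.ext ?_ hxy
      rw [hα, hα]
    exact congrArg Prod.snd (α.injective h1)
  let ψ : Equiv.Perm G := Equiv.ofBijective _ (Finite.injective_iff_bijective.1 hψinj)
  have hψ : ∀ x, ψ x = (α ((0 : ZMod 2), x)).2 := fun x => rfl
  let cc : G → ZMod 2 := fun x => (β ((0 : ZMod 2), x)).1
  have hcc : ∀ x, cc x = (β ((0 : ZMod 2), x)).1 := fun x => rfl
  have hαw : ∀ i x, α (i, x) = (i, ψ x) := fun i x =>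
    Prod.ext (hα _) (hαsnd' i 0 x)
  have hβw : ∀ i x, β (i, x) = (i + cc x, ψ x) := by
    intro i x
    refine Prod.ext ?_ ?_
    · have h1 := hs2 (i, x) (0, x) (by
        show x - x ∈ MM S
        rw [sub_self]; exact AddSubgroup.zero_mem _)
      rw [hα, hα] at h1
      show (β (i, x)).1 = i + cc x
      rw [hcc]
      linear_combination h1
    · rw [hs1, hαw]
  have hccM : ∀ x, ∀ μ ∈ MM S, cc (x + μ) = cc x := by
    intro x μ hμ
    have h1 := hs2 (0, x + μ) (0, x) (by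
      show x + μ - x ∈ MM S
      rw [add_sub_cancel_left]; exact hμ)
    rw [hα, hα] at h1
    rw [hcc, hcc]
    linear_combination h1
  have hccw₀ : cc w₀.2 = 1 := by
    have h1 := hβw w₀.1 w₀.2
    have h2 := hαw w₀.1 w₀.2
    have h3 : (β w₀).1 = w₀.1 + cc w₀.2 := congrArg Prod.fst h1
    rw [hw₀1, hα] at h3
    linear_combination -h3
  have hSψ : ∀ i x y, y - x ∈ S i ↔ ψ y - ψ x ∈ S (i + cc y) := by
    intro i x y
    have h1 := h (i, x) (0, y)
    rw [hαw, hβw] at h1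
    unfold Adj at h1
    simp only [add_zero, zero_add] at h1
    exact h1
  have hMψ : Blk ψ (MM S) := by
    apply blk_of_loc_mem
    intro u x
    rw [loc_apply]
    have h1 := c.sb_iff h (w := (0, u + x)) (v := (0, u))
    rw [hαw, hαw] at h1
    unfold Sb at h1
    simp only [true_and, add_sub_cancel_left] at h1
    exact h1
  set A : ZMod 2 → Set G := fun i => {x | x ∈ S i ∧ x ∈ MM S} with hA
  set T : Set G := {x | x ∈ S 0 ∧ x ∉ MM S} with hT
  have hAloc : ∀ i u, loc ψ u '' (A i) = A (i + cc u) := by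
    intro i u
    ext y
    obtain ⟨x, rfl⟩ := (loc ψ u).surjective y
    rw [(loc ψ u).injective.mem_set_image]
    show x ∈ S i ∧ x ∈ MM S ↔ loc ψ u x ∈ S (i + cc u) ∧ loc ψ u x ∈ MM S
    rw [hMψ.loc_mem]
    constructor
    · rintro ⟨h1, h2⟩
      refine ⟨?_, h2⟩
      have h3 := (hSψ i u (u + x)).1 (by rwa [add_sub_cancel_left])
      rwa [hccM u x h2] at h3
    · rintro ⟨h1, h2⟩
      refine ⟨?_, h2⟩
      rw [← hccM u x h2] at h1
      have h3 := (hSψ i u (u + x)).2 h1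
      rwa [add_sub_cancel_left] at h3
  have hTloc : ∀ u, loc ψ u '' T = T := by
    intro u
    ext y
    obtain ⟨x, rfl⟩ := (loc ψ u).surjective y
    rw [(loc ψ u).injective.mem_set_image]
    show x ∈ S 0 ∧ x ∉ MM S ↔ loc ψ u x ∈ S 0 ∧ loc ψ u x ∉ MM S
    rw [hMψ.loc_mem]
    constructor
    · rintro ⟨h1, h2⟩
      refine ⟨?_, h2⟩
      have h3 := (hSψ 0 u (u + x)).1 (by rwa [add_sub_cancel_left])
      rw [S_indep (i := 0) (j := 0 + cc (u + x)) (by rw [hMψ.loc_mem]; exact h2)]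
      exact h3
    · rintro ⟨h1, h2⟩
      refine ⟨?_, h2⟩
      rw [S_indep (i := 0) (j := 0 + cc (u + x)) (by rw [hMψ.loc_mem]; exact h2)] at h1
      have h3 := (hSψ 0 u (u + x)).2 h1
      rwa [add_sub_cancel_left] at h3
  -- Theorem B
  obtain ⟨φ, hφ⟩ := thmB c.odd (loc ψ w₀.2)
  have hAg : ∀ i, Good (loc ψ w₀.2) (A i) := by
    rintro i u x ⟨hx1, hx2⟩
    rw [loc_loc, loc_loc, hAloc, hAloc, ← add_assoc, hccM _ _ hx2]
  have hTg : Good (loc ψ w₀.2) T := by
    intro u x _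
    rw [loc_loc, loc_loc, hTloc, hTloc]
  have hφA : ∀ i u, loc φ u '' (A i) = A (i + 1) := by
    intro i u
    rw [hφ _ (hAg i) u, loc_loc, add_zero, hAloc, hccw₀]
  have hφT : ∀ u, loc φ u '' T = T := by
    intro u
    rw [hφ _ hTg u, loc_loc, hTloc]
  refine ⟨φ, fun i a b => ?_⟩
  have hsplit : ∀ j x, x ∈ S j ↔ x ∈ A j ∨ x ∈ T := by
    intro j x
    show _ ↔ (x ∈ S j ∧ x ∈ MM S) ∨ (x ∈ S 0 ∧ x ∉ MM S)
    by_cases h1 : x ∈ MM S
    · tauto
    · rw [S_indep h1 j 0]; tauto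
  have h1 : φ b - φ a = loc φ a (b - a) := by
    rw [loc_apply, add_sub_cancel]
  rw [h1, hsplit i, hsplit (i + 1), ← hφA i a, ← (loc φ a).injective.mem_set_image (s := A i),
    ← (loc φ a).injective.mem_set_image (s := T), hφT]

end Ctx

end Pool.Agent.Helper40.GR
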