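import Pool.Agent.Helper40.GS.Loc

set_option autoImplicit false
set_option linter.unusedSectionVars false
set_option linter.style.haveILetI false
set_option linter.deprecated false

namespace Pool.Agent.Helper40.GS

variable {G : Type*} [AddCommGroup G]

open AddMonoidAlgebra

section ind

variable (R : Type*) [CommRing R]

/-- the indicator of a set in the group algebra -/
noncomputable def ind [Finite G] (X : Set G) : AddMonoidAlgebra R G :=
  ∑ x ∈ (Set.toFinite X).toFinset, AddMonoidAlgebra.single x 1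

variable {R}

theorem ind_mul_coeff [Finite G] (X : Set G) (f : AddMonoidAlgebra R G) (g : G) :
    (ind R X * f).coeff g = ∑ x ∈ (Set.toFinite X).toFinset, f.coeff (g - x) := by
  unfold ind
  rw [Finset.sum_mul, AddMonoidAlgebra.coeff_sum, Finsupp.finsetSum_apply]
  refine Finset.sum_congr rfl fun x _ => ?_
  rw [AddMonoidAlgebra.coeff_single_mul_apply, one_mul]
  congr 1
  abel

end ind

theorem ind_pow_loc [Finite G] {R : Type*} [CommRing R] {ψ : Equiv.Perm G} {X : Set G}
    (hX : Good ψ X) (k : ℕ) : ∀ u g : G,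
    ((ind R (loc ψ u '' X)) ^ k).coeff (loc ψ u g) = ((ind R X) ^ k).coeff g := by
  classical
  induction k with
  | zero =>
    intro u g
    rw [pow_zero, pow_zero, AddMonoidAlgebra.one_def, AddMonoidAlgebra.coeff_single,
      Finsupp.single_apply, Finsupp.single_apply]
    have : (0 = loc ψ u g) ↔ (0 = g) := by
      rw [eq_comm, loc_eq_zero, eq_comm]
    simp [this]
  | succ k ih =>
    intro u g
    rw [pow_succ', pow_succ', ind_mul_coeff, ind_mul_coeff]
    have himg : (Set.toFinite (loc ψ u '' X)).toFinset =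
        (Set.toFinite X).toFinset.image (loc ψ u) := by
      ext y
      rw [Finset.mem_image, Set.Finite.mem_toFinset]
      simp only [Set.Finite.mem_toFinset]
      rfl
    rw [himg, Finset.sum_image (by intro a _ b _ h; exact (loc ψ u).injective h)]
    refine Finset.sum_congr rfl fun x hx => ?_
    have hx' : x ∈ X := by simpa using hx
    have h1 : loc ψ u g - loc ψ u x = loc ψ (u + x) (g - x) := by
      have := loc_add ψ u x (g - x)
      rw [add_sub_cancel] at this
      rw [this]; abel
    rw [h1, ← ih (u + x) (g - x), hX u x hx']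

/-- the Frobenius congruence -/
theorem key [Finite G] {ψ : Equiv.Perm G} {X : Set G} (hX : Good ψ X) (p : ℕ)
    [hp : Fact p.Prime] (s : ℕ) (u g : G) :
    (({x | x ∈ loc ψ u '' X ∧ p ^ s • x = loc ψ u g}.ncard : ℕ) : ZMod p) =
      ({x | x ∈ X ∧ p ^ s • x = g}.ncard : ℕ) := by
  classical
  have : CharP (AddMonoidAlgebra (ZMod p) G) p :=
    charP_of_injective_algebraMap (FaithfulSMul.algebraMap_injective (ZMod p) _) p
  have : ExpChar (AddMonoidAlgebra (ZMod p) G) p := ExpChar.prime hp.out
  have hcount : ∀ (Y : Set G) (y : G), ((ind (ZMod p) Y) ^ (p ^ s)).coeff y =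
      (({x | x ∈ Y ∧ p ^ s • x = y}.ncard : ℕ) : ZMod p) := by
    intro Y y
    unfold ind
    rw [sum_pow_char_pow, AddMonoidAlgebra.coeff_sum, Finsupp.finsetSum_apply]
    have h1 : ∀ x ∈ (Set.toFinite Y).toFinset,
        ((AddMonoidAlgebra.single x (1 : ZMod p)) ^ p ^ s).coeff y =
          if p ^ s • x = y then 1 else 0 := by
      intro x _
      rw [AddMonoidAlgebra.single_pow, one_pow, AddMonoidAlgebra.coeff_single,
        Finsupp.single_apply]
    rw [Finset.sum_congr rfl h1, Finset.sum_boole]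
    congr 1
    rw [← Set.ncard_coe_finset]
    congr 1
    ext x
    simp
  rw [← hcount, ← hcount, ind_pow_loc hX]

/-- multipliers at primes -/
theorem mult_prime [Finite G] {ψ : Equiv.Perm G} {X : Set G} (hX : Good ψ X) (p : ℕ)
    (hp : p.Prime) (hc : p.Coprime (Nat.card G)) (u : G) :
    loc ψ u '' ((fun x => p • x) '' X) = (fun x => p • x) '' (loc ψ u '' X) := by
  have : Fact p.Prime := ⟨hp⟩
  have hinj : Function.Injective (fun x : G => p • x) := by
    intro x y hxy
    exact (nsmulCoprime (G := G) (by rw [Nat.coprime_comm]; exact hc)).injective hxy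
  have hkey : ∀ (Y : Set G) (y : G),
      (({x | x ∈ Y ∧ p ^ 1 • x = y}.ncard : ℕ) : ZMod p) ≠ 0 ↔ y ∈ (fun x => p • x) '' Y := by
    intro Y y
    rw [pow_one]
    constructor
    · intro h
      by_contra hne
      apply h
      have : {x | x ∈ Y ∧ p • x = y} = ∅ := by
        ext x
        simp only [Set.mem_ofPred_eq, Set.mem_empty_iff_false, iff_false]
        rintro ⟨h1, h2⟩
        exact hne ⟨x, h1, h2⟩
      rw [this]; simp
    · rintro ⟨x, hx, rfl⟩
      have : {z | z ∈ Y ∧ p • z = p • x} = {x} := by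
        ext z
        simp only [Set.mem_ofPred_eq, Set.mem_singleton_iff]
        constructor
        · rintro ⟨_, h2⟩; exact hinj h2
        · rintro rfl; exact ⟨hx, rfl⟩
      simp only [this, Set.ncard_singleton, Nat.cast_one]
      exact one_ne_zero
  ext y
  obtain ⟨g, rfl⟩ := (loc ψ u).surjective y
  rw [(loc ψ u).injective.mem_set_image, ← hkey, ← hkey, key hX]

theorem InvOn.mult_image {ψ : Equiv.Perm G} {U X Y : Set G} (hX : InvOn ψ U X) (k : ℕ)
    (hY : ∀ u, loc ψ u '' Y = (fun x => k • x) '' (loc ψ u '' X)) : InvOn ψ U Y := by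
  intro u x hx
  rw [hY, hY, hX u x hx]

theorem nsmul_mem_closure {X : Set G} {x : G} (k : ℕ) (hx : x ∈ X) :
    k • x ∈ AddSubgroup.closure X :=
  AddSubgroup.nsmul_mem _ (AddSubgroup.subset_closure hx) k

/-- multipliers -/
theorem mult [Finite G] {ψ : Equiv.Perm G} {X : Set G} (k : ℕ)
    (hc : k.Coprime (Nat.card G)) (hX : Good ψ X) (u : G) :
    loc ψ u '' ((fun x => k • x) '' X) = (fun x => k • x) '' (loc ψ u '' X) := by
  induction k using induction_on_primes generalizing X u with
  | zero =>
    rw [Nat.coprime_zero_left] at hc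
    have h1 : Subsingleton G := (Nat.card_eq_one_iff_unique.1 hc).1
    ext y
    simp [Subsingleton.elim _ (0 : G)]
  | one => simp
  | prime_mul p k hp ih =>
    have hcp : p.Coprime (Nat.card G) := Nat.Coprime.coprime_mul_right hc
    have hck : k.Coprime (Nat.card G) := Nat.Coprime.coprime_mul_left hc
    have hkX : Good ψ ((fun x => k • x) '' X) := by
      have h1 : InvOn ψ (AddSubgroup.closure X) ((fun x => k • x) '' X) :=
        InvOn.mult_image hX.closure k (fun u => ih hck hX u)
      refine h1.mono ?_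
      rintro _ ⟨x, hx, rfl⟩
      exact nsmul_mem_closure k hx
    have h1 : ∀ Y : Set G, (fun x => (p * k) • x) '' Y =
        (fun x => p • x) '' ((fun x => k • x) '' Y) := by
      intro Y
      rw [Set.image_image]
      simp only [mul_smul]
    rw [h1, h1, mult_prime hkX p hp hcp, ih hck hX]

theorem mult_invOn [Finite G] {ψ : Equiv.Perm G} {X : Set G} {k : ℕ}
    (hc : k.Coprime (Nat.card G)) (hX : Good ψ X) :
    InvOn ψ (AddSubgroup.closure X) ((fun x => k • x) '' X) :=
  InvOn.mult_image hX.closure k (fun u => mult k hc hX u)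

theorem mult_good [Finite G] {ψ : Equiv.Perm G} {X : Set G} {k : ℕ}
    (hc : k.Coprime (Nat.card G)) (hX : Good ψ X) : Good ψ ((fun x => k • x) '' X) := by
  refine (mult_invOn hc hX).mono ?_
  rintro _ ⟨x, hx, rfl⟩
  exact nsmul_mem_closure k hx

/-- the operator `P` -/
def PP (p s : ℕ) (X : Set G) : Set G := {g | ¬ p ∣ {x | x ∈ X ∧ p ^ s • x = g}.ncard}

theorem PP_loc [Finite G] {ψ : Equiv.Perm G} {X : Set G} (hX : Good ψ X) (p : ℕ)
    (hp : p.Prime) (s : ℕ) (u : G) : loc ψ u '' (PP p s X) = PP p s (loc ψ u '' X) := by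
  have : Fact p.Prime := ⟨hp⟩
  ext y
  obtain ⟨g, rfl⟩ := (loc ψ u).surjective y
  rw [(loc ψ u).injective.mem_set_image]
  have h1 := key hX p s u g
  unfold PP
  simp only [Set.mem_ofPred_eq]
  rw [← ZMod.natCast_eq_zero_iff, ← ZMod.natCast_eq_zero_iff, h1]

theorem PP_subset [Finite G] {X : Set G} (p s : ℕ) :
    PP p s X ⊆ (fun x => p ^ s • x) '' X := by
  intro g hg
  by_contra hne
  apply hg
  have : {x | x ∈ X ∧ p ^ s • x = g} = ∅ := by
    ext x
    simp only [Set.mem_ofPred_eq, Set.mem_empty_iff_false, iff_false]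
    rintro ⟨h1, h2⟩
    exact hne ⟨x, h1, h2⟩
  rw [this]; simp

theorem PP_invOn [Finite G] {ψ : Equiv.Perm G} {X : Set G} (hX : Good ψ X) {p : ℕ}
    (hp : p.Prime) (s : ℕ) : InvOn ψ (AddSubgroup.closure X) (PP p s X) := by
  intro u x hx
  rw [PP_loc hX p hp, PP_loc hX p hp, hX.closure u x hx]

theorem PP_good [Finite G] {ψ : Equiv.Perm G} {X : Set G} (hX : Good ψ X) {p : ℕ}
    (hp : p.Prime) (s : ℕ) : Good ψ (PP p s X) := by
  refine (PP_invOn hX hp s).mono ?_
  refine (PP_subset p s).trans ?_
  rintro _ ⟨x, hx, rfl⟩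
  exact nsmul_mem_closure _ hx

end Pool.Agent.Helper40.GS
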