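import Pool.Agent.Helper40.GS.Basic

set_option autoImplicit false
set_option linter.unusedSectionVars false
set_option linter.style.haveILetI false
set_option linter.deprecated false

namespace Pool.Agent.Helper40.GS

variable {G : Type*} [AddCommGroup G] {ψ : Equiv.Perm G} {X Y : Set G} {N : AddSubgroup G}

/-- the permutation induced on the quotient by a block -/
def qperm (hN : Blk ψ N) : Equiv.Perm (G ⧸ N) :=
  Quotient.congr ψ (by
    intro a b
    show (QuotientAddGroup.leftRel N) a b ↔ (QuotientAddGroup.leftRel N) (ψ a) (ψ b)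
    rw [QuotientAddGroup.leftRel_apply, QuotientAddGroup.leftRel_apply,
      ← hN.loc_mem (u := a) (x := -a + b), loc_apply, add_neg_cancel_left, neg_add_eq_sub])

/-- the quotient map -/
abbrev qm (N : AddSubgroup G) : G → G ⧸ N := QuotientAddGroup.mk

theorem qm_add (x y : G) : qm N (x + y) = qm N x + qm N y := rfl
theorem qm_sub (x y : G) : qm N (x - y) = qm N x - qm N y := rfl
theorem qm_nsmul (k : ℕ) (x : G) : qm N (k • x) = k • qm N x := rfl
theorem qm_eq_zero {x : G} : qm N x = 0 ↔ x ∈ N := QuotientAddGroup.eq_zero_iff x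
theorem qm_eq {x y : G} : qm N x = qm N y ↔ x - y ∈ N := by
  rw [← qm_eq_zero, qm_sub, sub_eq_zero]
theorem qm_surj : Function.Surjective (qm N) := QuotientAddGroup.mk_surjective

theorem qperm_qm (hN : Blk ψ N) (x : G) : qperm hN (qm N x) = qm N (ψ x) := rfl

theorem loc_qm (hN : Blk ψ N) (u x : G) :
    loc (qperm hN) (qm N u) (qm N x) = qm N (loc ψ u x) := rfl

theorem loc_image_qm (hN : Blk ψ N) (u : G) (X : Set G) :
    loc (qperm hN) (qm N u) '' (qm N '' X) = qm N '' (loc ψ u '' X) := by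
  rw [Set.image_image, Set.image_image]
  rfl

theorem Good.image_qm (hN : Blk ψ N) (hX : Good ψ X) : Good (qperm hN) (qm N '' X) := by
  rintro ū _ ⟨x, hx, rfl⟩
  obtain ⟨u, rfl⟩ := qm_surj ū
  rw [← qm_add, loc_image_qm, loc_image_qm, hX u x hx]

theorem loc_preimage_qm (hN : Blk ψ N) (u : G) (Z : Set (G ⧸ N)) :
    loc ψ u '' (qm N ⁻¹' Z) = qm N ⁻¹' (loc (qperm hN) (qm N u) '' Z) := by
  ext y
  obtain ⟨g, rfl⟩ := (loc ψ u).surjective y
  rw [(loc ψ u).injective.mem_set_image, Set.mem_preimage, Set.mem_preimage, ← loc_qm hN,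
    (loc (qperm hN) _).injective.mem_set_image]

theorem Good.preimage_qm (hN : Blk ψ N) {Z : Set (G ⧸ N)} (hZ : Good (qperm hN) Z) :
    Good ψ (qm N ⁻¹' Z) := by
  intro u x hx
  rw [loc_preimage_qm hN, loc_preimage_qm hN, qm_add, hZ _ _ hx]

theorem MinGood.image_qm (hN : Blk ψ N) (hX : MinGood ψ X) : MinGood (qperm hN) (qm N '' X) := by
  refine ⟨hX.good.image_qm hN, hX.ne.image _, ?_⟩
  rintro Z hZ ⟨_, ⟨x, hx, rfl⟩, hxZ⟩
  have h1 := hX.min _ (hZ.preimage_qm hN) ⟨x, hx, hxZ⟩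
  rintro _ ⟨y, hy, rfl⟩
  exact h1 hy

theorem blk_image_qm [Finite G] (hN : Blk ψ N) {K : AddSubgroup G} (hK : Blk ψ K) :
    Blk (qperm hN) (K.map (QuotientAddGroup.mk' N)) := by
  intro ū
  obtain ⟨u, rfl⟩ := qm_surj ū
  rw [AddSubgroup.coe_map]
  show loc (qperm hN) (qm N u) '' (qm N '' (K : Set G)) = qm N '' (K : Set G)
  rw [loc_image_qm, hK]

end Pool.Agent.Helper40.GS
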