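import Pool.Agent.Helper40.GS.Prime
import Pool.Agent.Helper40.GS.Quot

set_option autoImplicit false
set_option linter.unusedSectionVars false
set_option linter.style.haveILetI false
set_option linter.deprecated false
set_option linter.unusedVariables false

namespace Pool.Agent.Helper40.GS

universe u

/-- `p²` divides the order of `x` -/
def Big {G : Type*} [AddCommGroup G] (p : ℕ) (x : G) : Prop :=
  ∀ m, p.Coprime m → (p * m) • x ≠ 0

/-- the order of `y` is prime to `p` -/
def Cop {G : Type*} [AddCommGroup G] (p : ℕ) (y : G) : Prop := ∃ m, p.Coprime m ∧ m • y = 0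

section

variable {G : Type u} [AddCommGroup G] {ψ : Equiv.Perm G} {X Y A Z : Set G} {N : AddSubgroup G}
  {p a M s : ℕ}

theorem Cop.add {x y : G} (hx : Cop p x) (hy : Cop p y) : Cop p (x + y) := by
  obtain ⟨m, hm, hmx⟩ := hx
  obtain ⟨n, hn, hny⟩ := hy
  refine ⟨m * n, Nat.Coprime.mul_right hm hn, ?_⟩
  have e1 : (m * n) • x = 0 := by rw [mul_comm, mul_smul, hmx, smul_zero]
  have e2 : (m * n) • y = 0 := by rw [mul_smul, hny, smul_zero]
  rw [smul_add, e1, e2, add_zero]

theorem Cop.nsmul {x : G} (hx : Cop p x) (k : ℕ) : Cop p (k • x) := by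
  obtain ⟨m, hm, hmx⟩ := hx
  exact ⟨m, hm, by rw [smul_comm, hmx, smul_zero]⟩

theorem Cop.neg {x : G} (hx : Cop p x) : Cop p (-x) := by
  obtain ⟨m, hm, hmx⟩ := hx
  exact ⟨m, hm, by rw [smul_neg, hmx, neg_zero]⟩

theorem Cop.of_quot [Finite G] {x : G} (hN : p.Coprime (Nat.card N)) (hx : Cop p (qm N x)) :
    Cop p x := by
  obtain ⟨m, hm, hmx⟩ := hx
  rw [← qm_nsmul, qm_eq_zero] at hmx
  refine ⟨Nat.card N * m, Nat.Coprime.mul_right hN hm, ?_⟩
  rw [mul_smul]
  have : Nat.card N • (⟨m • x, hmx⟩ : N) = 0 := card_nsmul_eq_zero'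
  have h2 := congrArg (Subtype.val : N → G) this
  rwa [AddSubgroup.coe_nsmul, AddSubgroup.coe_zero] at h2

theorem Big.quot [Finite G] {x : G} (hN : p.Coprime (Nat.card N)) (hx : Big p x) :
    Big p (qm N x) := by
  intro m hm h
  rw [← qm_nsmul, qm_eq_zero] at h
  apply hx (m * Nat.card N) (Nat.Coprime.mul_right hm hN)
  rw [← mul_assoc, mul_comm (p * m), mul_smul]
  have : Nat.card N • (⟨(p * m) • x, h⟩ : N) = 0 := card_nsmul_eq_zero'
  have h2 := congrArg (Subtype.val : N → G) this
  rwa [AddSubgroup.coe_nsmul, AddSubgroup.coe_zero] at h2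

variable [Finite G] [IsAddCyclic G]

theorem blk_E_quot (hN : Blk ψ N) (hNp : p.Coprime (Nat.card N)) (hE : Blk ψ (E G p)) :
    Blk (qperm hN) (E (G ⧸ N) p) := by
  have h1 : E (G ⧸ N) p = (E G p).map (QuotientAddGroup.mk' N) := by
    ext y
    constructor
    · intro hy
      rw [mem_E] at hy
      obtain ⟨x, rfl⟩ := qm_surj y
      obtain ⟨k, hk1, hk2⟩ := Nat.chineseRemainder hNp 1 0
      refine ⟨k • x, ?_, ?_⟩
      · show k • x ∈ E G p
        rw [mem_E, smul_comm]
        rw [← qm_nsmul, qm_eq_zero] at hy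
        rw [nsmul_congr hk2 (mem_iff.1 hy), zero_smul]
      · show qm N (k • x) = qm N x
        rw [qm_nsmul, nsmul_congr hk1 hy, one_smul]
    · rintro ⟨x, hx, rfl⟩
      rw [mem_E]
      have hx' : p • x = 0 := mem_E.1 hx
      show p • qm N x = 0
      rw [← qm_nsmul, hx']
      rfl
  rw [h1]
  exact blk_image_qm hN hE

theorem T2.big (h : T2 ψ p a M s X) {x : G} (hx : x ∈ X) : Big p x := by
  intro m hm h0
  have hs := h.hs
  apply h.hh_ne (Or.inl rfl) hx
  apply smul_eq_zero_of_coprime hm (h.p_hh_im (Or.inl rfl) hx)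
  unfold hh
  rw [← mul_smul]
  have : m * (p ^ (s - 1) * M) = (p ^ (s - 2) * M) * (p * m) := by
    have : s - 1 = (s - 2) + 1 := by omega
    rw [this, pow_succ]; ring
  rw [this, mul_smul, h0, smul_zero]

end

theorem ncard_fib {G : Type*} [AddCommGroup G] {N : AddSubgroup G} {X : Set G} {n w : G}
    (hn : n ∈ N) :
    {z | z ∈ X ∧ z - (n + w) ∈ N}.ncard = {ν | ν ∈ N ∧ ν + w ∈ X}.ncard := by
  have h1 : {z | z ∈ X ∧ z - (n + w) ∈ N} = (fun ν => ν + w) '' {ν | ν ∈ N ∧ ν + w ∈ X} := by
    ext z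
    constructor
    · rintro ⟨hz, hzN⟩
      refine ⟨z - w, ⟨?_, by rw [sub_add_cancel]; exact hz⟩, sub_add_cancel _ _⟩
      have : z - w = (z - (n + w)) + n := by abel
      rw [this]
      exact AddSubgroup.add_mem _ hzN hn
    · rintro ⟨ν, ⟨hν, hνX⟩, rfl⟩
      refine ⟨hνX, ?_⟩
      have : ν + w - (n + w) = ν - n := by abel
      rw [this]
      exact AddSubgroup.sub_mem _ hν hn
  rw [h1, Set.ncard_image_of_injective _ (add_left_injective w)]

/-- contradiction in the composite case -/
theorem composite_case {G : Type*} [AddCommGroup G] [Finite G] [IsAddCyclic G]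
    {ψ : Equiv.Perm G} {X : Set G} {N : AddSubgroup G} (hcard : Odd (Nat.card G))
    (hX : MinGood ψ X) (hN : MinBlk ψ N) (hnp : ¬ (Nat.card N).Prime)
    (hXN : ¬ ∀ x ∈ X, ∀ n ∈ N, x + n ∈ X) {e : G} (he : e ∈ AddSubgroup.closure X)
    (hec : ∃ m, (Nat.card N).Coprime m ∧ m • e = 0)
    (hper : ∀ x ∈ X, ∃ x' ∈ X, x' - (x + e) ∈ N) : ∀ x ∈ X, x + e ∈ X := by
  obtain ⟨W, hW, hNW, hXW⟩ := hX.cover hcard hN hnp hXN
  -- `e ∈ W`
  have heW : e ∈ W := by
    have h1 : e ∈ N ⊔ W := by
      have h2 : AddSubgroup.closure X ≤ N ⊔ W := (AddSubgroup.closure_le _).2 hXW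
      exact h2 he
    obtain ⟨n, hn, w, hw, rfl⟩ := AddSubgroup.mem_sup.1 h1
    obtain ⟨m, hm, hme⟩ := hec
    rw [smul_add] at hme
    have h3 : m • n ∈ N ⊓ W := by
      refine ⟨AddSubgroup.nsmul_mem _ hn _, ?_⟩
      rw [eq_neg_of_add_eq_zero_left hme]
      exact AddSubgroup.neg_mem _ (AddSubgroup.nsmul_mem _ hw _)
    rw [hNW] at h3
    have h4 : n = 0 := smul_eq_zero_of_coprime hm (mem_iff.1 hn) h3
    rw [h4, zero_add]
    exact hw
  intro x hx
  obtain ⟨ν, hν, w, hw, rfl⟩ := AddSubgroup.mem_sup.1 (hXW hx)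
  obtain ⟨x', hx', hxN⟩ := hper _ hx
  set n₁ := x' - (ν + w + e) with hn₁
  have hx'2 : x' = (ν + n₁) + (w + e) := by rw [hn₁]; abel
  have hwe : w + e ∈ W := AddSubgroup.add_mem _ hw heW
  set D₁ : Set G := {n | n ∈ N ∧ n + w ∈ X} with hD₁
  set D₂ : Set G := {n | n ∈ N ∧ n + (w + e) ∈ X} with hD₂
  have hg1 : Good ψ D₁ := hX.good.fib hN.blk hW hNW hw
  have hg2 : Good ψ D₂ := hX.good.fib hN.blk hW hNW hwe
  have hs1 : D₁ ⊆ N := fun n hn => hn.1
  have hs2 : D₂ ⊆ N := fun n hn => hn.1
  have hcardeq : D₁.ncard = D₂.ncard := by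
    rw [hD₁, hD₂, ← ncard_fib (X := X) hν, ← ncard_fib (X := X) (AddSubgroup.add_mem _ hν hxN)]
    apply hX.ncard_const hN.blk hx
    rw [← hx'2]; exact hx'
  have hν1 : ν ∈ D₁ := ⟨hν, hx⟩
  have hν2 : ν + n₁ ∈ D₂ := ⟨AddSubgroup.add_mem _ hν hxN, by rw [← hx'2]; exact hx'⟩
  have hgoal : ν ∈ D₂ := by
    by_contra hcon
    have hNcard : (N : Set G).ncard = Nat.card N := (Nat.card_coe_set_eq _).symm
    have hn1 : Nat.card N ≠ 1 := fun h => hN.ne (AddSubgroup.card_eq_one.1 h)
    have hn0 : 0 < Nat.card N := Nat.card_pos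
    have hn2 : Nat.card N ≠ 2 := fun h => hnp (h ▸ Nat.prime_two)
    have hbig : ∀ D : Set G, Good ψ D → D ⊆ N → (∃ a ∈ D, a ≠ 0) → Nat.card N - 1 ≤ D.ncard := by
      rintro D hD hDN ⟨a, ha, ha0⟩
      have h1 : (N : Set G) \ {0} ⊆ D := by
        rintro b ⟨hb, hb0⟩
        exact hN.schur hnp hD hDN ha ha0 hb hb0
      have h2 := Set.ncard_le_ncard h1 (Set.toFinite _)
      have h3 := Set.ncard_diff_singleton_of_mem (show (0 : G) ∈ (N : Set G) from N.zero_mem)
      rw [h3, hNcard] at h2
      exact h2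
    by_cases hν0 : ν = 0
    · have h1 : ∃ a ∈ D₂, a ≠ 0 := by
        refine ⟨_, hν2, fun h => hcon ?_⟩
        rw [hν0, ← h]; exact hν2
      have h2 := hbig D₂ hg2 hs2 h1
      have h3 : ∃ a ∈ D₁, a ≠ 0 := by
        by_contra hc
        push Not at hc
        have h4 : D₁ ⊆ {0} := fun a ha => hc a ha
        have h5 := Set.ncard_le_ncard h4 (Set.toFinite _)
        rw [Set.ncard_singleton] at h5
        omega
      obtain ⟨a, ha, ha0⟩ := h3
      have h6 : (N : Set G) ⊆ D₁ := by
        intro b hb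
        by_cases hb0 : b = 0
        · rw [hb0, ← hν0]; exact hν1
        · exact hN.schur hnp hg1 hs1 ha ha0 hb hb0
      have h7 := Set.ncard_le_ncard h6 (Set.toFinite _)
      have h8 : D₂ ⊆ (N : Set G) \ {0} := by
        intro b hb
        refine ⟨hs2 hb, fun h => hcon ?_⟩
        rw [hν0, ← Set.mem_singleton_iff.1 h]; exact hb
      have h9 := Set.ncard_le_ncard h8 (Set.toFinite _)
      rw [Set.ncard_diff_singleton_of_mem (show (0 : G) ∈ (N : Set G) from N.zero_mem)] at h9
      omega
    · have h2 := hbig D₁ hg1 hs1 ⟨ν, hν1, hν0⟩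
      have h3 : D₂ ⊆ {0} := by
        intro b hb
        by_contra hb0
        exact hcon (hN.schur hnp hg2 hs2 hb hb0 hν hν0)
      have h5 := Set.ncard_le_ncard h3 (Set.toFinite _)
      rw [Set.ncard_singleton] at h5
      omega
  have := hgoal.2
  rwa [← add_assoc] at this

theorem lemK (n : ℕ) : ∀ (G : Type u) [AddCommGroup G] [Finite G] [IsAddCyclic G]
    (_ : Odd (Nat.card G)) (ψ : Equiv.Perm G) (X : Set G) (p : ℕ) (_ : p.Prime)
    (_ : Blk ψ (E G p)) (_ : MinGood ψ X) (_ : ¬ ∀ x ∈ X, Full p X x) (_ : ∃ x ∈ X, Big p x)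
    (_ : Nat.card (AddSubgroup.closure X) ≤ n),
    ∀ u, ∃ j : ℕ, ∀ v ∈ AddSubgroup.closure X, Cop p (loc ψ u v - j • v) := by
  induction n with
  | zero =>
    intro G _ _ _ _ ψ X p _ _ _ _ _ h
    exact absurd h (by have := Nat.card_pos (α := AddSubgroup.closure X); omega)
  | succ n ih =>
    intro G _ _ _ hcard ψ X p hp hE hX hnf hbig hn u
    obtain ⟨x₁, hx₁, hbx₁⟩ := hbig
    obtain ⟨a, M, hM', hG⟩ := Nat.exists_eq_pow_mul_and_not_dvd (n := Nat.card G)
      Nat.card_pos.ne' p hp.ne_one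
    have hM : p.Coprime M := (Nat.Prime.coprime_iff_not_dvd hp).2 hM'
    have hd : p ∣ Nat.card G := by
      rw [hG]
      rcases Nat.eq_zero_or_pos a with ha | ha
      · exfalso
        rw [ha, pow_zero, one_mul] at hG
        apply hbx₁ M hM
        rw [mul_smul, ← hG, card_nsmul_eq_zero', smul_zero]
      · exact Dvd.dvd.mul_right (dvd_pow_self p ha.ne') M
    have hodd : Odd p := hcard.of_dvd_nat hd
    have hT : ∃ s, T2 ψ p a M s X := by
      rcases hX.prime_type hp hG hd hE hnf with h | ⟨s, hs, hr, hall⟩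
      · exact absurd (h x₁ hx₁) (hbx₁ M hM)
      · exact ⟨s, hp, hodd, hG, hM, hd, hs, hX, hE, hr, hall⟩
    obtain ⟨s, hT⟩ := hT
    have hs := hT.hs
    set W := AddSubgroup.closure ((fun x => p ^ s • x) '' X) with hWdef
    have hW : Blk ψ W := type2_blk hp hodd hG hM hd hs hX hT.hr hT.hall
    have hWM : W ≤ E G M := by
      apply closure_le_E
      rintro _ ⟨x, hx, rfl⟩
      show M • (p ^ s • x) = 0
      rw [← mul_smul, mul_comm]
      exact hT.hall x hx
    have hWU : W ≤ AddSubgroup.closure X := by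
      rw [hWdef, AddSubgroup.closure_le]
      rintro _ ⟨x, hx, rfl⟩
      exact nsmul_mem_closure _ hx
    have hMG : M ∣ Nat.card G := ⟨p ^ a, by rw [hG]; ring⟩
    have hWp : p.Coprime (Nat.card W) := by
      have h1 := AddSubgroup.card_dvd_of_le hWM
      rw [card_E_of_dvd hMG] at h1
      exact Nat.Coprime.coprime_dvd_right h1 hM
    have hWcop : ∀ w ∈ W, Cop p w := fun w hw => ⟨M, hM, mem_E.1 (hWM hw)⟩
    by_cases hWbot : W = ⊥
    · -- the `p`-group case
      obtain ⟨j, hj⟩ := hT.base (u := u) (by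
        intro x hx
        have : p ^ s • x ∈ W := AddSubgroup.subset_closure ⟨x, hx, rfl⟩
        rw [hWbot] at this
        exact this)
      refine ⟨j, fun v hv => ⟨1, Nat.coprime_one_right p, ?_⟩⟩
      rw [hj v hv, sub_self, smul_zero]
    obtain ⟨N, hN, hNW⟩ := exists_minBlk hW hWbot
    have hNp : p.Coprime (Nat.card N) :=
      Nat.Coprime.coprime_dvd_right (AddSubgroup.card_dvd_of_le hNW) hWp
    have hNU : N ≤ AddSubgroup.closure X := hNW.trans hWU
    by_cases hα : ∀ x ∈ qm N '' X, Full p (qm N '' X) x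
    swap
    · -- pass to the quotient
      have hlt : Nat.card (AddSubgroup.closure (qm N '' X)) < Nat.card (AddSubgroup.closure X) := by
        have hmap : (AddSubgroup.closure X).map (QuotientAddGroup.mk' N) =
            AddSubgroup.closure (qm N '' X) := AddMonoidHom.map_closure _ _
        rw [← hmap]
        let f : AddSubgroup.closure X → (AddSubgroup.closure X).map (QuotientAddGroup.mk' N) :=
          fun x => ⟨QuotientAddGroup.mk' N x.1, x.1, x.2, rfl⟩
        have hsurj : Function.Surjective f := by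
          rintro ⟨_, x, hx, rfl⟩
          exact ⟨⟨x, hx⟩, rfl⟩
        by_contra hge
        push Not at hge
        have hinj := (hsurj.bijective_of_nat_card_le hge).1
        · exfalso
          obtain ⟨⟨z, hz⟩, hz0⟩ := AddSubgroup.ne_bot_iff_exists_ne_zero.1 hN.ne
          apply hz0
          have h1 : f ⟨z, hNU hz⟩ = f ⟨0, AddSubgroup.zero_mem _⟩ := by
            apply Subtype.ext
            show qm N z = qm N 0
            rw [qm_eq, sub_zero]
            exact hz
          have h2 := congrArg Subtype.val (hinj h1)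
          exact Subtype.ext h2
      have hcardq : Odd (Nat.card (G ⧸ N)) := by
        have h1 := AddSubgroup.card_eq_card_quotient_mul_card_addSubgroup N
        rw [h1] at hcard
        exact Nat.Odd.of_mul_left hcard
      obtain ⟨j, hj⟩ := ih (G ⧸ N) hcardq (qperm hN.blk) (qm N '' X) p hp
        (blk_E_quot hN.blk hNp hE) (hX.image_qm hN.blk) hα
        ⟨_, ⟨x₁, hx₁, rfl⟩, hbx₁.quot hNp⟩ (by omega) (qm N u)
      refine ⟨j, fun v hv => ?_⟩
      apply Cop.of_quot hNp
      have h1 : qm N v ∈ AddSubgroup.closure (qm N '' X) := by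
        have hmap : (AddSubgroup.closure X).map (QuotientAddGroup.mk' N) =
            AddSubgroup.closure (qm N '' X) := AddMonoidHom.map_closure _ _
        rw [← hmap]
        exact ⟨v, hv, rfl⟩
      exact hj _ h1
    -- the periodic case
    have hper : ∀ e, p • e = 0 → ∀ x ∈ X, ∃ x' ∈ X, x' - (x + e) ∈ N := by
      intro e he x hx
      obtain ⟨x', hx', hxe⟩ := hα _ ⟨x, hx, rfl⟩ (qm N e) (by rw [← qm_nsmul, he]; rfl)
      rw [← qm_add, qm_eq] at hxe
      exact ⟨x', hx', hxe⟩
    have hXN : ¬ ∀ x ∈ X, ∀ n ∈ N, x + n ∈ X := by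
      intro hcon
      apply hnf
      intro x hx e he
      obtain ⟨x', hx', hxe⟩ := hper e he x hx
      have h1 : x + e = x' + -(x' - (x + e)) := by abel
      rw [h1]
      exact hcon x' hx' _ (AddSubgroup.neg_mem _ hxe)
    by_cases hq : (Nat.card N).Prime
    swap
    · exfalso
      apply hnf
      intro x hx e he
      exact composite_case hcard hX hN hq hXN (hT.tors_mem he) ⟨p, hNp.symm, he⟩
        (hper e he) x hx
    -- `N = E q`
    obtain ⟨q, hqdef⟩ : ∃ q, q = Nat.card N := ⟨_, rfl⟩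
    rw [← hqdef] at hq hNp
    have hNE : N = E G q := by rw [hqdef]; exact eq_E_card N
    have hqd : q ∣ Nat.card G := by
      rw [hqdef]; exact AddSubgroup.card_addSubgroup_dvd_card N
    have hqodd : Odd q := hcard.of_dvd_nat hqd
    obtain ⟨b, M₂, hM₂', hG₂⟩ := Nat.exists_eq_pow_mul_and_not_dvd (n := Nat.card G)
      Nat.card_pos.ne' q hq.ne_one
    have hM₂ : q.Coprime M₂ := (Nat.Prime.coprime_iff_not_dvd hq).2 hM₂'
    have hEq : Blk ψ (E G q) := by rw [← hNE]; exact hN.blk
    have hnfq : ¬ ∀ x ∈ X, Full q X x := by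
      intro hcon
      apply hXN
      intro x hx n hn
      rw [hNE, mem_E] at hn
      exact hcon x hx n hn
    have hpM₂ : p ∣ M₂ := by
      have h1 := hd
      rw [hG₂] at h1
      exact (Nat.Coprime.dvd_of_dvd_mul_left (Nat.Coprime.pow_right b hNp) h1)
    have hqM : q ∣ M := by
      have h1 := hqd
      rw [hG] at h1
      exact (Nat.Coprime.dvd_of_dvd_mul_left (Nat.Coprime.pow_right a hNp.symm) h1)
    rcases hX.prime_type hq hG₂ hqd hEq hnfq with hI | ⟨r, hr2, hrig, hallq⟩
    · -- type 1 for `q`: use slices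
      set W₂ := AddSubgroup.closure ((fun x => q • x) '' X) with hW₂def
      have hW₂ : Blk ψ W₂ := type1_blk hq hqd hEq hX hnfq
      have hW₂M : W₂ ≤ E G M₂ := by
        apply closure_le_E
        rintro _ ⟨x, hx, rfl⟩
        show M₂ • (q • x) = 0
        rw [← mul_smul, mul_comm]
        exact hI x hx
      have hM₂G : M₂ ∣ Nat.card G := ⟨q ^ b, by rw [hG₂]; ring⟩
      have hW₂q : q.Coprime (Nat.card W₂) := by
        have h1 := AddSubgroup.card_dvd_of_le hW₂M
        rw [card_E_of_dvd hM₂G] at h1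
        exact Nat.Coprime.coprime_dvd_right h1 hM₂
      have hNW₂ : W₂ ⊓ N = ⊥ := by
        rw [inf_eq_bot_iff, ← hqdef]
        exact hW₂q.symm
      obtain ⟨x₀, hx₀⟩ := hX.ne
      have hx₀s : x₀ ∈ N ⊔ W₂ := by
        have hqx₀ : q • x₀ ∈ W₂ := AddSubgroup.subset_closure ⟨x₀, hx₀, rfl⟩
        apply mem_sup_of_nsmul hqx₀ hW₂q
        intro e he
        rw [hNE, mem_E]; exact he
      obtain ⟨f₀, hf₀, w₀, hw₀, hfw⟩ := AddSubgroup.mem_sup.1 hx₀s
      have hgS : Good ψ {w | w ∈ W₂ ∧ w + f₀ ∈ X} := hX.good.fib hW₂ hN.blk hNW₂ hf₀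
      obtain ⟨Y, hY, hw₀Y⟩ := exists_minGood ψ w₀
      have hw₀S : w₀ ∈ {w | w ∈ W₂ ∧ w + f₀ ∈ X} := ⟨hw₀, by rw [add_comm, hfw]; exact hx₀⟩
      have hYS : Y ⊆ {w | w ∈ W₂ ∧ w + f₀ ∈ X} := hY.min _ hgS ⟨w₀, hw₀Y, hw₀S⟩
      have hYW₂ : AddSubgroup.closure Y ≤ W₂ := by
        rw [AddSubgroup.closure_le]
        exact fun y hy => (hYS hy).1
      have hW₂U : W₂ ≤ AddSubgroup.closure X := by
        rw [hW₂def, AddSubgroup.closure_le]
        rintro _ ⟨x, hx, rfl⟩
        exact nsmul_mem_closure _ hx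
      have hlt : Nat.card (AddSubgroup.closure Y) < Nat.card (AddSubgroup.closure X) := by
        have h1 : AddSubgroup.closure Y < AddSubgroup.closure X := by
          refine lt_of_le_of_ne (hYW₂.trans hW₂U) ?_
          intro h
          apply hN.ne
          rw [eq_bot_iff, ← hNW₂]
          exact le_inf ((hNU.trans (by rw [← h])).trans hYW₂) le_rfl
        by_contra hge
        push Not at hge
        exact h1.ne (AddSubgroup.eq_of_le_of_card_ge h1.le hge)
      have hYnf : ¬ ∀ x ∈ Y, Full p Y x := by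
        intro hcon
        apply hX.all_nonfull hp hd hE hnf x₀ hx₀
        intro e he
        have h1 := (hYS (hcon w₀ hw₀Y e he)).2
        have h2 : w₀ + e + f₀ = x₀ + e := by rw [← hfw]; abel
        rwa [h2] at h1
      have hqf₀ : q • f₀ = 0 := by
        rw [hNE, mem_E] at hf₀; exact hf₀
      have hYbig : Big p w₀ := by
        intro m hm h0
        apply hT.big hx₀ (m * q) (Nat.Coprime.mul_right hm hNp)
        rw [← hfw, smul_add]
        have e1 : (p * (m * q)) • f₀ = 0 := by
          rw [← mul_assoc, mul_smul, hqf₀, smul_zero]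
        have e2 : (p * (m * q)) • w₀ = 0 := by
          rw [← mul_assoc, mul_comm, mul_smul, h0, smul_zero]
        rw [e1, e2, add_zero]
      obtain ⟨j, hj⟩ := ih G hcard ψ Y p hp hE hY hYnf ⟨w₀, hw₀Y, hYbig⟩ (by omega) u
      refine ⟨j, fun v hv => ?_⟩
      -- decompose `v`
      have hvs : v ∈ AddSubgroup.closure Y ⊔ W := by
        apply mem_sup_of_nsmul (q := p ^ s)
        · have h1 : AddSubgroup.closure X ≤ W.comap (nsmulAddMonoidHom (p ^ s)) := by
            rw [AddSubgroup.closure_le]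
            intro x hx
            exact AddSubgroup.subset_closure ⟨x, hx, rfl⟩
          exact h1 hv
        · exact Nat.Coprime.pow_left s hWp
        · intro e he
          have hw₀U : w₀ ∈ AddSubgroup.closure X := hW₂U hw₀
          have hord : addOrderOf (M • w₀) = p ^ (s - 1 + 1) := by
            have : Fact p.Prime := ⟨hp⟩
            apply addOrderOf_eq_prime_pow
            · intro h0
              have h1 : p ^ (s - 1) = p ^ (s - 2) * p := by
                rw [← pow_succ]; congr 1; omega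
              apply hYbig (p ^ (s - 2) * M * 1) ?_
              · rw [mul_one, ← mul_assoc, mul_comm p, ← h1, mul_smul]; exact h0
              · rcases Nat.lt_or_ge 2 s with h2 | h2
                · exfalso
                  -- use `hh` instead
                  have h3 : hh p M s x₀ = hh p M s f₀ := by
                    rw [← hfw, hh_add]
                    have : hh p M s w₀ = 0 := by
                      unfold hh; rw [mul_smul]; exact h0
                    rw [this, add_zero]
                  apply hT.hh_ne (Or.inl rfl) hx₀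
                  apply smul_eq_zero_of_coprime hNp (hT.p_hh_im (Or.inl rfl) hx₀)
                  rw [h3, ← hh_nsmul, hqf₀]
                  exact smul_zero _
                · have h3 : s = 2 := by omega
                  rw [h3, mul_one]; simpa using hM
            · rw [Nat.sub_add_cancel (by omega), ← mul_smul]
              exact hT.tors hw₀U
          rw [Nat.sub_add_cancel (by omega)] at hord
          obtain ⟨c, rfl⟩ := gen_of_order hord he
          exact AddSubgroup.nsmul_mem _ (nsmul_mem_closure _ hw₀Y) _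
      obtain ⟨y, hy, w, hw, rfl⟩ := AddSubgroup.mem_sup.1 hvs
      have h1 : loc ψ u (y + w) - j • (y + w) =
          (loc ψ u y - j • y) + (loc ψ (u + y) w + -(j • w)) := by
        rw [loc_add, smul_add]; abel
      rw [h1]
      exact (hj y hy).add ((hWcop _ (hW.loc_mem.2 hw)).add ((hWcop w hw).nsmul j).neg)
    · -- type 2 for `q`: contradiction
      exfalso
      have hT₂ : T2 ψ q b M₂ r X := ⟨hq, hqodd, hG₂, hM₂, hqd, hr2, hX, hEq, hrig, hallq⟩
      obtain ⟨x, hx⟩ := hX.ne
      obtain ⟨e, he0, he⟩ := E_ne_bot hp hd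
      obtain ⟨x', hx', hxe⟩ := hper e he x hx
      set f := x' - (x + e) with hf
      rw [hNE, mem_E] at hxe
      have hx'2 : x' = x + (e + f) := by rw [hf]; abel
      obtain ⟨t, ht⟩ := hT.gen hx he
      obtain ⟨t', ht'⟩ := hT₂.gen hx hxe
      have hpf : hh p M s f = 0 := by
        unfold hh
        obtain ⟨c, hc⟩ := hqM
        rw [hc, ← mul_assoc, mul_comm, mul_comm _ q, mul_comm q, mul_smul, smul_comm] 
        rw [← mul_smul, mul_comm, mul_smul, mul_smul, hxe]
        simp
      have hqe : hh q M₂ r e = 0 := by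
        unfold hh
        obtain ⟨c, hc⟩ := hpM₂
        have : q ^ (r - 1) * M₂ = (q ^ (r - 1) * c) * p := by rw [hc]; ring
        rw [this, mul_smul, he, smul_zero]
      set k := th p M s t * th q M₂ r t' with hk
      have hkc : k.Coprime (Nat.card G) :=
        Nat.Coprime.mul_left (th_coprime hp hG hs t) (th_coprime hq hG₂ hr2 t')
      have hke : k • e = e := by
        rw [hk, mul_smul, th_smul (p := q), hqe, smul_zero, add_zero, th_smul, hh_tors hs he,
          smul_zero, add_zero]
      have hkf : k • f = f := by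
        rw [hk, mul_smul, th_smul (p := q), hh_tors hr2 hxe, smul_zero, add_zero, th_smul, hpf,
          smul_zero, add_zero]
      have hkx : k • x = x + (e + f) := by
        rw [hk, mul_smul, th_smul (p := q), ← ht', th_smul, hh_add, hpf, add_zero, ← ht]
        abel
      have hkX := hX.mult_eq_im hkc (Or.inl rfl) hx (by rw [hkx, ← hx'2]; exact hx')
      have hpow : ∀ i : ℕ, x + i • (e + f) ∈ X := by
        intro i
        induction i with
        | zero => simpa using hx
        | succ i ih2 =>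
          have h1 := hX.mult_mem_im hkc (Or.inl rfl) hkX ih2
          rw [smul_add, hkx, smul_comm, smul_add k e f, hke, hkf, add_assoc, ← succ_nsmul'] at h1
          exact h1
      have h1 := hpow q
      rw [smul_add, hxe, add_zero] at h1
      have h2 := hT.sep (Or.inl rfl) hx (e := q • e) (by rw [smul_comm, he, smul_zero]) h1
      exact he0 (smul_eq_zero_of_coprime hNp he h2)

end Pool.Agent.Helper40.GS
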