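import Mathlib

set_option autoImplicit false
set_option linter.unusedSectionVars false
set_option linter.style.haveILetI false
set_option linter.deprecated false

namespace Pool.Agent.Helper40.GS

variable {G : Type*} [AddCommGroup G]

/-- the local map of `ψ` at `u` -/
def loc (ψ : Equiv.Perm G) (u : G) : Equiv.Perm G where
  toFun x := ψ (u + x) - ψ u
  invFun y := ψ.symm (ψ u + y) - u
  left_inv x := by simp
  right_inv y := by simp

theorem loc_apply (ψ : Equiv.Perm G) (u x : G) : loc ψ u x = ψ (u + x) - ψ u := rfl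

@[simp] theorem loc_zero (ψ : Equiv.Perm G) (u : G) : loc ψ u 0 = 0 := by simp [loc_apply]

theorem loc_add (ψ : Equiv.Perm G) (u x y : G) :
    loc ψ u (x + y) = loc ψ u x + loc ψ (u + x) y := by
  simp only [loc_apply, ← add_assoc]; abel

theorem loc_neg (ψ : Equiv.Perm G) (u x : G) : loc ψ u (-x) = - loc ψ (u - x) x := by
  simp [loc_apply, sub_eq_add_neg]

theorem loc_loc (ψ : Equiv.Perm G) (u v : G) : loc (loc ψ u) v = loc ψ (u + v) := by
  ext x; simp [loc_apply, add_assoc]

theorem loc_eq_zero {ψ : Equiv.Perm G} {u x : G} : loc ψ u x = 0 ↔ x = 0 := by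
  rw [← (loc ψ u).injective.eq_iff (a := x) (b := 0), loc_zero]

/-- `X` has the same local images along `U` -/
def InvOn (ψ : Equiv.Perm G) (U X : Set G) : Prop :=
  ∀ u, ∀ x ∈ U, loc ψ (u + x) '' X = loc ψ u '' X

/-- good sets -/
def Good (ψ : Equiv.Perm G) (X : Set G) : Prop := InvOn ψ X X

/-- blocks -/
def Blk (ψ : Equiv.Perm G) (U : AddSubgroup G) : Prop := ∀ u, loc ψ u '' (U : Set G) = U

section

variable {ψ : Equiv.Perm G} {U V X Y : Set G}

theorem InvOn.mono (h : InvOn ψ U X) (hV : V ⊆ U) : InvOn ψ V X := fun u x hx => h u x (hV hx)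

theorem InvOn.closure (h : InvOn ψ U X) : InvOn ψ (AddSubgroup.closure U) X := by
  intro u x hx
  have hx' : x ∈ AddSubgroup.closure U := hx
  clear hx
  induction hx' using AddSubgroup.closure_induction generalizing u with
  | mem x hx => exact h u x hx
  | zero => rw [add_zero]
  | add x y _ _ hx hy => rw [← add_assoc, hy, hx]
  | neg x _ hx =>
    have := hx (u + -x)
    rw [neg_add_cancel_right] at this
    exact this.symm

theorem Good.closure (h : Good ψ X) : InvOn ψ (AddSubgroup.closure X) X := InvOn.closure h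

theorem InvOn.good (h : InvOn ψ U X) (hX : X ⊆ U) : Good ψ X := h.mono hX

theorem InvOn.inter (hX : InvOn ψ U X) (hY : InvOn ψ U Y) : InvOn ψ U (X ∩ Y) := by
  intro u x hx
  rw [Set.image_inter (loc ψ _).injective, Set.image_inter (loc ψ _).injective, hX u x hx,
    hY u x hx]

theorem InvOn.union (hX : InvOn ψ U X) (hY : InvOn ψ U Y) : InvOn ψ U (X ∪ Y) := by
  intro u x hx
  rw [Set.image_union, Set.image_union, hX u x hx, hY u x hx]

theorem InvOn.diff (hX : InvOn ψ U X) (hY : InvOn ψ U Y) : InvOn ψ U (X \ Y) := by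
  intro u x hx
  rw [Set.image_sdiff (loc ψ _).injective, Set.image_sdiff (loc ψ _).injective, hX u x hx,
    hY u x hx]

theorem InvOn.zero : InvOn ψ U {0} := by
  intro u x _
  simp

theorem Blk.invOn {K : AddSubgroup G} (h : Blk ψ K) (U : Set G) : InvOn ψ U K := by
  intro u x _
  rw [h, h]

theorem Blk.good {K : AddSubgroup G} (h : Blk ψ K) : Good ψ (K : Set G) := h.invOn _

theorem Blk.loc_mem {K : AddSubgroup G} (h : Blk ψ K) {u x : G} : loc ψ u x ∈ K ↔ x ∈ K := by
  constructor
  · intro hx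
    have h1 : loc ψ u x ∈ (K : Set G) := hx
    rw [← h u, (loc ψ u).injective.mem_set_image] at h1
    exact h1
  · intro hx
    have h1 : loc ψ u x ∈ loc ψ u '' (K : Set G) := ⟨x, hx, rfl⟩
    rw [h u] at h1
    exact h1

theorem blk_of_loc_mem {K : AddSubgroup G} (h : ∀ u x, loc ψ u x ∈ K ↔ x ∈ K) : Blk ψ K := by
  intro u
  ext y
  constructor
  · rintro ⟨x, hx, rfl⟩
    exact (h u x).2 hx
  · intro hy
    refine ⟨(loc ψ u).symm y, ?_, Equiv.apply_symm_apply _ _⟩
    have := (h u ((loc ψ u).symm y)).1 (by rw [Equiv.apply_symm_apply]; exact hy)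
    exact this

theorem eq_of_subset_ncard [Finite G] {A B : Set G} (h : A ⊆ B) (hc : B.ncard ≤ A.ncard) :
    A = B := Set.eq_of_subset_of_ncard_le h hc (Set.toFinite _)

theorem blk_of_loc_mem' [Finite G] {K : AddSubgroup G} (h : ∀ u, ∀ x ∈ K, loc ψ u x ∈ K) :
    Blk ψ K := by
  intro u
  apply eq_of_subset_ncard
  · rintro _ ⟨x, hx, rfl⟩
    exact h u x hx
  · rw [Set.ncard_image_of_injective _ (loc ψ u).injective]

theorem Blk.inf {K L : AddSubgroup G} (hK : Blk ψ K) (hL : Blk ψ L) : Blk ψ (K ⊓ L) := by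
  apply blk_of_loc_mem
  intro u x
  simp only [AddSubgroup.mem_inf, hK.loc_mem, hL.loc_mem]

theorem Blk.sup [Finite G] {K L : AddSubgroup G} (hK : Blk ψ K) (hL : Blk ψ L) :
    Blk ψ (K ⊔ L) := by
  apply blk_of_loc_mem'
  intro u x hx
  obtain ⟨y, hy, z, hz, rfl⟩ := AddSubgroup.mem_sup.1 hx
  rw [loc_add]
  exact AddSubgroup.add_mem_sup (hK.loc_mem.2 hy) (hL.loc_mem.2 hz)

theorem Blk.bot : Blk ψ ⊥ := by
  apply blk_of_loc_mem
  intro u x
  rw [AddSubgroup.mem_bot, AddSubgroup.mem_bot, loc_eq_zero]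

theorem Blk.top : Blk ψ ⊤ := by
  apply blk_of_loc_mem
  intro u x
  simp

/-- the twisted bijection -/
theorem Good.image_sub (h : Good ψ X) [Finite G] (u : G) :
    (fun x => loc ψ (u - x) x) '' X = loc ψ u '' X := by
  apply eq_of_subset_ncard
  · rintro _ ⟨x, hx, rfl⟩
    have h1 := h (u - x) x hx
    rw [sub_add_cancel] at h1
    rw [h1]
    exact ⟨x, hx, rfl⟩
  · rw [Set.ncard_image_of_injective _ (loc ψ u).injective, Set.ncard_image_of_injective]
    intro x y hxy
    simp only [loc_apply, sub_add_cancel] at hxy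
    have : ψ (u - x) = ψ (u - y) := by
      have h3 := sub_right_injective hxy
      exact h3
    have h4 := ψ.injective this
    simpa using h4

theorem Good.mem_sub (h : Good ψ X) {u x y : G} (hx : x ∈ AddSubgroup.closure X) :
    loc ψ (u - x) y ∈ loc ψ u '' X ↔ y ∈ X := by
  have h1 := h.closure (u - x) x hx
  rw [sub_add_cancel] at h1
  rw [h1, (loc ψ _).injective.mem_set_image]

end

end Pool.Agent.Helper40.GS
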