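import Pool.Agent.Helper40.GS.Schur

set_option autoImplicit false
set_option linter.unusedSectionVars false
set_option linter.style.haveILetI false
set_option linter.deprecated false
set_option linter.unusedVariables false

namespace Pool.Agent.Helper40.GS

variable {G : Type*} [AddCommGroup G] {ψ : Equiv.Perm G} {X Y A Z : Set G} {N : AddSubgroup G}

theorem smul_eq_zero_of_coprime {a b : ℕ} (h : a.Coprime b) {x : G} (ha : a • x = 0)
    (hb : b • x = 0) : x = 0 := by
  have h1 := addOrderOf_dvd_of_nsmul_eq_zero ha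
  have h2 := addOrderOf_dvd_of_nsmul_eq_zero hb
  exact AddMonoid.addOrderOf_eq_one_iff.1 (Nat.eq_one_of_dvd_coprimes h h1 h2)

theorem exists_mul_modEq {p t : ℕ} (hp : p.Prime) (ht : ¬ p ∣ t) (j : ℕ) :
    ∃ i, i * t ≡ j [MOD p] := by
  have hc : t.Coprime p := ((Nat.Prime.coprime_iff_not_dvd hp).2 ht).symm
  obtain ⟨k, hk1, hk2⟩ := Nat.chineseRemainder hc 0 j
  rw [Nat.modEq_zero_iff_dvd] at hk1
  obtain ⟨i, rfl⟩ := hk1
  exact ⟨i, by rw [mul_comm]; exact hk2⟩

theorem nsmul_congr {p : ℕ} {a b : ℕ} (h : a ≡ b [MOD p]) {e : G} (he : p • e = 0) :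
    a • e = b • e :=
  nsmul_eq_nsmul_iff_modEq.2 (h.of_dvd (addOrderOf_dvd_of_nsmul_eq_zero he))

/-- images of `X`: either `X` itself or a local image -/
def Im (ψ : Equiv.Perm G) (X Z : Set G) : Prop := Z = X ∨ ∃ u, Z = loc ψ u '' X

theorem MinGood.mult_eq_im [Finite G] (h : MinGood ψ X) {k : ℕ} (hk : k.Coprime (Nat.card G))
    (hZ : Im ψ X Z) {z : G} (hz : z ∈ Z) (hkz : k • z ∈ Z) : (fun x => k • x) '' X = X := by
  rcases hZ with rfl | ⟨u, rfl⟩
  · exact h.eq_of_ncard (mult_good hk h.good) ⟨_, hkz, z, hz, rfl⟩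
      (Set.ncard_image_le (Set.toFinite _))
  · exact h.mult_eq hk hz hkz

theorem MinGood.mult_mem_im [Finite G] (h : MinGood ψ X) {k : ℕ} (hk : k.Coprime (Nat.card G))
    (hZ : Im ψ X Z) (hkX : (fun x => k • x) '' X = X) {z : G} (hz : z ∈ Z) : k • z ∈ Z := by
  rcases hZ with rfl | ⟨u, rfl⟩
  · rw [← hkX]; exact ⟨z, hz, rfl⟩
  · exact h.mult_loc hk hkX u hz

variable {p a M s : ℕ}

/-- the multiplier `θ` -/
def th (p M s t : ℕ) : ℕ := 1 + t * (p ^ (s - 1) * M)

/-- `h` -/
def hh (p M s : ℕ) (x : G) : G := (p ^ (s - 1) * M) • x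

theorem th_smul (t : ℕ) (x : G) : th p M s t • x = x + t • hh p M s x := by
  unfold th hh
  rw [add_smul, one_smul, mul_smul]

theorem th_coprime (hp : p.Prime) (hG : Nat.card G = p ^ a * M) (hs : 2 ≤ s)
    (t : ℕ) : (th p M s t).Coprime (Nat.card G) := by
  rw [hG]
  unfold th
  apply Nat.Coprime.mul_right
  · apply Nat.Coprime.pow_right
    have h1 : t * (p ^ (s - 1) * M) = p * (t * (p ^ (s - 2) * M)) := by
      have : s - 1 = (s - 2) + 1 := by omega
      rw [this, pow_succ]; ring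
    rw [h1]
    simp
  · have h1 : t * (p ^ (s - 1) * M) = M * (t * p ^ (s - 1)) := by ring
    rw [h1]
    simp

theorem hh_add (x y : G) : hh p M s (x + y) = hh p M s x + hh p M s y := smul_add _ _ _
theorem hh_sub (x y : G) : hh p M s (x - y) = hh p M s x - hh p M s y := smul_sub _ _ _
theorem hh_nsmul (k : ℕ) (x : G) : hh p M s (k • x) = k • hh p M s x := by
  unfold hh; rw [smul_comm]

theorem hh_tors (hs : 2 ≤ s) {e : G} (he : p • e = 0) : hh p M s e = 0 := by
  unfold hh
  have : p ^ (s - 1) * M = (p ^ (s - 2) * M) * p := by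
    have : s - 1 = (s - 2) + 1 := by omega
    rw [this, pow_succ]; ring
  rw [this, mul_smul, he, smul_zero]

theorem p_hh (hs : 1 ≤ s) (x : G) : p • hh p M s x = (p ^ s * M) • x := by
  unfold hh
  rw [← mul_smul, ← mul_assoc, ← pow_succ', Nat.sub_add_cancel hs]

/-- the rigidity property -/
def Rig (p M s : ℕ) (X : Set G) : Prop := ∀ t, ¬ p ∣ t → (fun x => th p M s t • x) '' X ≠ X

theorem full_of_th (hp : p.Prime) (hs : 2 ≤ s) [Finite G] [IsAddCyclic G] {y : G} (hy : y ∈ X)
    (hy1 : p • hh p M s y = 0) (hy2 : hh p M s y ≠ 0) {t : ℕ} (ht : ¬ p ∣ t)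
    (hX : (fun x => th p M s t • x) '' X = X) : Full p X y := by
  have h1 : ∀ i : ℕ, y + (i * t) • hh p M s y ∈ X := by
    intro i
    induction i with
    | zero => simpa using hy
    | succ i ih =>
      have h2 : th p M s t • (y + (i * t) • hh p M s y) ∈ X := by
        rw [← hX]
        exact ⟨_, ih, rfl⟩
      rw [th_smul, hh_add, hh_nsmul, hh_tors hs hy1, smul_zero, add_zero, add_assoc,
        ← add_smul] at h2
      have : (i + 1) * t = i * t + t := by ring
      rw [this]; exact h2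
  intro e he
  obtain ⟨j, rfl⟩ := gen_E hp hy2 hy1 he
  obtain ⟨i, hi⟩ := exists_mul_modEq hp ht j
  rw [← nsmul_congr hi hy1]
  exact h1 i

theorem Rig.not_mem [Finite G] (hp : p.Prime) (hG : Nat.card G = p ^ a * M) (hs : 2 ≤ s)
    (hX : MinGood ψ X) (hr : Rig p M s X) (hZ : Im ψ X Z) {z : G} (hz : z ∈ Z) {t : ℕ}
    (ht : ¬ p ∣ t) : z + t • hh p M s z ∉ Z := by
  intro h
  rw [← th_smul] at h
  exact hr t ht (hX.mult_eq_im (th_coprime hp hG hs t) hZ hz h)

theorem Rig.hh_ne [Finite G] (hp : p.Prime) (hG : Nat.card G = p ^ a * M) (hs : 2 ≤ s)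
    (hX : MinGood ψ X) (hr : Rig p M s X) (hZ : Im ψ X Z) {z : G} (hz : z ∈ Z) :
    hh p M s z ≠ 0 := by
  intro h
  apply hr.not_mem hp hG hs hX hZ hz (t := 1) (by
    rw [Nat.dvd_one]; exact hp.one_lt.ne')
  rw [h, smul_zero, add_zero]
  exact hz

theorem Rig.sep [Finite G] [IsAddCyclic G] (hp : p.Prime) (hG : Nat.card G = p ^ a * M)
    (hs : 2 ≤ s) (hX : MinGood ψ X) (hr : Rig p M s X) (hZ : Im ψ X Z) {z : G} (hz : z ∈ Z)
    (hz1 : p • hh p M s z = 0) {e : G} (he : p • e = 0) (hze : z + e ∈ Z) : e = 0 := by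
  obtain ⟨t, rfl⟩ := gen_E hp (hr.hh_ne hp hG hs hX hZ hz) hz1 he
  by_cases ht : p ∣ t
  · obtain ⟨c, rfl⟩ := ht
    rw [mul_comm, mul_smul, hz1, smul_zero]
  · exact absurd hze (hr.not_mem hp hG hs hX hZ hz ht)

theorem gen_of_order [Finite G] [IsAddCyclic G] {n : ℕ} {g d : G} (hg : addOrderOf g = n)
    (hd : n • d = 0) : ∃ c : ℕ, d = c • g := by
  have h2 : d ∈ AddSubgroup.zmultiples g := by
    rw [mem_iff, Nat.card_zmultiples, hg]
    exact hd
  rw [← mem_multiples_iff_mem_zmultiples] at h2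
  obtain ⟨t, ht⟩ := h2
  exact ⟨t, ht.symm⟩

/-- injectivity -/
theorem Rig.inj [Finite G] [IsAddCyclic G] (hp : p.Prime) (hodd : Odd p)
    (hG : Nat.card G = p ^ a * M) (hs : 2 ≤ s) (hX : MinGood ψ X) (hr : Rig p M s X)
    (hZ : Im ψ X Z) {x₁ x₂ : G} (h1 : x₁ ∈ Z) (h2 : x₂ ∈ Z) (h3 : p • hh p M s x₁ = 0)
    (h4 : p ^ (s - 1) • (x₂ - x₁) = 0) : x₂ = x₁ := by
  have hne := hr.hh_ne hp hG hs hX hZ h1
  have main : ∀ i : ℕ, i ≤ s - 1 → ∀ x₂ ∈ Z, p ^ i • (x₂ - x₁) = 0 → x₂ = x₁ := by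
    intro i
    induction i with
    | zero =>
      intro _ x₂ _ h
      rw [pow_zero, one_smul] at h
      exact sub_eq_zero.1 h
    | succ i ih =>
      intro hi x₂ h2 hd
      set d := x₂ - x₁ with hdef
      have hx2 : x₂ = x₁ + d := by rw [hdef]; abel
      -- find the multiplier
      have hord : addOrderOf (p • (M • x₁)) = p ^ (s - 2 + 1) := by
        have : Fact p.Prime := ⟨hp⟩
        apply addOrderOf_eq_prime_pow
        · intro h
          apply hne
          unfold hh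
          rw [← mul_smul, ← mul_smul] at h
          have : p ^ (s - 1) * M = p ^ (s - 2) * p * M := by
            have : s - 1 = (s - 2) + 1 := by omega
            rw [this, pow_succ]
          rw [this]
          exact h
        · rw [p_hh (by omega)] at h3
          rw [← mul_smul, ← mul_smul]
          have : p ^ (s - 2 + 1) * p * M = p ^ s * M := by
            rw [← pow_succ]; congr 2; omega
          rw [this]; exact h3
      have hd' : p ^ (s - 2 + 1) • d = 0 := by
        have : s - 2 + 1 = (s - 2 + 1 - (i + 1)) + (i + 1) := by omega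
        rw [this, pow_add, mul_smul, hd, smul_zero]
      obtain ⟨c, hc⟩ := gen_of_order hord hd'
      set k : ℕ := 1 + p * (c * M) with hk
      have hkx : k • x₁ = x₂ := by
        rw [hx2, hc, hk, add_smul, one_smul]
        congr 1
        rw [← mul_smul, ← mul_smul]
        congr 1; ring
      have hkc : k.Coprime (Nat.card G) := by
        rw [hG]
        apply Nat.Coprime.mul_right
        · apply Nat.Coprime.pow_right
          rw [hk]; simp
        · have : k = 1 + M * (p * c) := by rw [hk]; ring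
          rw [this]; simp
      have hkX := hX.mult_eq_im hkc hZ h1 (by rw [hkx]; exact h2)
      have hpow : ∀ j : ℕ, k ^ j • x₁ ∈ Z := by
        intro j
        induction j with
        | zero => rw [pow_zero, one_smul]; exact h1
        | succ j ihj =>
          rw [pow_succ', mul_smul]
          exact hX.mult_mem_im hkc hZ hkX ihj
      -- the geometric sum
      have hgeo : ∃ l : ℤ, ∀ w : G, (k ^ p) • x₁ - x₁ = ((p : ℤ) + (p : ℤ) ^ 2 * l) • d := by
        obtain ⟨l, hl⟩ := odd_sq_dvd_geom_sum₂_sub (R := ℤ) (a := 1) (b := (c * M : ℕ)) hodd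
        refine ⟨l, fun _ => ?_⟩
        have e1 : ((p : ℤ) + (p : ℤ) ^ 2 * l) = ∑ i ∈ Finset.range p, (k : ℤ) ^ i := by
          rw [← hl]
          simp only [one_pow, mul_one, hk]
          push_cast
          ring
        have e2 : (k ^ p) • x₁ - x₁ = ((k : ℤ) ^ p - 1) • x₁ := by
          rw [sub_smul, one_smul]
          congr 1
          rw [← natCast_zsmul]
          push_cast
          rfl
        have e3 : d = ((k : ℤ) - 1) • x₁ := by
          rw [sub_smul, one_smul, natCast_zsmul, hkx]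
        rw [e1, e2, e3, ← mul_smul, geom_sum_mul]
      obtain ⟨l, hl⟩ := hgeo
      have hl := hl 0
      have hx3 : k ^ p • x₁ = x₁ := by
        apply ih (by omega) _ (hpow p)
        rw [hl]
        have e1 : p ^ i • ((p : ℤ) + (p : ℤ) ^ 2 * l) • d =
            (1 + (p : ℤ) * l) • (p ^ (i + 1) • d) := by
          rw [← natCast_zsmul, ← natCast_zsmul, ← mul_smul, ← mul_smul]
          congr 1
          push_cast
          ring
        rw [e1, hd, smul_zero]
      have hSd : (1 + (p : ℤ) * l) • (p • d) = 0 := by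
        rw [hx3, sub_self] at hl
        rw [← natCast_zsmul, ← mul_smul]
        have : (1 + (p : ℤ) * l) * (p : ℤ) = (p : ℤ) + (p : ℤ) ^ 2 * l := by ring
        rw [this]; exact hl.symm
      have hpd : p • d = 0 := by
        have hcop : IsCoprime (1 + (p : ℤ) * l) ((p : ℤ) ^ i) := by
          apply IsCoprime.pow_right
          exact ⟨1, -l, by ring⟩
        obtain ⟨u, v, huv⟩ := hcop
        have e1 : ((p : ℤ) ^ i) • (p • d) = 0 := by
          rw [← natCast_zsmul, ← mul_smul, ← pow_succ]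
          have := hd
          rw [← natCast_zsmul] at this
          push_cast at this
          exact this
        calc p • d = (1 : ℤ) • (p • d) := (one_smul _ _).symm
          _ = (u * (1 + (p : ℤ) * l) + v * (p : ℤ) ^ i) • (p • d) := by rw [huv]
          _ = 0 := by rw [add_smul, mul_smul, mul_smul, hSd, e1, smul_zero, smul_zero, add_zero]
      have h5 := hr.sep hp hG hs hX hZ h1 h3 hpd (by rw [← hx2]; exact h2)
      rw [hx2, h5, add_zero]
  exact main (s - 1) le_rfl x₂ h2 h4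

/-- first time that the `p`-part dies -/
theorem exists_level [Finite G] (hp : p.Prime) (hG : Nat.card G = p ^ a * M) {y : G}
    (hy : (p * M) • y ≠ 0) : ∃ s, 2 ≤ s ∧ (p ^ s * M) • y = 0 ∧ (p ^ (s - 1) * M) • y ≠ 0 := by
  classical
  have hex : ∃ s, (p ^ s * M) • y = 0 := ⟨a, by rw [← hG]; exact card_nsmul_eq_zero'⟩
  refine ⟨Nat.find hex, ?_, Nat.find_spec hex, ?_⟩
  · by_contra hlt
    push Not at hlt
    have h1 := Nat.find_spec hex
    apply hy
    have h2 : Nat.find hex = 0 ∨ Nat.find hex = 1 := by omega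
    rcases h2 with h2 | h2
    · rw [h2, pow_zero, one_mul] at h1
      rw [mul_smul, h1, smul_zero]
    · rwa [h2, pow_one] at h1
  · intro h
    have h0 : Nat.find hex ≠ 0 := by
      intro h0
      have h1 := Nat.find_spec hex
      rw [h0, pow_zero, one_mul] at h1
      apply hy
      rw [mul_smul, h1, smul_zero]
    have := Nat.find_min' hex h
    omega

theorem rig_of_nonfull [Finite G] [IsAddCyclic G] (hp : p.Prime) (hG : Nat.card G = p ^ a * M)
    (hX : MinGood ψ X) (hs : 2 ≤ s) {y : G} (hy : y ∈ X) (hnf : ¬ Full p X y)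
    (h1 : (p ^ s * M) • y = 0) (h2 : (p ^ (s - 1) * M) • y ≠ 0) : Rig p M s X := by
  intro t ht hX'
  apply hnf
  exact full_of_th hp hs hy (by rw [p_hh (by omega)]; exact h1) h2 ht hX'

/-- the dichotomy -/
theorem MinGood.dich [Finite G] [IsAddCyclic G] (hp : p.Prime) (hG : Nat.card G = p ^ a * M)
    (hX : MinGood ψ X) : (∀ y ∈ X, ¬ Full p X y → (p * M) • y = 0) ∨
      ∃ s, 2 ≤ s ∧ Rig p M s X ∧ (∀ z ∈ X, (p ^ s * M) • z ≠ 0 → Full p X z) ∧
        ∃ y ∈ X, (p ^ s * M) • y = 0 := by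
  by_cases h : ∀ y ∈ X, ¬ Full p X y → (p * M) • y = 0
  · exact Or.inl h
  right
  push Not at h
  obtain ⟨y, hy, hnf, hne⟩ := h
  obtain ⟨s, hs, h1, h2⟩ := exists_level hp hG hne
  have hr := rig_of_nonfull hp hG hX hs hy hnf h1 h2
  refine ⟨s, hs, hr, ?_, y, hy, h1⟩
  intro z hz hz1
  by_contra hnfz
  have hz2 : (p * M) • z ≠ 0 := by
    intro h3
    apply hz1
    have : p ^ s * M = p ^ (s - 1) * (p * M) := by
      have : s = (s - 1) + 1 := by omega
      conv_lhs => rw [this, pow_succ]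
      ring
    rw [this, mul_smul, h3, smul_zero]
  obtain ⟨s', hs', h1', h2'⟩ := exists_level hp hG hz2
  have hr' := rig_of_nonfull hp hG hX hs' hz hnfz h1' h2'
  have h3 := hr'.hh_ne hp hG hs' hX (Or.inl rfl) hy
  have hss : s < s' := by
    by_contra hle
    push Not at hle
    apply hz1
    have : p ^ s * M = p ^ (s - s') * (p ^ s' * M) := by
      rw [← mul_assoc, ← pow_add, Nat.sub_add_cancel hle]
    rw [this, mul_smul, h1', smul_zero]
  apply h3
  unfold hh
  have : p ^ (s' - 1) * M = p ^ (s' - 1 - s) * (p ^ s * M) := by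
    rw [← mul_assoc, ← pow_add]
    congr 2; omega
  rw [this, mul_smul, h1, smul_zero]

theorem Rig.nonfull [Finite G] [IsAddCyclic G] (hp : p.Prime) (hG : Nat.card G = p ^ a * M)
    (hd : p ∣ Nat.card G) (hs : 2 ≤ s) (hX : MinGood ψ X) (hr : Rig p M s X) {z : G}
    (hz : z ∈ X) (hz1 : (p ^ s * M) • z = 0) : ¬ Full p X z := by
  intro hf
  obtain ⟨e, he0, he⟩ := E_ne_bot hp hd
  exact he0 (hr.sep hp hG hs hX (Or.inl rfl) hz (by rw [p_hh (by omega)]; exact hz1) he
    (hf e he))

/-- computation of `PP p s X` in the rigid case -/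
theorem Rig.PP_eq [Finite G] [IsAddCyclic G] (hp : p.Prime) (hodd : Odd p)
    (hG : Nat.card G = p ^ a * M) (hM : p.Coprime M) (hd : p ∣ Nat.card G) (hs : 2 ≤ s)
    (hX : MinGood ψ X) (hr : Rig p M s X) (hfull : ∀ z ∈ X, (p ^ s * M) • z ≠ 0 → Full p X z) :
    PP p s X = (fun x => p ^ s • x) '' {x | x ∈ X ∧ (p ^ s * M) • x = 0} := by
  apply Set.Subset.antisymm
  · intro g hg
    obtain ⟨x, hx, rfl⟩ := PP_subset p s hg
    refine ⟨x, ⟨hx, ?_⟩, rfl⟩
    by_contra hne
    apply hg
    apply dvd_ncard_of_periodic hd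
    rintro z ⟨hz1, hz2⟩ e he
    have h1 : (p ^ s * M) • z ≠ 0 := by
      have h2 : (p ^ s * M) • z = M • (p ^ s • z) := by rw [mul_comm, mul_smul]
      rw [h2, hz2, ← mul_smul, mul_comm]
      exact hne
    refine ⟨hfull z hz1 h1 e he, ?_⟩
    rw [smul_add, hz2]
    have h3 : p ^ s • e = 0 := by
      have : p ^ s = p ^ (s - 1) * p := by
        rw [← pow_succ]; congr 1; omega
      rw [this, mul_smul, he, smul_zero]
    rw [h3, add_zero]
  · rintro _ ⟨x, ⟨hx, hx0⟩, rfl⟩
    show ¬ p ∣ _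
    intro hdv
    have hpos : 0 < {z | z ∈ X ∧ p ^ s • z = p ^ s • x}.ncard := by
      rw [Set.ncard_pos (Set.toFinite _)]
      exact ⟨x, hx, rfl⟩
    have hz0 : ∀ z, p ^ s • z = p ^ s • x → (p ^ s * M) • z = 0 := by
      intro z hz
      rw [mul_comm, mul_smul, hz, ← mul_smul, mul_comm, hx0]
    have hinj : Set.InjOn (hh p M s) {z | z ∈ X ∧ p ^ s • z = p ^ s • x} := by
      rintro z ⟨hz1, hz2⟩ z' ⟨hz1', hz2'⟩ heq
      apply hr.inj hp hodd hG hs hX (Or.inl rfl) hz1' hz1
      · rw [p_hh (by omega)]; exact hz0 z' hz2'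
      · have e1 : p • (p ^ (s - 1) • (z - z')) = 0 := by
          rw [← mul_smul, ← pow_succ', Nat.sub_add_cancel (by omega), smul_sub, hz2, hz2', sub_self]
        have e2 : M • (p ^ (s - 1) • (z - z')) = 0 := by
          rw [← mul_smul, mul_comm]
          have : hh p M s (z - z') = 0 := by rw [hh_sub, heq, sub_self]
          exact this
        exact smul_eq_zero_of_coprime hM e1 e2
    have hlt : {z | z ∈ X ∧ p ^ s • z = p ^ s • x}.ncard < p := by
      rw [← Set.ncard_image_of_injOn hinj]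
      apply ncard_le_of_subset_coset hp (g := 0) (y := 0)
      · rintro ⟨z, ⟨hz1, hz2⟩, hz3⟩
        exact hr.hh_ne hp hG hs hX (Or.inl rfl) hz1 hz3
      · simp
      · rintro _ ⟨z, ⟨hz1, hz2⟩, rfl⟩
        rw [p_hh (by omega)]; exact hz0 z hz2
    exact absurd (Nat.le_of_dvd hpos hdv) (by omega)

theorem mem_sup_of_nsmul [Finite G] [IsAddCyclic G] {q : ℕ} {N W : AddSubgroup G} {y : G}
    (hy : q • y ∈ W) (hq : q.Coprime (Nat.card W)) (hN : ∀ e : G, q • e = 0 → e ∈ N) :
    y ∈ N ⊔ W := by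
  obtain ⟨k, hk1, hk2⟩ := Nat.chineseRemainder hq 0 1
  rw [Nat.modEq_zero_iff_dvd] at hk1
  obtain ⟨c, hc⟩ := hk1
  have h1 : k • y ∈ W := by
    rw [hc, mul_comm, mul_smul]
    exact AddSubgroup.nsmul_mem _ hy _
  have h2 : y - k • y ∈ N := by
    apply hN
    rw [smul_sub, smul_comm q k]
    have h3 := nsmul_congr hk2 (mem_iff.1 hy)
    rw [h3, one_smul, sub_self]
  have h3 : y = (y - k • y) + k • y := by abel
  rw [h3]
  exact AddSubgroup.add_mem_sup h2 h1

theorem closure_le_E {Z : Set G} {n : ℕ} (h : ∀ z ∈ Z, n • z = 0) :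
    AddSubgroup.closure Z ≤ E G n := by
  rw [AddSubgroup.closure_le]
  intro z hz
  exact mem_E.2 (h z hz)

/-- Lemma (b') -/
theorem MinGood.cover [Finite G] [IsAddCyclic G] (hcard : Odd (Nat.card G)) (hN : MinBlk ψ N)
    (hnp : ¬ (Nat.card N).Prime) (hX : MinGood ψ X) (hXN : ¬ ∀ x ∈ X, ∀ n ∈ N, x + n ∈ X) :
    ∃ W, Blk ψ W ∧ N ⊓ W = ⊥ ∧ X ⊆ (N ⊔ W : AddSubgroup G) := by
  have hn1 : Nat.card N ≠ 1 := fun h => hN.ne (AddSubgroup.card_eq_one.1 h)
  obtain ⟨p, hp, hd⟩ := Nat.exists_prime_and_dvd hn1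
  have hdG : p ∣ Nat.card G := hd.trans (AddSubgroup.card_addSubgroup_dvd_card N)
  have hodd : Odd p := hcard.of_dvd_nat hdG
  obtain ⟨a, M, hM', hG⟩ := Nat.exists_eq_pow_mul_and_not_dvd (n := Nat.card G)
    Nat.card_pos.ne' p hp.ne_one
  have hM : p.Coprime M := (Nat.Prime.coprime_iff_not_dvd hp).2 hM'
  obtain ⟨e, he0, he⟩ := E_ne_bot hp hdG
  have heN : e ∈ N := E_le_of_dvd hd he
  -- blocks killed by `M` meet `N` trivially
  have hMW : ∀ W, Blk ψ W → W ≤ E G M → N ⊓ W = ⊥ := by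
    intro W hW hWM
    rcases hN.min _ (hN.blk.inf hW) inf_le_left with h | h
    · exact h
    · exfalso
      apply he0
      have h1 : e ∈ N ⊓ W := by rw [h]; exact heN
      exact smul_eq_zero_of_coprime hM he (mem_E.1 (hWM h1.2))
  -- a nonfull element
  have hnf : ∃ y ∈ X, ¬ Full p X y := by
    by_contra hcon
    push Not at hcon
    have h1 : e ∈ Rad X := mem_Rad_of (fun x hx => hcon x hx e he)
    rcases hN.min _ (hX.good.rad_blk.inf hN.blk) inf_le_right with h | h
    · apply he0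
      have : e ∈ Rad X ⊓ N := ⟨h1, heN⟩
      rwa [h] at this
    · apply hXN
      intro x hx n hn
      rw [← h] at hn
      exact (mem_Rad.1 hn.1 x).2 hx
  rcases hX.dich hp hG with h | ⟨s, hs, hr, hfull, y₀, hy₀, hy₀'⟩
  · obtain ⟨y, hy, hyn⟩ := hnf
    set W := AddSubgroup.closure (PP p 1 X) with hW
    have hWb : Blk ψ W := (PP_good hX.good hp 1).blk
    have hWM : W ≤ E G M := by
      apply closure_le_E
      intro z hz
      obtain ⟨x, hx, hxn, rfl⟩ := (mem_PP_one hp hdG).1 hz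
      rw [← mul_smul, mul_comm]
      exact h x hx hxn
    have hNW := hMW W hWb hWM
    refine ⟨W, hWb, hNW, hX.min _ (hN.blk.sup hWb).good ⟨y, hy, ?_⟩⟩
    have hpy : p • y ∈ W := AddSubgroup.subset_closure ((mem_PP_one hp hdG).2 ⟨y, hy, hyn, rfl⟩)
    apply mem_sup_of_nsmul hpy
    · exact Nat.Coprime.coprime_dvd_left hd (inf_eq_bot_iff.1 hNW)
    · intro e' he'
      exact E_le_of_dvd hd he'
  · exfalso
    set Xs : Set G := {x | x ∈ X ∧ (p ^ s * M) • x = 0} with hXs
    have hPs : PP p s X = (fun x => p ^ s • x) '' Xs :=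
      hr.PP_eq hp hodd hG hM hdG hs hX hfull
    have hP1 : ∀ x ∈ Xs, p • x ∈ PP p 1 X := by
      rintro x ⟨hx, hx0⟩
      exact (mem_PP_one hp hdG).2 ⟨x, hx, hr.nonfull hp hG hdG hs hX hx hx0, rfl⟩
    have hP1' : ∀ g ∈ PP p 1 X, ∃ x ∈ Xs, p • x = g := by
      intro g hg
      obtain ⟨x, hx, hxn, rfl⟩ := (mem_PP_one hp hdG).1 hg
      refine ⟨x, ⟨hx, ?_⟩, rfl⟩
      by_contra hne
      exact hxn (hfull x hx hne)
    set K := AddSubgroup.closure (PP p 1 X) with hK
    have hKb : Blk ψ K := (PP_good hX.good hp 1).blk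
    set K' := AddSubgroup.closure (PP p s X) with hK'
    have hKb' : Blk ψ K' := (PP_good hX.good hp s).blk
    have hKM : K' ≤ E G M := by
      apply closure_le_E
      intro z hz
      rw [hPs] at hz
      obtain ⟨x, hx, rfl⟩ := hz
      show M • (p ^ s • x) = 0
      rw [← mul_smul, mul_comm]
      exact hx.2
    have hNK' := hMW K' hKb' hKM
    have hy₀s : y₀ ∈ Xs := ⟨hy₀, hy₀'⟩
    have hNK : N ≤ K := by
      have h1 : hh p M s y₀ ∈ N ⊓ K := by
        constructor
        · apply E_le_of_dvd hd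
          rw [p_hh (by omega)]; exact hy₀'
        · have h2 : p • y₀ ∈ K := AddSubgroup.subset_closure (hP1 y₀ hy₀s)
          have h3 : hh p M s y₀ = (p ^ (s - 2) * M) • (p • y₀) := by
            unfold hh
            rw [← mul_smul]
            congr 1
            have : s - 1 = (s - 2) + 1 := by omega
            rw [this, pow_succ]; ring
          rw [h3]
          exact AddSubgroup.nsmul_mem _ h2 _
      rcases hN.min _ (hN.blk.inf hKb) inf_le_left with h | h
      · exfalso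
        rw [h] at h1
        exact hr.hh_ne hp hG hs hX (Or.inl rfl) hy₀ h1
      · rw [← h]; exact inf_le_right
    have hNs : ∀ n ∈ N, p ^ (s - 1) • n = 0 := by
      intro n hn
      have h1 : K ≤ K'.comap (nsmulAddMonoidHom (p ^ (s - 1))) := by
        rw [hK, AddSubgroup.closure_le]
        intro g hg
        obtain ⟨x, hx, rfl⟩ := hP1' g hg
        show p ^ (s - 1) • (p • x) ∈ K'
        rw [← mul_smul, ← pow_succ, Nat.sub_add_cancel (by omega)]
        apply AddSubgroup.subset_closure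
        rw [hPs]
        exact ⟨x, hx, rfl⟩
      have h2 : p ^ (s - 1) • n ∈ N ⊓ K' := ⟨AddSubgroup.nsmul_mem _ hn _, h1 (hNK hn)⟩
      rw [hNK'] at h2
      exact h2
    have hsing : {z | z ∈ X ∧ z - y₀ ∈ N} = {y₀} := by
      ext z
      simp only [Set.mem_ofPred_eq, Set.mem_singleton_iff]
      constructor
      · rintro ⟨hz1, hz2⟩
        exact hr.inj hp hodd hG hs hX (Or.inl rfl) hy₀ hz1 (by rw [p_hh (by omega)]; exact hy₀')
          (hNs _ hz2)
      · rintro rfl
        exact ⟨hy₀, by rw [sub_self]; exact AddSubgroup.zero_mem _⟩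
    have hsing' : ∀ x ∈ X, ∀ z ∈ X, z - x ∈ N → z = x := by
      intro x hx z hz hzx
      have h1 := hX.ncard_const hN.blk hy₀ hx
      rw [hsing, Set.ncard_singleton] at h1
      obtain ⟨w, hw⟩ := Set.ncard_eq_one.1 h1.symm
      have h2 : x ∈ {z | z ∈ X ∧ z - x ∈ N} :=
        ⟨hx, by rw [sub_self]; exact AddSubgroup.zero_mem _⟩
      have h3 : z ∈ {z | z ∈ X ∧ z - x ∈ N} := ⟨hz, hzx⟩
      rw [hw] at h2 h3
      rw [Set.mem_singleton_iff] at h2 h3
      rw [h2, h3]
    have hall : ∀ x ∈ X, (p ^ s * M) • x = 0 := by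
      intro x hx
      by_contra hne
      apply he0
      have h1 := hfull x hx hne e he
      have h2 := hsing' x hx _ h1 (by rwa [add_sub_cancel_left])
      simpa using h2
    have hhN : ∀ x ∈ X, hh p M s x ∈ N := by
      intro x hx
      apply E_le_of_dvd hd
      rw [p_hh (by omega)]; exact hall x hx
    set k := th p M s 1 with hk
    have hkc : k.Coprime (Nat.card G) := th_coprime hp hG hs 1
    have hA : Good ψ ({g | ∃ a ∈ (fun x => k • x) '' X, ∃ b ∈ X, g = a - b} ∩ N) := by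
      refine (InvOn.inter (diff_invOn (U := AddSubgroup.closure X) (mult_invOn hkc hX.good)
        hX.good.closure AddSubgroup.subset_closure) (hN.blk.invOn _)).good ?_
      rintro g ⟨⟨a, ⟨x, hx, rfl⟩, b, hb, rfl⟩, _⟩
      exact AddSubgroup.sub_mem _ (nsmul_mem_closure k hx) (AddSubgroup.subset_closure hb)
    have hNE : N ≤ E G p := by
      intro ν hν
      rw [mem_E]
      by_cases hν0 : ν = 0
      · rw [hν0, smul_zero]
      have h1 : hh p M s y₀ ∈ {g | ∃ a ∈ (fun x => k • x) '' X, ∃ b ∈ X, g = a - b} ∩ N := by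
        refine ⟨⟨k • y₀, ⟨y₀, hy₀, rfl⟩, y₀, hy₀, ?_⟩, hhN y₀ hy₀⟩
        rw [hk, th_smul, one_smul, add_sub_cancel_left]
      have h2 := hN.schur hnp hA Set.inter_subset_right h1
        (hr.hh_ne hp hG hs hX (Or.inl rfl) hy₀) hν hν0
      obtain ⟨⟨_, ⟨x, hx, rfl⟩, x', hx', h3⟩, _⟩ := h2
      have h4 : k • x = x + hh p M s x := by rw [hk, th_smul, one_smul]
      simp only [h4] at h3
      have h5 : x' - x ∈ N := by
        have : x' - x = hh p M s x - ν := by rw [h3]; abel
        rw [this]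
        exact AddSubgroup.sub_mem _ (hhN x hx) hν
      have h6 := hsing' x hx x' hx' h5
      rw [h6, add_sub_cancel_left] at h3
      rw [h3, p_hh (by omega)]
      exact hall x hx
    have h2 := AddSubgroup.card_dvd_of_le hNE
    rw [card_E_of_dvd hdG, Nat.dvd_prime hp] at h2
    rcases h2 with h2 | h2
    · exact hn1 h2
    · exact hnp (h2 ▸ hp)

end Pool.Agent.Helper40.GS
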