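import Pool.Agent.Helper40.GS.PAna

set_option autoImplicit false
set_option linter.unusedSectionVars false
set_option linter.style.haveILetI false
set_option linter.deprecated false
set_option linter.unusedVariables false

namespace Pool.Agent.Helper40.GS

variable {G : Type*} [AddCommGroup G] {ψ : Equiv.Perm G} {X Y A Z : Set G} {N : AddSubgroup G}
  {p a M s : ℕ}

variable [Finite G] [IsAddCyclic G]

theorem MinGood.all_nonfull (hp : p.Prime) (hd : p ∣ Nat.card G) (hE : Blk ψ (E G p))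
    (hX : MinGood ψ X) (hnf : ¬ ∀ x ∈ X, Full p X x) : ∀ x ∈ X, ¬ Full p X x := by
  push Not at hnf
  obtain ⟨y, hy, hyn⟩ := hnf
  intro x hx hxf
  have h1 := hX.ncard_const hE hx hy
  have h2 : {z | z ∈ X ∧ z - x ∈ E G p} = (fun z => z + x) '' (E G p : Set G) := by
    ext z
    constructor
    · rintro ⟨_, hz⟩
      exact ⟨z - x, hz, sub_add_cancel _ _⟩
    · rintro ⟨e, he, rfl⟩
      refine ⟨?_, by simpa using he⟩
      show e + x ∈ X
      rw [add_comm]
      exact hxf e (mem_E.1 he)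
  have h3 : {z | z ∈ X ∧ z - x ∈ E G p}.ncard = p := by
    rw [h2, Set.ncard_image_of_injective _ (add_left_injective x), ← Nat.card_coe_set_eq]
    exact card_E_of_dvd hd
  unfold Full at hyn
  push Not at hyn
  obtain ⟨e, he, hye⟩ := hyn
  have h4 : {z | z ∈ X ∧ z - y ∈ E G p}.ncard < p := by
    apply ncard_le_of_subset_coset hp (g := p • y) (y := y + e)
    · rintro ⟨h, _⟩; exact hye h
    · rw [smul_add, he, add_zero]
    · rintro z ⟨_, hz⟩
      rw [mem_E, smul_sub] at hz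
      exact sub_eq_zero.1 hz
  omega

/-- the two types of minimal good sets when `E p` is a block -/
theorem MinGood.prime_type (hp : p.Prime) (hG : Nat.card G = p ^ a * M) (hd : p ∣ Nat.card G)
    (hE : Blk ψ (E G p)) (hX : MinGood ψ X) (hnf : ¬ ∀ x ∈ X, Full p X x) :
    (∀ x ∈ X, (p * M) • x = 0) ∨
      ∃ s, 2 ≤ s ∧ Rig p M s X ∧ ∀ x ∈ X, (p ^ s * M) • x = 0 := by
  have hall := hX.all_nonfull hp hd hE hnf
  rcases hX.dich hp hG with h | ⟨s, hs, hr, hf, _⟩
  · exact Or.inl fun x hx => h x hx (hall x hx)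
  · refine Or.inr ⟨s, hs, hr, fun x hx => ?_⟩
    by_contra hne
    exact hall x hx (hf x hx hne)

theorem type1_blk (hp : p.Prime) (hd : p ∣ Nat.card G) (hE : Blk ψ (E G p))
    (hX : MinGood ψ X) (hnf : ¬ ∀ x ∈ X, Full p X x) :
    Blk ψ (AddSubgroup.closure ((fun x => p • x) '' X)) := by
  have h1 : PP p 1 X = (fun x => p • x) '' X := by
    ext g
    rw [mem_PP_one hp hd]
    constructor
    · rintro ⟨x, hx, _, rfl⟩; exact ⟨x, hx, rfl⟩
    · rintro ⟨x, hx, rfl⟩; exact ⟨x, hx, hX.all_nonfull hp hd hE hnf x hx, rfl⟩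
  rw [← h1]
  exact (PP_good hX.good hp 1).blk

theorem type2_blk (hp : p.Prime) (hodd : Odd p)
    (hG : Nat.card G = p ^ a * M) (hM : p.Coprime M) (hd : p ∣ Nat.card G) (hs : 2 ≤ s)
    (hX : MinGood ψ X) (hr : Rig p M s X) (hall : ∀ x ∈ X, (p ^ s * M) • x = 0) :
    Blk ψ (AddSubgroup.closure ((fun x => p ^ s • x) '' X)) := by
  have h1 := hr.PP_eq hp hodd hG hM hd hs hX (fun z hz h => absurd (hall z hz) h)
  have h2 : {x | x ∈ X ∧ (p ^ s * M) • x = 0} = X := by
    ext x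
    exact ⟨fun h => h.1, fun h => ⟨h, hall x h⟩⟩
  rw [h2] at h1
  rw [← h1]
  exact (PP_good hX.good hp s).blk

/-- data of the second type -/
structure T2 (ψ : Equiv.Perm G) (p a M s : ℕ) (X : Set G) : Prop where
  hp : p.Prime
  hodd : Odd p
  hG : Nat.card G = p ^ a * M
  hM : p.Coprime M
  hd : p ∣ Nat.card G
  hs : 2 ≤ s
  hX : MinGood ψ X
  hE : Blk ψ (E G p)
  hr : Rig p M s X
  hall : ∀ x ∈ X, (p ^ s * M) • x = 0

namespace T2

variable (h : T2 ψ p a M s X)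

include h

theorem tors {v : G} (hv : v ∈ AddSubgroup.closure X) : (p ^ s * M) • v = 0 :=
  mem_E.1 (closure_le_E h.hall hv)

theorem tors_im (hZ : Im ψ X Z) {z : G} (hz : z ∈ Z) : (p ^ s * M) • z = 0 := by
  rcases hZ with rfl | ⟨u, rfl⟩
  · exact h.hall z hz
  · obtain ⟨x, hx, rfl⟩ := hz
    exact h.tors (h.hX.good.blk.loc_mem.2 (AddSubgroup.subset_closure hx))

theorem p_hh_im (hZ : Im ψ X Z) {z : G} (hz : z ∈ Z) : p • hh p M s z = 0 := by
  have := h.hs
  rw [p_hh (by omega)]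
  exact h.tors_im hZ hz

theorem sep (hZ : Im ψ X Z) {z e : G} (hz : z ∈ Z) (he : p • e = 0) (hze : z + e ∈ Z) : e = 0 :=
  h.hr.sep h.hp h.hG h.hs h.hX hZ hz (h.p_hh_im hZ hz) he hze

theorem hh_ne (hZ : Im ψ X Z) {z : G} (hz : z ∈ Z) : hh p M s z ≠ 0 :=
  h.hr.hh_ne h.hp h.hG h.hs h.hX hZ hz

theorem gen {x e : G} (hx : x ∈ X) (he : p • e = 0) : ∃ t : ℕ, e = t • hh p M s x :=
  gen_E h.hp (h.hh_ne (Or.inl rfl) hx) (h.p_hh_im (Or.inl rfl) hx) he

theorem tors_mem {e : G} (he : p • e = 0) : e ∈ AddSubgroup.closure X := by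
  obtain ⟨x, hx⟩ := h.hX.ne
  obtain ⟨t, rfl⟩ := h.gen hx he
  exact AddSubgroup.nsmul_mem _ (nsmul_mem_closure _ hx) _

theorem star (u : G) {x : G} (hx : x ∈ X) (t : ℕ) :
    loc ψ (u + x) (t • hh p M s x) = t • hh p M s (loc ψ u x) := by
  have hIm : Im ψ X (loc ψ u '' X) := Or.inr ⟨u, rfl⟩
  have h1 : loc ψ u (th p M s t • x) ∈ loc ψ u '' ((fun x => th p M s t • x) '' X) :=
    ⟨_, ⟨x, hx, rfl⟩, rfl⟩
  rw [mult _ (th_coprime h.hp h.hG h.hs t) h.hX.good] at h1
  obtain ⟨x', hx', he⟩ := h1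
  simp only [th_smul] at he
  rw [loc_add] at he
  have h2 : p • (loc ψ (u + x) (t • hh p M s x) - t • hh p M s x') = 0 := by
    rw [smul_sub]
    have e1 : p • loc ψ (u + x) (t • hh p M s x) = 0 := by
      rw [← mem_E]
      apply h.hE.loc_mem.2
      rw [mem_E, smul_comm, h.p_hh_im (Or.inl rfl) hx, smul_zero]
    have e2 : p • t • hh p M s x' = 0 := by
      rw [smul_comm, h.p_hh_im hIm hx', smul_zero]
    rw [e1, e2, sub_zero]
  have h3 : loc ψ u x + (loc ψ (u + x) (t • hh p M s x) - t • hh p M s x') = x' := by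
    rw [← add_sub_assoc, ← he, add_sub_cancel_right]
  have h4 := h.sep hIm (z := loc ψ u x) ⟨x, hx, rfl⟩ h2 (by rw [h3]; exact hx')
  rw [h4, add_zero] at h3
  rw [sub_eq_zero] at h4
  rw [h4, h3]

theorem homog (v : G) {e : G} (he : p • e = 0) (t : ℕ) : loc ψ v (t • e) = t • loc ψ v e := by
  obtain ⟨x, hx⟩ := h.hX.ne
  obtain ⟨j, rfl⟩ := h.gen hx he
  have h1 := h.star (v - x) hx
  rw [sub_add_cancel] at h1
  rw [← mul_smul, h1, h1, mul_smul]

theorem shift_mem (u : G) {x e : G} (hx : x ∈ X) (he : p • e = 0) :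
    loc ψ (u + x) e = loc ψ u e := by
  have hIm : Im ψ X (loc ψ u '' X) := Or.inr ⟨u, rfl⟩
  have h1 : loc ψ u (x + e) = loc ψ u x + loc ψ (u + x) e := loc_add _ _ _ _
  have h2 : loc ψ u (e + x) = loc ψ u e + loc ψ (u + e) x := loc_add _ _ _ _
  rw [add_comm e x, h1] at h2
  have h3 : loc ψ u x + (loc ψ (u + x) e - loc ψ u e) = loc ψ (u + e) x := by
    rw [← add_sub_assoc, h2, add_sub_cancel_left]
  have h4 : p • (loc ψ (u + x) e - loc ψ u e) = 0 := by
    rw [← mem_E]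
    exact AddSubgroup.sub_mem _ (h.hE.loc_mem.2 (mem_E.2 he)) (h.hE.loc_mem.2 (mem_E.2 he))
  have h5 := h.sep hIm (z := loc ψ u x) ⟨x, hx, rfl⟩ h4 (by
    rw [h3, ← h.hX.good.closure u e (h.tors_mem he)]
    exact ⟨x, hx, rfl⟩)
  exact sub_eq_zero.1 h5

theorem shift (u : G) {v e : G} (hv : v ∈ AddSubgroup.closure X) (he : p • e = 0) :
    loc ψ (u + v) e = loc ψ u e := by
  induction hv using AddSubgroup.closure_induction generalizing u with
  | mem x hx => exact h.shift_mem u hx he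
  | zero => rw [add_zero]
  | add x y _ _ hx hy => rw [← add_assoc, hy, hx]
  | neg x _ hx =>
    have := hx (u + -x)
    rw [neg_add_cancel_right] at this
    exact this.symm

theorem addit (u : G) {e e' : G} (he : p • e = 0) (he' : p • e' = 0) :
    loc ψ u (e + e') = loc ψ u e + loc ψ u e' := by
  rw [loc_add, h.shift u (h.tors_mem he) he']

theorem hh_tors_mem {v : G} (hv : v ∈ AddSubgroup.closure X) : p • hh p M s v = 0 := by
  have := h.hs
  rw [p_hh (by omega)]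
  exact h.tors hv

theorem hh_loc (u : G) {v : G} (hv : v ∈ AddSubgroup.closure X) :
    hh p M s (loc ψ u v) = loc ψ u (hh p M s v) := by
  induction hv using AddSubgroup.closure_induction generalizing u with
  | mem x hx =>
    have h1 := h.star u hx 1
    rw [one_smul, one_smul, h.shift_mem u hx (h.p_hh_im (Or.inl rfl) hx)] at h1
    exact h1.symm
  | zero => rw [loc_zero]; unfold hh; rw [smul_zero, loc_zero]
  | add x y hx' hy' hx hy =>
    rw [loc_add, hh_add, hh_add, hx, hy, h.shift u hx' (h.hh_tors_mem hy'),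
      ← h.addit u (h.hh_tors_mem hx') (h.hh_tors_mem hy')]
  | neg x hx' hx =>
    have h2 : hh p M s (-x) = - hh p M s x := smul_neg _ _
    have h3 : hh p M s (-loc ψ (u - x) x) = - hh p M s (loc ψ (u - x) x) := smul_neg _ _
    rw [loc_neg, h3, hx, h2]
    have h4 := h.shift (u - x) hx' (h.hh_tors_mem hx')
    rw [sub_add_cancel] at h4
    rw [← h4, neg_eq_iff_add_eq_zero, add_comm, ← h.addit u _ (h.hh_tors_mem hx')]
    · rw [neg_add_cancel, loc_zero]
    · rw [smul_neg, h.hh_tors_mem hx', neg_zero]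

theorem inj (hZ : Im ψ X Z) {x₁ x₂ : G} (h1 : x₁ ∈ Z) (h2 : x₂ ∈ Z)
    (h4 : p ^ s • (x₂ - x₁) = 0) (h5 : hh p M s x₂ = hh p M s x₁) : x₂ = x₁ := by
  have := h.hs
  apply h.hr.inj h.hp h.hodd h.hG h.hs h.hX hZ h1 h2 (h.p_hh_im hZ h1)
  have e1 : p • (p ^ (s - 1) • (x₂ - x₁)) = 0 := by
    rw [← mul_smul, ← pow_succ', Nat.sub_add_cancel (by omega), h4]
  have e2 : M • (p ^ (s - 1) • (x₂ - x₁)) = 0 := by
    rw [← mul_smul, mul_comm]
    have : hh p M s (x₂ - x₁) = 0 := by rw [hh_sub, h5, sub_self]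
    exact this
  exact smul_eq_zero_of_coprime h.hM e1 e2

/-- base case of Lemma K -/
theorem base (hU : ∀ x ∈ X, p ^ s • x = 0) (u : G) :
    ∃ j : ℕ, ∀ v ∈ AddSubgroup.closure X, loc ψ u v = j • v := by
  have hs := h.hs
  have hU' : ∀ v ∈ AddSubgroup.closure X, p ^ s • v = 0 := fun v hv =>
    mem_E.1 (closure_le_E hU hv)
  obtain ⟨x₀, hx₀⟩ := h.hX.ne
  have hne := h.hh_ne (Or.inl rfl) hx₀
  have hord : addOrderOf x₀ = p ^ s := by
    have : Fact p.Prime := ⟨h.hp⟩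
    have hs1 : s = s - 1 + 1 := by omega
    rw [hs1]
    apply addOrderOf_eq_prime_pow
    · intro h0
      apply hne
      unfold hh
      rw [mul_comm, mul_smul, h0, smul_zero]
    · rw [← hs1]; exact hU x₀ hx₀
  have hgen : ∀ v ∈ AddSubgroup.closure X, ∃ c : ℕ, v = c • x₀ := fun v hv =>
    gen_of_order hord (hU' v hv)
  have hmemU : ∀ u, ∀ v ∈ AddSubgroup.closure X, loc ψ u v ∈ AddSubgroup.closure X :=
    fun u v hv => h.hX.good.blk.loc_mem.2 hv
  have hx₀U : x₀ ∈ AddSubgroup.closure X := AddSubgroup.subset_closure hx₀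
  obtain ⟨j, hj⟩ := hgen _ (hmemU u x₀ hx₀U)
  -- `loc` and multipliers
  have hmul : ∀ k : ℕ, k.Coprime (Nat.card G) → loc ψ u (k • x₀) = k • loc ψ u x₀ := by
    intro k hk
    have hIm : Im ψ X (loc ψ u '' X) := Or.inr ⟨u, rfl⟩
    have h1 : loc ψ u (k • x₀) ∈ loc ψ u '' ((fun x => k • x) '' X) := ⟨_, ⟨x₀, hx₀, rfl⟩, rfl⟩
    rw [mult _ hk h.hX.good] at h1
    obtain ⟨x', hx', he⟩ := h1
    simp only at he
    have hkx : k • x₀ ∈ AddSubgroup.closure X := nsmul_mem_closure k hx₀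
    have h2 : k • hh p M s x' = k • hh p M s (loc ψ u x₀) := by
      rw [← hh_nsmul, he, h.hh_loc u hkx, hh_nsmul, h.homog u (h.hh_tors_mem hx₀U),
        ← h.hh_loc u hx₀U]
    have hkp : k.Coprime p := Nat.Coprime.coprime_dvd_right h.hd hk
    have h3 : hh p M s x' = hh p M s (loc ψ u x₀) := by
      have e1 : k • (hh p M s x' - hh p M s (loc ψ u x₀)) = 0 := by
        rw [smul_sub, h2, sub_self]
      have e2 : p • (hh p M s x' - hh p M s (loc ψ u x₀)) = 0 := by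
        rw [smul_sub, h.p_hh_im hIm hx', h.p_hh_im hIm ⟨x₀, hx₀, rfl⟩, sub_zero]
      exact sub_eq_zero.1 (smul_eq_zero_of_coprime hkp e1 e2)
    have h4 : x' = loc ψ u x₀ := by
      apply h.inj hIm ⟨x₀, hx₀, rfl⟩ hx' _ h3
      obtain ⟨z, hz, rfl⟩ := hx'
      rw [smul_sub, hU' _ (hmemU u z (AddSubgroup.subset_closure hz)),
        hU' _ (hmemU u x₀ hx₀U), sub_zero]
    rw [← he, h4]
  have hunit : ∀ c : ℕ, ¬ p ∣ c → loc ψ u (c • x₀) = j • (c • x₀) := by
    intro c hc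
    have hcop : (p ^ s).Coprime M := Nat.Coprime.pow_left s h.hM
    obtain ⟨k, hk1, hk2⟩ := Nat.chineseRemainder hcop c 1
    have hk3 : k • x₀ = c • x₀ := nsmul_congr hk1 (hU x₀ hx₀)
    have hkc : k.Coprime (Nat.card G) := by
      rw [h.hG]
      apply Nat.Coprime.mul_right
      · apply Nat.Coprime.pow_right
        rw [Nat.coprime_comm, Nat.Prime.coprime_iff_not_dvd h.hp]
        intro hpk
        apply hc
        have h5 : k ≡ c [MOD p] := hk1.of_dvd (dvd_pow_self p (by omega))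
        exact (h5.dvd_iff dvd_rfl).1 hpk
      · have h6 := hk2.gcd_eq
        rw [Nat.gcd_one_left] at h6
        exact h6
    rw [← hk3, hmul k hkc, hj, smul_comm]
  refine ⟨j, fun v hv => ?_⟩
  obtain ⟨c, rfl⟩ := hgen v hv
  by_cases hc : p ∣ c
  · rcases Nat.eq_zero_or_pos c with rfl | hpos
    · simp
    · have hc1 : ¬ p ∣ c - 1 := by
        intro h1
        have h2 := (Nat.dvd_sub hc h1)
        have h3 : c - (c - 1) = 1 := by omega
        rw [h3, Nat.dvd_one] at h2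
        exact h.hp.one_lt.ne' h2
      have hv1 : (c - 1) • x₀ ∈ AddSubgroup.closure X := nsmul_mem_closure _ hx₀
      have hcc : c • x₀ = (c - 1) • x₀ + x₀ := by
        have : c = (c - 1) + 1 := by omega
        conv_lhs => rw [this, add_smul, one_smul]
      have hIm : Im ψ X (loc ψ u '' X) := Or.inr ⟨u, rfl⟩
      have h7 : loc ψ (u + (c - 1) • x₀) x₀ = loc ψ u x₀ := by
        apply h.inj hIm ⟨x₀, hx₀, rfl⟩
        · rw [← h.hX.good.closure u _ hv1]; exact ⟨x₀, hx₀, rfl⟩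
        · rw [smul_sub, hU' _ (hmemU _ x₀ hx₀U), hU' _ (hmemU u x₀ hx₀U), sub_zero]
        · rw [h.hh_loc _ hx₀U, h.hh_loc _ hx₀U, h.shift u hv1 (h.hh_tors_mem hx₀U)]
      rw [hcc, loc_add, hunit _ hc1, h7, hj, smul_add]
  · exact hunit c hc

end T2

end Pool.Agent.Helper40.GS
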