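import Pool.Agent.Helper40.GS.Basic

set_option autoImplicit false
set_option linter.unusedSectionVars false
set_option linter.style.haveILetI false
set_option linter.deprecated false

namespace Pool.Agent.Helper40.GS

variable {G : Type*} [AddCommGroup G] {ψ : Equiv.Perm G} {X Y A : Set G} {N : AddSubgroup G}

/-- the whole coset of the `p`-torsion lies in the set -/
def Full (p : ℕ) (X : Set G) (x : G) : Prop := ∀ e : G, p • e = 0 → x + e ∈ X

/-- minimal nonzero blocks -/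
structure MinBlk (ψ : Equiv.Perm G) (N : AddSubgroup G) : Prop where
  blk : Blk ψ N
  ne : N ≠ ⊥
  min : ∀ K, Blk ψ K → K ≤ N → K = ⊥ ∨ K = N

theorem exists_minBlk [Finite G] {U : AddSubgroup G} (hU : Blk ψ U) (hne : U ≠ ⊥) :
    ∃ N, MinBlk ψ N ∧ N ≤ U := by
  classical
  have hex : ∃ n, ∃ K : AddSubgroup G, Blk ψ K ∧ K ≠ ⊥ ∧ K ≤ U ∧ Nat.card K = n :=
    ⟨_, U, hU, hne, le_rfl, rfl⟩
  obtain ⟨N, hN, hN0, hNU, hn⟩ := Nat.find_spec hex
  refine ⟨N, ⟨hN, hN0, ?_⟩, hNU⟩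
  intro K hK hKN
  by_contra hcon
  push Not at hcon
  have h1 := Nat.find_min' hex ⟨K, hK, hcon.1, hKN.trans hNU, rfl⟩
  rw [← hn] at h1
  exact hcon.2 (AddSubgroup.eq_of_le_of_card_ge hKN h1)

variable [Finite G] [IsAddCyclic G]

theorem ncard_le_of_subset_coset {p : ℕ} (hp : p.Prime) {Z : Set G} {g y : G} (hy : y ∉ Z)
    (hyg : p • y = g) (hZ : ∀ z ∈ Z, p • z = g) : Z.ncard < p := by
  have h1 : Z ⊂ (fun z => z + y) '' (E G p : Set G) := by
    rw [Set.ssubset_iff_subset_ne]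
    constructor
    · intro z hz
      refine ⟨z - y, ?_, sub_add_cancel _ _⟩
      show z - y ∈ E G p
      rw [mem_E, smul_sub, hZ z hz, hyg, sub_self]
    · intro h
      apply hy
      rw [h]
      exact ⟨0, AddSubgroup.zero_mem _, zero_add _⟩
  have h2 := Set.ncard_lt_ncard h1 (Set.toFinite _)
  rw [Set.ncard_image_of_injective _ (add_left_injective y)] at h2
  have h3 : (E G p : Set G).ncard ≤ p := by
    have : (E G p : Set G).ncard = (Nat.card G).gcd p := by
      rw [← Nat.card_coe_set_eq]; exact card_E p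
    rw [this]
    exact Nat.gcd_le_right _ hp.pos
  omega

theorem mem_PP_one {p : ℕ} (hp : p.Prime) (hd : p ∣ Nat.card G) {g : G} :
    g ∈ PP p 1 X ↔ ∃ x ∈ X, ¬ Full p X x ∧ p • x = g := by
  constructor
  · intro hg
    by_contra hcon
    push Not at hcon
    apply hg
    apply dvd_ncard_of_periodic hd
    rintro z ⟨hz1, hz2⟩ e he
    rw [pow_one] at hz2
    have h1 : Full p X z := by
      by_contra hf
      exact hcon z hz1 hf hz2
    refine ⟨h1 e he, ?_⟩
    rw [pow_one, smul_add, he, add_zero, hz2]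
  · rintro ⟨x, hx, hnf, rfl⟩
    unfold Full at hnf
    push Not at hnf
    obtain ⟨e, he, hxe⟩ := hnf
    show ¬ p ∣ _
    intro hdv
    have h1 : {z | z ∈ X ∧ p ^ 1 • z = p • x}.ncard < p := by
      apply ncard_le_of_subset_coset hp (g := p • x) (y := x + e)
      · rintro ⟨h, _⟩; exact hxe h
      · rw [smul_add, he, add_zero]
      · rintro z ⟨_, hz⟩
        rwa [pow_one] at hz
    have h2 : 0 < {z | z ∈ X ∧ p ^ 1 • z = p • x}.ncard := by
      rw [Set.ncard_pos (Set.toFinite _)]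
      exact ⟨x, hx, by rw [pow_one]⟩
    exact absurd (Nat.le_of_dvd h2 hdv) (by omega)

theorem E_le_of_dvd {p : ℕ} (hd : p ∣ Nat.card N) {e : G} (he : p • e = 0) : e ∈ N :=
  E_le hd (mem_E.2 he)

/-- (S1) -/
theorem MinBlk.full (hN : MinBlk ψ N) {p : ℕ} (hp : p.Prime) (hd : p ∣ Nat.card N)
    (hA : Good ψ A) (hAN : A ⊆ N) {x : G} (hx : x ∈ A) (hpx : p • x ≠ 0) : Full p A x := by
  by_contra hnf
  have hdG : p ∣ Nat.card G := hd.trans (AddSubgroup.card_addSubgroup_dvd_card N)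
  have h1 : p • x ∈ PP p 1 A := (mem_PP_one hp hdG).2 ⟨x, hx, hnf, rfl⟩
  have hle : AddSubgroup.closure (PP p 1 A) ≤ N := by
    rw [AddSubgroup.closure_le]
    refine (PP_subset p 1).trans ?_
    rintro _ ⟨z, hz, rfl⟩
    exact AddSubgroup.nsmul_mem _ (hAN hz) _
  rcases hN.min _ (PP_good hA hp 1).blk hle with h2 | h2
  · apply hpx
    have h3 : p • x ∈ AddSubgroup.closure (PP p 1 A) := AddSubgroup.subset_closure h1
    rw [h2] at h3
    exact h3
  · obtain ⟨c, hc⟩ := hd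
    have h3 : N ≤ E G c := by
      rw [← h2, AddSubgroup.closure_le]
      refine (PP_subset p 1).trans ?_
      rintro _ ⟨z, hz, rfl⟩
      show p ^ 1 • z ∈ E G c
      rw [mem_E, pow_one, ← mul_smul, mul_comm, ← hc]
      exact mem_iff.1 (hAN hz)
    have h4 := AddSubgroup.card_dvd_of_le h3
    have h5 : c ∣ Nat.card G := (Dvd.intro_left p hc.symm).trans
      (AddSubgroup.card_addSubgroup_dvd_card N)
    rw [card_E_of_dvd h5, hc] at h4
    have h6 : 0 < c := by
      rcases Nat.eq_zero_or_pos c with h | h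
      · rw [h, mul_zero] at hc
        exact absurd hc Nat.card_pos.ne'
      · exact h
    have h7 := Nat.le_of_dvd h6 h4
    have h8 := hp.two_le
    nlinarith

/-- (S2) -/
theorem MinBlk.meets (hN : MinBlk ψ N) {p : ℕ} (hp : p.Prime) (hd : p ∣ Nat.card N)
    (hA : Good ψ A) (hAN : A ⊆ N) (h0 : (0 : G) ∉ A) (hne : A.Nonempty) :
    ∃ e ∈ A, p • e = 0 := by
  by_contra hcon
  push Not at hcon
  have hdG : p ∣ Nat.card G := hd.trans (AddSubgroup.card_addSubgroup_dvd_card N)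
  obtain ⟨e, he0, hpe⟩ := E_ne_bot hp hdG
  have h1 : e ∈ Rad A := mem_Rad_of (fun x hx => hN.full hp hd hA hAN hx (hcon x hx) e hpe)
  have h2 : e ∈ N := E_le_of_dvd hd hpe
  rcases hN.min _ (hA.rad_blk.inf hN.blk) inf_le_right with h3 | h3
  · apply he0
    have : e ∈ Rad A ⊓ N := ⟨h1, h2⟩
    rwa [h3] at this
  · obtain ⟨x, hx⟩ := hne
    have h4 : -x ∈ Rad A ⊓ N := by rw [h3]; exact AddSubgroup.neg_mem _ (hAN hx)
    have h5 := (mem_Rad.1 h4.1 x).2 hx
    rw [add_neg_cancel] at h5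
    exact h0 h5

theorem MinBlk.closure_eq (hN : MinBlk ψ N) (hA : Good ψ A) (hAN : A ⊆ N) {a : G} (ha : a ∈ A)
    (ha0 : a ≠ 0) : AddSubgroup.closure A = N := by
  rcases hN.min _ hA.blk ((AddSubgroup.closure_le _).2 hAN) with h | h
  · exfalso
    apply ha0
    have : a ∈ AddSubgroup.closure A := AddSubgroup.subset_closure ha
    rwa [h] at this
  · exact h

/-- (S4) -/
theorem MinBlk.tors (hN : MinBlk ψ N) {p : ℕ} (hp : p.Prime) (hd : p ∣ Nat.card N)
    (hnp : Nat.card N ≠ p) (hA : MinGood ψ A) (hAN : A ⊆ N) (h0 : (0 : G) ∉ A) {f : G}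
    (hf : p • f = 0) (hf0 : f ≠ 0) : f ∈ A := by
  by_contra hfA
  have hdG : p ∣ Nat.card G := hd.trans (AddSubgroup.card_addSubgroup_dvd_card N)
  obtain ⟨e₀, he₀A, he₀⟩ := hN.meets hp hd hA.good hAN h0 hA.ne
  have hne0 : ∀ x ∈ A, x ≠ 0 := fun x hx h => h0 (h ▸ hx)
  -- the torsion part
  set A₁ : Set G := {y | y ∈ A ∧ p • y = 0} with hA₁
  have hr0 : 0 < A₁.ncard := by
    rw [Set.ncard_pos (Set.toFinite _)]
    exact ⟨e₀, he₀A, he₀⟩
  have hrp : A₁.ncard < p := by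
    apply ncard_le_of_subset_coset hp (g := 0) (y := 0)
    · rintro ⟨h, _⟩; exact h0 h
    · simp
    · rintro z ⟨_, hz⟩; exact hz
  -- a non-torsion element
  have hg : ∃ g ∈ A, p • g ≠ 0 := by
    by_contra hcon
    push Not at hcon
    have h1 : N ≤ E G p := by
      rw [← hN.closure_eq hA.good hAN he₀A (hne0 _ he₀A), AddSubgroup.closure_le]
      intro x hx
      exact mem_E.2 (hcon x hx)
    have h2 := AddSubgroup.card_dvd_of_le h1
    rw [card_E_of_dvd hdG, Nat.dvd_prime hp] at h2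
    rcases h2 with h2 | h2
    · apply hN.ne
      exact AddSubgroup.card_eq_one.1 h2
    · exact hnp h2
  obtain ⟨g, hgA, hpg⟩ := hg
  have hfull : ∀ x ∈ A, p • x ≠ 0 → ∀ e : G, p • e = 0 → x + e ∈ A :=
    fun x hx hpx => hN.full hp hd hA.good hAN hx hpx
  -- constancy of the autocorrelation
  have hconst : ∀ e ∈ A, {y | y ∈ A ∧ y + e ∈ A}.ncard = {y | y ∈ A ∧ y + g ∈ A}.ncard := by
    set c := {y | y ∈ A ∧ y + g ∈ A}.ncard with hc
    have h1 := hA.good.equivariant (fun Y w => {y | y ∈ Y ∧ y + w ∈ Y}.ncard = c) (by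
      intro u w
      have h2 : {y | y ∈ loc ψ u '' A ∧ y + loc ψ u w ∈ loc ψ u '' A} =
          (fun x => loc ψ (u - x) x) '' {y | y ∈ A ∧ y + w ∈ A} := by
        ext y
        constructor
        · rintro ⟨hy1, hy2⟩
          rw [← hA.good.image_sub] at hy1
          obtain ⟨x, hx, rfl⟩ := hy1
          refine ⟨x, ⟨hx, ?_⟩, rfl⟩
          have h3 : loc ψ (u - x) x + loc ψ u w = loc ψ (u - x) (x + w) := by
            rw [loc_add, sub_add_cancel]
          simp only [h3] at hy2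
          exact (hA.good.mem_sub (AddSubgroup.subset_closure hx)).1 hy2
        · rintro ⟨x, ⟨hx, hxw⟩, rfl⟩
          have h3 : loc ψ (u - x) x + loc ψ u w = loc ψ (u - x) (x + w) := by
            rw [loc_add, sub_add_cancel]
          refine ⟨?_, ?_⟩
          · exact (hA.good.mem_sub (AddSubgroup.subset_closure hx)).2 hx
          · show loc ψ (u - x) x + loc ψ u w ∈ _
            rw [h3]
            exact (hA.good.mem_sub (AddSubgroup.subset_closure hx)).2 hxw
      rw [h2, Set.ncard_image_of_injective]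
      intro x y hxy
      simp only [loc_apply, sub_add_cancel] at hxy
      have h4 := ψ.injective (sub_right_injective hxy)
      simpa using h4)
    have h2 : Good ψ (A ∩ {w | {y | y ∈ A ∧ y + w ∈ A}.ncard = c}) :=
      (InvOn.inter hA.good.closure h1).good (fun z hz => AddSubgroup.subset_closure hz.1)
    intro e he
    exact (hA.min _ h2 ⟨g, hgA, hgA, hc.symm⟩ he).2
  -- the value at `g`
  have hvg : ∃ t : ℕ, (({y | y ∈ A ∧ y + g ∈ A}.ncard : ℕ) : ZMod p) =
      (A₁.ncard : ZMod p) + t * (A₁.ncard : ZMod p) ∧ (t = 0 ∨ t = 1) := by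
    have hsplit : {y | y ∈ A ∧ y + g ∈ A} = A₁ ∪
        ({y | y ∈ A ∧ p • (y + g) = 0 ∧ y + g ∈ A} ∪
          {y | y ∈ A ∧ p • y ≠ 0 ∧ p • (y + g) ≠ 0 ∧ y + g ∈ A}) := by
      ext y
      simp only [Set.mem_ofPred_eq, Set.mem_union, hA₁]
      constructor
      · rintro ⟨h1, h2⟩
        by_cases h3 : p • y = 0
        · exact Or.inl ⟨h1, h3⟩
        by_cases h4 : p • (y + g) = 0
        · exact Or.inr (Or.inl ⟨h1, h4, h2⟩)
        · exact Or.inr (Or.inr ⟨h1, h3, h4, h2⟩)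
      · rintro (⟨h1, h2⟩ | ⟨h1, _, h2⟩ | ⟨h1, _, _, h2⟩)
        · refine ⟨h1, ?_⟩
          rw [add_comm]
          exact hfull g hgA hpg y h2
        · exact ⟨h1, h2⟩
        · exact ⟨h1, h2⟩
    have hd3 : p ∣ {y | y ∈ A ∧ p • y ≠ 0 ∧ p • (y + g) ≠ 0 ∧ y + g ∈ A}.ncard := by
      apply dvd_ncard_of_periodic hdG
      rintro z ⟨h1, h2, h3, h4⟩ e he
      refine ⟨hfull z h1 h2 e he, ?_, ?_, ?_⟩
      · rwa [smul_add, he, add_zero]
      · rw [add_right_comm, smul_add _ (z + g), he, add_zero]; exact h3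
      · rw [add_right_comm]; exact hfull _ h4 h3 e he
    rw [hsplit, Set.ncard_union_eq _ (Set.toFinite _) (Set.toFinite _),
      Set.ncard_union_eq _ (Set.toFinite _) (Set.toFinite _)]
    rotate_left
    · rw [Set.disjoint_left]
      rintro y ⟨_, h1, _⟩ ⟨_, _, h2, _⟩
      exact h2 h1
    · rw [Set.disjoint_left]
      rintro y ⟨_, h1⟩ (⟨_, h2, _⟩ | ⟨_, h2, _, _⟩)
      · rw [smul_add, h1, zero_add] at h2
        exact hpg h2
      · exact h2 h1
    have h3z : (({y | y ∈ A ∧ p • y ≠ 0 ∧ p • (y + g) ≠ 0 ∧ y + g ∈ A}.ncard : ℕ) : ZMod p) = 0 :=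
      (ZMod.natCast_eq_zero_iff _ _).2 hd3
    rw [Nat.cast_add, Nat.cast_add, h3z, add_zero]
    by_cases hng : -g ∈ A
    · refine ⟨1, ?_, Or.inr rfl⟩
      have h4 : {y | y ∈ A ∧ p • (y + g) = 0 ∧ y + g ∈ A} = (fun z => z - g) '' A₁ := by
        ext y
        constructor
        · rintro ⟨_, h1, h2⟩
          exact ⟨y + g, ⟨h2, h1⟩, by simp⟩
        · rintro ⟨z, ⟨h1, h2⟩, rfl⟩
          refine ⟨?_, ?_, ?_⟩
          · have := hfull (-g) hng (by rw [smul_neg]; exact neg_ne_zero.2 hpg) z h2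
            rwa [neg_add_eq_sub] at this
          · simpa using h2
          · simpa using h1
      rw [h4, Set.ncard_image_of_injective _ (sub_left_injective), Nat.cast_one, one_mul]
    · refine ⟨0, ?_, Or.inl rfl⟩
      have h4 : {y | y ∈ A ∧ p • (y + g) = 0 ∧ y + g ∈ A} = ∅ := by
        ext y
        simp only [Set.mem_ofPred_eq, Set.mem_empty_iff_false, iff_false]
        rintro ⟨h1, h2, h3⟩
        apply hng
        have h5 : p • y ≠ 0 := by
          intro h
          rw [smul_add, h, zero_add] at h2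
          exact hpg h2
        have h6 := hfull y h1 h5 (-(y + g)) (by rw [smul_neg, h2, neg_zero])
        have h7 : y + -(y + g) = -g := by abel
        rwa [h7] at h6
      rw [h4]; simp
  -- the value at `e`
  have hve : ∀ e ∈ A₁, (({y | y ∈ A ∧ y + e ∈ A}.ncard : ℕ) : ZMod p) =
      (({y | y ∈ A₁ ∧ y + e ∈ A}.ncard : ℕ) : ZMod p) := by
    rintro e ⟨heA, he⟩
    have hsplit : {y | y ∈ A ∧ y + e ∈ A} = {y | y ∈ A₁ ∧ y + e ∈ A} ∪
        {y | y ∈ A ∧ p • y ≠ 0} := by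
      ext y
      simp only [Set.mem_ofPred_eq, Set.mem_union, hA₁]
      constructor
      · rintro ⟨h1, h2⟩
        by_cases h3 : p • y = 0
        · exact Or.inl ⟨⟨h1, h3⟩, h2⟩
        · exact Or.inr ⟨h1, h3⟩
      · rintro (⟨⟨h1, _⟩, h2⟩ | ⟨h1, h2⟩)
        · exact ⟨h1, h2⟩
        · exact ⟨h1, hfull y h1 h2 e he⟩
    have hd3 : p ∣ {y | y ∈ A ∧ p • y ≠ 0}.ncard := by
      apply dvd_ncard_of_periodic hdG
      rintro z ⟨h1, h2⟩ e he
      refine ⟨hfull z h1 h2 e he, ?_⟩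
      rwa [smul_add, he, add_zero]
    rw [hsplit, Set.ncard_union_eq _ (Set.toFinite _) (Set.toFinite _)]
    · rw [Nat.cast_add, (ZMod.natCast_eq_zero_iff _ _).2 hd3, add_zero]
    · rw [Set.disjoint_left]
      rintro y ⟨⟨_, h1⟩, _⟩ ⟨_, h2⟩
      exact h2 h1
  -- `c(e) < r`
  have hlt : ∀ e ∈ A₁, {y | y ∈ A₁ ∧ y + e ∈ A}.ncard < A₁.ncard := by
    rintro e ⟨heA, he⟩
    apply Set.ncard_lt_ncard _ (Set.toFinite _)
    rw [Set.ssubset_iff_subset_ne]
    refine ⟨fun y hy => hy.1, fun heq => ?_⟩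
    have hcl : ∀ y ∈ A₁, y + e ∈ A₁ := by
      intro y hy
      have h1 : y ∈ {y | y ∈ A₁ ∧ y + e ∈ A} := by rw [heq]; exact hy
      refine ⟨h1.2, ?_⟩
      rw [smul_add, hy.2, he, add_zero]
    have hk : ∀ k : ℕ, (k + 1) • e ∈ A₁ := by
      intro k
      induction k with
      | zero => rw [zero_add, one_smul]; exact ⟨heA, he⟩
      | succ k ih => rw [add_smul (k + 1) 1 e, one_smul]; exact hcl _ ih
    have h1 := hk (p - 1)
    rw [Nat.sub_add_cancel hp.one_lt.le, he] at h1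
    exact h0 h1.1
  obtain ⟨t, ht, ht01⟩ := hvg
  have hmod : ∀ e ∈ A₁, (({y | y ∈ A₁ ∧ y + e ∈ A}.ncard : ℕ) : ZMod p) =
      (A₁.ncard : ZMod p) + t * (A₁.ncard : ZMod p) := by
    intro e he
    rw [← hve e he, hconst e he.1, ht]
  rcases ht01 with rfl | rfl
  · -- impossible
    have h1 := hmod e₀ ⟨he₀A, he₀⟩
    rw [Nat.cast_zero, zero_mul, add_zero] at h1
    have h2 := (ZMod.natCast_eq_natCast_iff' _ _ _).1 h1
    have h3 := hlt e₀ ⟨he₀A, he₀⟩
    rw [Nat.mod_eq_of_lt (h3.trans hrp), Nat.mod_eq_of_lt hrp] at h2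
    omega
  · set B : Set G := {b | p • b = 0 ∧ b ∉ A} with hB
    have hBcard : A₁.ncard + B.ncard = p := by
      have h1 : (E G p : Set G) = A₁ ∪ B := by
        ext y
        rw [SetLike.mem_coe, mem_E]
        simp only [hA₁, hB, Set.mem_union, Set.mem_ofPred_eq]
        tauto
      have h2 := card_E_of_dvd hdG
      have h3 : (E G p : Set G).ncard = p := by
        rw [← Nat.card_coe_set_eq]; exact h2
      rw [h1, Set.ncard_union_eq _ (Set.toFinite _) (Set.toFinite _)] at h3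
      · exact h3
      · rw [Set.disjoint_left]
        rintro y ⟨h4, _⟩ ⟨_, h5⟩
        exact h5 h4
    have hQ : ∀ e ∈ A₁, ∀ y ∈ B, y + e ∈ A := by
      rintro e ⟨heA, he⟩
      have h1 : {y | y ∈ B ∧ y + e ∈ A} = B := by
        apply eq_of_subset_ncard (fun y hy => hy.1)
        have h2 : A₁.ncard = {y | y ∈ A₁ ∧ y + e ∈ A}.ncard + {y | y ∈ B ∧ y + e ∈ A}.ncard := by
          rw [← Set.ncard_union_eq _ (Set.toFinite _) (Set.toFinite _)]
          · rw [← Set.ncard_image_of_injective A₁ (sub_left_injective (b := e))]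
            congr 1
            ext y
            constructor
            · rintro ⟨z, ⟨h1, h2⟩, rfl⟩
              have h3 : p • (z - e) = 0 := by rw [smul_sub, h2, he, sub_zero]
              by_cases h4 : z - e ∈ A
              · exact Or.inl ⟨⟨h4, h3⟩, by simpa using h1⟩
              · exact Or.inr ⟨⟨h3, h4⟩, by simpa using h1⟩
            · rintro (⟨⟨h1, h2⟩, h3⟩ | ⟨⟨h1, h2⟩, h3⟩)
              · exact ⟨y + e, ⟨h3, by rw [smul_add, h2, he, add_zero]⟩, by simp⟩
              · exact ⟨y + e, ⟨h3, by rw [smul_add, h1, he, add_zero]⟩, by simp⟩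
          · rw [Set.disjoint_left]
            rintro y ⟨⟨h4, _⟩, _⟩ ⟨⟨_, h5⟩, _⟩
            exact h5 h4
        have h3 := hmod e ⟨heA, he⟩
        have h4 := hlt e ⟨heA, he⟩
        rw [Nat.cast_one, one_mul] at h3
        have h5 : (({y | y ∈ B ∧ y + e ∈ A}.ncard + A₁.ncard : ℕ) : ZMod p) = 0 := by
          have h6 : ((A₁.ncard : ℕ) : ZMod p) = (({y | y ∈ A₁ ∧ y + e ∈ A}.ncard : ℕ) : ZMod p) +
            (({y | y ∈ B ∧ y + e ∈ A}.ncard : ℕ) : ZMod p) := by
            rw [← Nat.cast_add, ← h2]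
          rw [Nat.cast_add]
          rw [h3] at h6
          linear_combination -h6
        rw [ZMod.natCast_eq_zero_iff] at h5
        have h6 := Nat.le_of_dvd (by omega) h5
        omega
      intro y hy
      rw [← h1] at hy
      exact hy.2
    have hsub : ∀ y ∈ B, ∀ z ∈ B, z - y ∈ B := by
      rintro y ⟨hy1, hy2⟩ z ⟨hz1, hz2⟩
      have h1 : p • (z - y) = 0 := by rw [smul_sub, hy1, hz1, sub_zero]
      refine ⟨h1, fun h2 => hz2 ?_⟩
      have := hQ (z - y) ⟨h2, h1⟩ y ⟨hy1, hy2⟩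
      rwa [add_sub_cancel] at this
    have h0B : (0 : G) ∈ B := ⟨by simp, h0⟩
    have hfB : f ∈ B := ⟨hf, hfA⟩
    have hnB : -f ∈ B := by
      have := hsub f hfB 0 h0B
      rwa [zero_sub] at this
    have hk : ∀ k : ℕ, k • f ∈ B := by
      intro k
      induction k with
      | zero => rw [zero_smul]; exact h0B
      | succ k ih =>
        have := hsub (-f) hnB _ ih
        rw [sub_neg_eq_add] at this
        rw [add_smul, one_smul]
        exact this
    obtain ⟨k, hk2⟩ := gen_E hp hf0 hf he₀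
    have := hk k
    rw [← hk2] at this
    exact this.2 he₀A

/-- Schur's theorem -/
theorem MinBlk.schur (hN : MinBlk ψ N) (hnp : ¬ (Nat.card N).Prime) (hA : Good ψ A)
    (hAN : A ⊆ N) {a ν : G} (ha : a ∈ A) (ha0 : a ≠ 0) (hν : ν ∈ N) (hν0 : ν ≠ 0) : ν ∈ A := by
  by_contra hνA
  have hn1 : Nat.card N ≠ 1 := fun h => hN.ne (AddSubgroup.card_eq_one.1 h)
  obtain ⟨p, hp, hd⟩ := Nat.exists_prime_and_dvd hn1
  have hne : Nat.card N ≠ p := fun h => hnp (h ▸ hp)
  have hAU : ∀ A, Good ψ A → A ⊆ N → Good ψ (A \ {0}) := fun A hA _ =>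
    (InvOn.diff hA InvOn.zero).mono Set.sdiff_subset
  obtain ⟨Y, hY, haY⟩ := exists_minGood ψ a
  have hYA : Y ⊆ A \ {0} := hY.min _ (hAU A hA hAN) ⟨a, haY, ha, ha0⟩
  have hcl := hN.closure_eq hA hAN ha ha0
  have hB : Good ψ ((N : Set G) \ A) := by
    have h1 : InvOn ψ N A := by rw [← hcl]; exact hA.closure
    exact (InvOn.diff (hN.blk.invOn N) h1).mono Set.sdiff_subset
  have hB' := hAU _ hB Set.sdiff_subset
  obtain ⟨e, ⟨⟨he1, he2⟩, he3⟩, he4⟩ := hN.meets hp hd hB'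
    (fun x hx => hx.1.1) (fun h => h.2 rfl) ⟨ν, ⟨hν, hνA⟩, hν0⟩
  apply he2
  exact (hYA (hN.tors hp hd hne hY (fun x hx => hAN (hYA hx).1) (fun h => (hYA h).2 rfl)
    he4 he3)).1

end Pool.Agent.Helper40.GS
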