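import Pool.Agent.Helper40.GS.LemK

set_option autoImplicit false
set_option linter.unusedSectionVars false
set_option linter.style.haveILetI false
set_option linter.deprecated false
set_option linter.unusedVariables false

namespace Pool.Agent.Helper40.GS

universe u

/-- all elements of `X` have their `N`-cosets in `X` -/
def Per {G : Type*} [AddCommGroup G] (N : AddSubgroup G) (X : Set G) : Prop :=
  ∀ x ∈ X, ∀ n ∈ N, x + n ∈ X

theorem ncard_loc_eq {G : Type*} [AddCommGroup G] [Finite G] {φ ψ : Equiv.Perm G} {u v : G}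
    {X : Set G} (h : loc φ u '' X ⊆ loc ψ v '' X) : loc φ u '' X = loc ψ v '' X := by
  apply eq_of_subset_ncard h
  rw [Set.ncard_image_of_injective _ (loc φ u).injective,
    Set.ncard_image_of_injective _ (loc ψ v).injective]

theorem lifting {G : Type u} [AddCommGroup G] [Finite G] [IsAddCyclic G] {ψ : Equiv.Perm G}
    {N W V : AddSubgroup G} (hN : Blk ψ N) (hNW : N ⊓ W = ⊥) (hNV : N ≤ V)
    (j : ℕ) (hj : ∀ n ∈ N, j • n = 0 → n = 0) (φ' : Equiv.Perm (G ⧸ N))
    (hφ' : ∀ Z, Good (qperm hN) Z → ∀ u, loc φ' u '' Z = loc (qperm hN) 0 '' Z)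
    (H1 : ∀ (ū : G ⧸ N) (v : G), v ∈ V → ∃ z, qm N z = loc φ' ū (qm N v) ∧ z - j • v ∈ W)
    (H2 : ∀ X, MinGood ψ X → ¬ Per N X → X ⊆ V ∧ ∀ (ū : G ⧸ N), ∀ v ∈ X, ∀ z,
      qm N z = loc φ' ū (qm N v) → z - j • v ∈ W → z ∈ loc ψ 0 '' X) :
    ∃ φ : Equiv.Perm G, ∀ X, Good ψ X → ∀ u, loc φ u '' X = loc ψ 0 '' X := by
  classical
  choose! f hf1 hf2 using H1
  have huniq : ∀ (v z z' : G), qm N z = qm N z' → z - j • v ∈ W → z' - j • v ∈ W → z = z' := by
    intro v z z' h1 h2 h3
    have h4 : z - z' ∈ N ⊓ W := by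
      refine ⟨qm_eq.1 h1, ?_⟩
      have : z - z' = (z - j • v) - (z' - j • v) := by abel
      rw [this]
      exact AddSubgroup.sub_mem _ h2 h3
    rw [hNW] at h4
    exact sub_eq_zero.1 h4
  have hcoc : ∀ (ū : G ⧸ N) (v v' : G), v ∈ V → v' ∈ V →
      f ū (v + v') = f ū v + f (ū + qm N v) v' := by
    intro ū v v' hv hv'
    apply huniq (v + v')
    · rw [hf1 _ _ (AddSubgroup.add_mem _ hv hv'), qm_add, qm_add, loc_add, hf1 _ _ hv, hf1 _ _ hv']
    · exact hf2 _ _ (AddSubgroup.add_mem _ hv hv')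
    · have : f ū v + f (ū + qm N v) v' - j • (v + v') =
          (f ū v - j • v) + (f (ū + qm N v) v' - j • v') := by rw [smul_add]; abel
      rw [this]
      exact AddSubgroup.add_mem _ (hf2 _ _ hv) (hf2 _ _ hv')
  -- representatives
  let r : G → G := fun x => (QuotientAddGroup.mk x : G ⧸ V).out
  have hr : ∀ x, x - r x ∈ V := by
    intro x
    have h1 : (QuotientAddGroup.mk (r x) : G ⧸ V) = QuotientAddGroup.mk x :=
      Quotient.out_eq' _
    rw [QuotientAddGroup.eq] at h1
    rwa [neg_add_eq_sub] at h1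
  have hrV : ∀ x, ∀ v ∈ V, r (x + v) = r x := by
    intro x v hv
    have : (QuotientAddGroup.mk (x + v) : G ⧸ V) = QuotientAddGroup.mk x := by
      rw [QuotientAddGroup.eq, neg_add_rev, neg_add_cancel_right]
      exact AddSubgroup.neg_mem _ hv
    show (QuotientAddGroup.mk (x + v) : G ⧸ V).out = (QuotientAddGroup.mk x : G ⧸ V).out
    rw [this]
  let s : G → G := fun y => (φ' (qm N y)).out
  have hs : ∀ y, qm N (s y) = φ' (qm N y) := fun y => Quotient.out_eq' _
  let g : G → G := fun x => s (r x) + f (qm N (r x)) (x - r x)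
  have hg : ∀ x, g x = s (r x) + f (qm N (r x)) (x - r x) := fun x => rfl
  have hgq : ∀ x, qm N (g x) = φ' (qm N x) := by
    intro x
    rw [hg, qm_add, hs, hf1 _ _ (hr x), loc_apply, ← qm_add, add_sub_cancel, add_sub_cancel]
  have hgV : ∀ x, ∀ v ∈ V, g (x + v) - g x = f (qm N x) v := by
    intro x v hv
    rw [hg, hg, hrV x v hv]
    have h1 : x + v - r x = (x - r x) + v := by abel
    rw [h1, hcoc _ _ _ (hr x) hv]
    have h2 : qm N (r x) + qm N (x - r x) = qm N x := by rw [← qm_add, add_sub_cancel]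
    rw [h2]; abel
  have hginj : Function.Injective g := by
    intro x y hxy
    have h1 : qm N x = qm N y := by
      apply φ'.injective
      rw [← hgq, ← hgq, hxy]
    have h2 : x - y ∈ N := qm_eq.1 h1
    have h3 := hgV y (x - y) (hNV h2)
    rw [add_sub_cancel, hxy, sub_self] at h3
    have h4 : j • (x - y) = 0 := by
      have h5 := hf2 (qm N y) _ (hNV h2)
      rw [← h3, zero_sub] at h5
      have h6 : -(j • (x - y)) ∈ N ⊓ W :=
        ⟨AddSubgroup.neg_mem _ (AddSubgroup.nsmul_mem _ h2 _), h5⟩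
      rw [hNW] at h6
      exact neg_eq_zero.1 h6
    exact sub_eq_zero.1 (hj _ h2 h4)
  let φ : Equiv.Perm G := Equiv.ofBijective g (Finite.injective_iff_bijective.1 hginj)
  have hφ : ∀ x, φ x = g x := fun x => rfl
  have hmin : ∀ X, MinGood ψ X → ∀ u, loc φ u '' X ⊆ loc ψ 0 '' X := by
    intro X hX u
    by_cases hper : Per N X
    · rintro _ ⟨x, hx, rfl⟩
      have h1 : qm N (loc φ u x) ∈ loc φ' (qm N u) '' (qm N '' X) := by
        refine ⟨qm N x, ⟨x, hx, rfl⟩, ?_⟩
        rw [loc_apply, loc_apply, qm_sub, hφ, hφ, hgq, hgq, qm_add]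
      rw [hφ' _ (hX.good.image_qm hN)] at h1
      have h2 : loc (qperm hN) 0 '' (qm N '' X) = qm N '' (loc ψ 0 '' X) := loc_image_qm hN 0 X
      rw [h2] at h1
      obtain ⟨_, ⟨y, hy, rfl⟩, hyx⟩ := h1
      have h3 : loc φ u x - loc ψ 0 y ∈ N := qm_eq.1 hyx.symm
      have h4 : loc φ u x - loc ψ 0 y ∈ loc ψ (0 + y) '' (N : Set G) := by
        rw [hN]; exact h3
      obtain ⟨n, hn, hne⟩ := h4
      refine ⟨y + n, hper y hy n hn, ?_⟩
      rw [loc_add, hne, add_sub_cancel]
    · obtain ⟨hXV, hX2⟩ := H2 X hX hper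
      rintro _ ⟨x, hx, rfl⟩
      have h1 : loc φ u x = f (qm N u) x := by
        rw [loc_apply, hφ, hφ, hgV u x (hXV hx)]
      rw [h1]
      exact hX2 (qm N u) x hx _ (hf1 _ _ (hXV hx)) (hf2 _ _ (hXV hx))
  refine ⟨φ, fun X hX u => ncard_loc_eq ?_⟩
  rintro _ ⟨x, hx, rfl⟩
  obtain ⟨Y, hY, hxY⟩ := exists_minGood ψ x
  have hYX := hY.min X hX ⟨x, hxY, hx⟩
  obtain ⟨y, hy, hyx⟩ := hmin Y hY u ⟨x, hxY, rfl⟩
  exact ⟨y, hYX hy, hyx⟩

theorem exists_greatest {G : Type*} [AddCommGroup G] [Finite G] [IsAddCyclic G]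
    (ψ : Equiv.Perm G) (N : AddSubgroup G) : ∃ W, Blk ψ W ∧ N ⊓ W = ⊥ ∧
      ∀ W', Blk ψ W' → N ⊓ W' = ⊥ → W' ≤ W := by
  classical
  have hfin : Set.Finite {W : AddSubgroup G | Blk ψ W ∧ N ⊓ W = ⊥} := Set.toFinite _
  obtain ⟨W, ⟨hW, hNW⟩, hmax⟩ := Set.exists_max_image _ (fun W : AddSubgroup G => Nat.card W) hfin
    ⟨⊥, Blk.bot, inf_bot_eq N⟩
  refine ⟨W, hW, hNW, fun W' hW' hNW' => ?_⟩
  have h1 : N ⊓ (W ⊔ W') = ⊥ := by
    rw [inf_eq_bot_iff] at hNW hNW' ⊢
    have h2 : W ⊔ W' ≤ E G (Nat.card W * Nat.card W') := by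
      apply sup_le
      · intro x hx
        rw [mem_E, mul_comm, mul_smul, mem_iff.1 hx, smul_zero]
      · intro x hx
        rw [mem_E, mul_smul, mem_iff.1 hx, smul_zero]
    have h3 := AddSubgroup.card_dvd_of_le h2
    rw [card_E] at h3
    exact Nat.Coprime.coprime_dvd_right (h3.trans (Nat.gcd_dvd_right _ _))
      (Nat.Coprime.mul_right hNW hNW')
  have h2 := hmax (W ⊔ W') ⟨hW.sup hW', h1⟩
  have h3 : W = W ⊔ W' := AddSubgroup.eq_of_le_of_card_ge le_sup_left h2
  rw [h3]
  exact le_sup_right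

/-- the product case -/
theorem prodCase {G : Type u} [AddCommGroup G] [Finite G] [IsAddCyclic G] {ψ : Equiv.Perm G}
    {N W : AddSubgroup G} (hN : Blk ψ N) (hW : Blk ψ W) (hNW : N ⊓ W = ⊥)
    (hXV : ∀ X, MinGood ψ X → ¬ Per N X → X ⊆ (N ⊔ W : AddSubgroup G))
    (j : ℕ) (hj : ∀ n ∈ N, j • n = 0 → n = 0) (φ' : Equiv.Perm (G ⧸ N))
    (hφ' : ∀ Z, Good (qperm hN) Z → ∀ u, loc φ' u '' Z = loc (qperm hN) 0 '' Z)
    (Hj : ∀ X, MinGood ψ X → ¬ Per N X → ∀ ν ∈ N, ∀ w ∈ W, ν + w ∈ X →
      ∃ ν₁ ∈ N, ν₁ + w ∈ X ∧ loc ψ 0 ν₁ = j • ν) :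
    ∃ φ : Equiv.Perm G, ∀ X, Good ψ X → ∀ u, loc φ u '' X = loc ψ 0 '' X := by
  have hN0 : ∀ ν ∈ N, ∀ w, qm N (ν + w) = qm N w := by
    intro ν hν w
    rw [qm_eq, add_sub_cancel_right]; exact hν
  apply lifting (W := W) (V := N ⊔ W) hN hNW le_sup_left j hj φ' hφ'
  · intro ū v hv
    obtain ⟨ν, hν, w, hw, rfl⟩ := AddSubgroup.mem_sup.1 hv
    have h1 : loc φ' ū (qm N w) ∈ loc φ' ū '' (qm N '' (W : Set G)) := ⟨_, ⟨w, hw, rfl⟩, rfl⟩
    rw [hφ' _ (hW.good.image_qm hN)] at h1
    have h2 : loc (qperm hN) 0 '' (qm N '' (W : Set G)) = qm N '' (loc ψ 0 '' (W : Set G)) :=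
      loc_image_qm hN 0 _
    rw [h2, hW] at h1
    obtain ⟨w', hw', he⟩ := h1
    refine ⟨j • ν + w', ?_, ?_⟩
    · rw [hN0 _ (AddSubgroup.nsmul_mem _ hν _), hN0 _ hν, he]
    · have : j • ν + w' - j • (ν + w) = w' - j • w := by rw [smul_add]; abel
      rw [this]
      exact AddSubgroup.sub_mem _ hw' (AddSubgroup.nsmul_mem _ hw _)
  · intro X hX hper
    refine ⟨hXV X hX hper, ?_⟩
    intro ū v hv z hz1 hz2
    obtain ⟨ν, hν, w, hw, rfl⟩ := AddSubgroup.mem_sup.1 (hXV X hX hper hv)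
    have hWN : W ⊓ N = ⊥ := by rw [inf_comm]; exact hNW
    have hS : Good ψ {w' | w' ∈ W ∧ w' + ν ∈ X} := hX.good.fib hW hN hWN hν
    have h1 : loc φ' ū (qm N w) ∈ loc φ' ū '' (qm N '' {w' | w' ∈ W ∧ w' + ν ∈ X}) :=
      ⟨_, ⟨w, ⟨hw, by rw [add_comm]; exact hv⟩, rfl⟩, rfl⟩
    rw [hφ' _ (hS.image_qm hN)] at h1
    have h2 : loc (qperm hN) 0 '' (qm N '' {w' | w' ∈ W ∧ w' + ν ∈ X}) =
        qm N '' (loc ψ 0 '' {w' | w' ∈ W ∧ w' + ν ∈ X}) := loc_image_qm hN 0 _
    rw [h2] at h1
    obtain ⟨_, ⟨w₁, ⟨hw₁, hw₁X⟩, rfl⟩, he⟩ := h1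
    have h3 : z - j • ν ∈ W := by
      have : z - j • ν = (z - j • (ν + w)) + j • w := by rw [smul_add]; abel
      rw [this]
      exact AddSubgroup.add_mem _ hz2 (AddSubgroup.nsmul_mem _ hw _)
    have h4 : z - j • ν - loc ψ 0 w₁ ∈ N ⊓ W := by
      refine AddSubgroup.mem_inf.2 ⟨?_, AddSubgroup.sub_mem _ h3 (hW.loc_mem.2 hw₁)⟩
      rw [← qm_eq_zero, qm_sub, qm_sub, hz1, he, hN0 _ hν]
      have h5 : qm N (j • ν) = 0 := qm_eq_zero.2 (AddSubgroup.nsmul_mem _ hν _)
      rw [h5]; abel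
    rw [hNW] at h4
    have h5 : z = j • ν + loc ψ 0 w₁ := by
      have := sub_eq_zero.1 h4
      rw [← this]; abel
    obtain ⟨ν₁, hν₁, hν₁X, hν₁e⟩ := Hj X hX hper ν hν w₁ hw₁ (by rw [add_comm]; exact hw₁X)
    refine ⟨ν₁ + w₁, hν₁X, ?_⟩
    rw [loc_add' hN hW hNW hν₁ hw₁, hν₁e, h5]

theorem thmB_aux (n : ℕ) : ∀ (G : Type u) [AddCommGroup G] [Finite G] [IsAddCyclic G]
    (_ : Odd (Nat.card G)) (_ : Nat.card G ≤ n) (ψ : Equiv.Perm G),
    ∃ φ : Equiv.Perm G, ∀ X, Good ψ X → ∀ u, loc φ u '' X = loc ψ 0 '' X := by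
  induction n with
  | zero =>
    intro G _ _ _ _ h
    exact absurd h (by have := Nat.card_pos (α := G); omega)
  | succ n ih =>
    intro G _ _ _ hcard hn ψ
    by_cases htriv : (⊤ : AddSubgroup G) = ⊥
    · refine ⟨ψ, fun X hX u => ?_⟩
      have : u = 0 := by
        have h1 : u ∈ (⊤ : AddSubgroup G) := trivial
        rw [htriv] at h1
        exact h1
      rw [this]
    obtain ⟨N, hN, -⟩ := exists_minBlk (ψ := ψ) Blk.top htriv
    have hn1 : Nat.card N ≠ 1 := fun h => hN.ne (AddSubgroup.card_eq_one.1 h)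
    have hcN := AddSubgroup.card_eq_card_quotient_mul_card_addSubgroup N
    have hcardq : Odd (Nat.card (G ⧸ N)) := by
      rw [hcN] at hcard
      exact Nat.Odd.of_mul_left hcard
    have hltq : Nat.card (G ⧸ N) ≤ n := by
      have h1 : 0 < Nat.card N := Nat.card_pos
      have h2 : 0 < Nat.card (G ⧸ N) := Nat.card_pos
      have h3 : Nat.card (G ⧸ N) * 2 ≤ Nat.card (G ⧸ N) * Nat.card N :=
        Nat.mul_le_mul_left _ (by omega)
      omega
    obtain ⟨φ', hφ'⟩ := ih (G ⧸ N) hcardq hltq (qperm hN.blk)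
    obtain ⟨W, hW, hNW, hWmax⟩ := exists_greatest ψ N
    by_cases hnp : (Nat.card N).Prime
    swap
    · -- composite case
      apply prodCase hN.blk hW hNW _ 1 (by intro n _ h; rwa [one_smul] at h) φ' hφ'
      · intro X hX hper ν hν w hw hx
        have hD : Good ψ {n | n ∈ N ∧ n + w ∈ X} := hX.good.fib hN.blk hW hNW hw
        rw [one_smul]
        have h1 : ν ∈ loc ψ 0 '' (N : Set G) := by rw [hN.blk]; exact hν
        obtain ⟨ν₁, hν₁, he⟩ := h1
        refine ⟨ν₁, hν₁, ?_, he⟩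
        by_cases hν0 : ν = 0
        · have : ν₁ = 0 := by rw [← loc_eq_zero (ψ := ψ) (u := 0), he, hν0]
          rw [this, ← hν0]; exact hx
        · have hν1 : ν₁ ≠ 0 := by
            rintro rfl
            apply hν0
            rw [← he, loc_zero]
          exact (hN.schur hnp hD (fun n hn => hn.1) (show ν ∈ {n | n ∈ N ∧ n + w ∈ X} from
            ⟨hν, hx⟩) hν0 hν₁ hν1).2
      · intro X hX hper
        obtain ⟨W', hW', hNW', hXW⟩ := hX.cover hcard hN hnp hper
        exact hXW.trans (sup_le_sup_left (hWmax W' hW' hNW') N)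
    -- prime case
    obtain ⟨p, hpdef⟩ : ∃ p, p = Nat.card N := ⟨_, rfl⟩
    rw [← hpdef] at hnp
    have hp := hnp
    have hNE : N = E G p := by rw [hpdef]; exact eq_E_card N
    have hd : p ∣ Nat.card G := by
      rw [hpdef]; exact AddSubgroup.card_addSubgroup_dvd_card N
    have hodd : Odd p := hcard.of_dvd_nat hd
    obtain ⟨a, M, hM', hG⟩ := Nat.exists_eq_pow_mul_and_not_dvd (n := Nat.card G)
      Nat.card_pos.ne' p hp.ne_one
    have hM : p.Coprime M := (Nat.Prime.coprime_iff_not_dvd hp).2 hM'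
    have hMG : M ∣ Nat.card G := ⟨p ^ a, by rw [hG]; ring⟩
    have hE : Blk ψ (E G p) := by rw [← hNE]; exact hN.blk
    have hPerFull : ∀ X, ¬ Per N X → ¬ ∀ x ∈ X, Full p X x := by
      intro X hper hcon
      apply hper
      intro x hx n hn
      rw [hNE, mem_E] at hn
      exact hcon x hx n hn
    have hMcop : ∀ W', W' ≤ E G M → N ⊓ W' = ⊥ := by
      intro W' hW'
      rw [inf_eq_bot_iff, ← hpdef]
      have h1 := AddSubgroup.card_dvd_of_le hW'
      rw [card_E_of_dvd hMG] at h1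
      exact Nat.Coprime.coprime_dvd_right h1 hM
    have hWp : p.Coprime (Nat.card W) := by
      rw [hpdef, ← inf_eq_bot_iff]; exact hNW
    have hWM : ∀ w ∈ W, M • w = 0 := by
      intro w hw
      have h1 : Nat.card W ∣ M := by
        have h2 := AddSubgroup.card_addSubgroup_dvd_card W
        rw [hG] at h2
        exact Nat.Coprime.dvd_of_dvd_mul_left (Nat.Coprime.pow_right a hWp.symm) h2
      obtain ⟨c, hc⟩ := h1
      rw [hc, mul_comm, mul_smul, mem_iff.1 hw, smul_zero]
    -- type 1 sets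
    have htype1 : ∀ X, MinGood ψ X → ¬ Per N X → (∀ x ∈ X, (p * M) • x = 0) →
        X ⊆ (N ⊔ W : AddSubgroup G) := by
      intro X hX hper hI
      have hW'b := type1_blk hp hd hE hX (hPerFull X hper)
      have hW'M : AddSubgroup.closure ((fun x => p • x) '' X) ≤ E G M := by
        apply closure_le_E
        rintro _ ⟨x, hx, rfl⟩
        show M • (p • x) = 0
        rw [← mul_smul, mul_comm]
        exact hI x hx
      have hW'W := hWmax _ hW'b (hMcop _ hW'M)
      intro x hx
      have h1 : p • x ∈ W := hW'W (AddSubgroup.subset_closure ⟨x, hx, rfl⟩)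
      apply mem_sup_of_nsmul h1 hWp
      intro e he
      rw [hNE, mem_E]; exact he
    by_cases hII : ∃ X, MinGood ψ X ∧ ¬ Per N X ∧ ∃ s, T2 ψ p a M s X
    swap
    · -- product case
      have hallI : ∀ X, MinGood ψ X → ¬ Per N X → ∀ x ∈ X, (p * M) • x = 0 := by
        intro X hX hper
        rcases hX.prime_type hp hG hd hE (hPerFull X hper) with h | ⟨s, hs, hr, hall⟩
        · exact h
        · exact absurd ⟨X, hX, hper, s, hp, hodd, hG, hM, hd, hs, hX, hE, hr, hall⟩ hII
      obtain ⟨e₀, he₀0, he₀⟩ := E_ne_bot hp hd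
      have he₀N : e₀ ∈ N := by rw [hNE, mem_E]; exact he₀
      have hl : p • loc ψ 0 e₀ = 0 := by
        have := hN.blk.loc_mem (u := 0) (x := e₀)
        rw [← mem_E, ← hNE]; exact this.2 he₀N
      obtain ⟨j, hj⟩ := gen_E hp he₀0 he₀ hl
      have hjp : j.Coprime p := by
        rw [Nat.coprime_comm, Nat.Prime.coprime_iff_not_dvd hp]
        rintro ⟨c, hc⟩
        apply he₀0
        rw [← loc_eq_zero (ψ := ψ) (u := 0), hj, hc, mul_comm, mul_smul, he₀, smul_zero]
      apply prodCase hN.blk hW hNW _ j _ φ' hφ'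
      · -- Hj
        intro X hX hper ν hν w hw hx
        have hνp : p • ν = 0 := by rw [hNE, mem_E] at hν; exact hν
        by_cases hν0 : ν = 0
        · exact ⟨0, AddSubgroup.zero_mem _, by rw [← hν0]; exact hx, by
            rw [loc_zero, hν0, smul_zero]⟩
        obtain ⟨k₀, hk₀⟩ := gen_E hp he₀0 he₀ hνp
        have hk₀p : ¬ p ∣ k₀ := by
          rintro ⟨c, hc⟩
          apply hν0
          rw [hk₀, hc, mul_comm, mul_smul, he₀, smul_zero]
        have hcop : (p ^ a).Coprime M := Nat.Coprime.pow_left a hM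
        obtain ⟨k, hk1, hk2⟩ := Nat.chineseRemainder hcop k₀ 1
        have ha : a ≠ 0 := by
          intro h
          rw [h, pow_zero, one_mul] at hG
          rw [hG] at hd
          exact hM' hd
        have hk1p : k ≡ k₀ [MOD p] := hk1.of_dvd (dvd_pow_self p ha)
        have hkc : k.Coprime (Nat.card G) := by
          rw [hG]
          apply Nat.Coprime.mul_right
          · apply Nat.Coprime.pow_right
            rw [Nat.coprime_comm, Nat.Prime.coprime_iff_not_dvd hp]
            intro hpk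
            exact hk₀p ((hk1p.dvd_iff dvd_rfl).1 hpk)
          · have h6 := hk2.gcd_eq
            rw [Nat.gcd_one_left] at h6
            exact h6
        have hG1 : 1 < Nat.card G := by
          have h1 := Nat.le_of_dvd Nat.card_pos hd
          have h2 := hp.one_lt
          omega
        obtain ⟨l, hl'⟩ := Nat.exists_mul_mod_eq_one_of_coprime hkc hG1
        have hkl : ∀ x : G, k • (l • x) = x := by
          intro x
          have h1 : k * l ≡ 1 [MOD Nat.card G] := by
            unfold Nat.ModEq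
            rw [hl'.2, Nat.mod_eq_of_lt hG1]
          rw [← mul_smul, nsmul_congr h1 card_nsmul_eq_zero', one_smul]
        have hlk : ∀ x : G, l • (k • x) = x := by
          intro x
          rw [smul_comm]; exact hkl x
        have hlc : l.Coprime (Nat.card G) := by
          have h1 : k * l ≡ 1 [MOD Nat.card G] := by
            unfold Nat.ModEq
            rw [hl'.2, Nat.mod_eq_of_lt hG1]
          have h2 : (k * l).Coprime (Nat.card G) := by
            have h6 := h1.gcd_eq
            rw [Nat.gcd_one_left] at h6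
            exact h6
          exact Nat.Coprime.coprime_mul_left h2
        have hkν : k • e₀ = ν := by rw [nsmul_congr hk1p he₀, hk₀]
        have hkw : ∀ w ∈ W, k • w = w := by
          intro w hw
          rw [nsmul_congr hk2 (hWM w hw), one_smul]
        have h1 : e₀ + w ∈ (fun x => l • x) '' X := by
          refine ⟨ν + w, hx, ?_⟩
          show l • (ν + w) = e₀ + w
          rw [smul_add, ← hkν, hlk]
          congr 1
          conv_lhs => rw [← hkw w hw, hlk]
        have h2 : k • loc ψ 0 (e₀ + w) ∈ loc ψ 0 '' X := by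
          have h3 : (fun x => k • x) '' ((fun x => l • x) '' X) = X := by
            rw [Set.image_image]
            simp only [hkl, Set.image_id']
          have h4 := mult k hkc (mult_good hlc hX.good) 0
          rw [h3] at h4
          rw [h4]
          exact ⟨_, ⟨_, h1, rfl⟩, rfl⟩
        have h3 : k • loc ψ 0 (e₀ + w) = j • ν + loc ψ 0 w := by
          rw [loc_add' hN.blk hW hNW he₀N hw, smul_add, hkw _ (hW.loc_mem.2 hw), hj, smul_comm,
            hkν]
        rw [h3] at h2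
        have h4 : j • ν ∈ loc ψ 0 '' (N : Set G) := by
          rw [hN.blk]; exact AddSubgroup.nsmul_mem _ hν _
        obtain ⟨ν₁, hν₁, he⟩ := h4
        refine ⟨ν₁, hν₁, ?_, he⟩
        rw [← he, ← loc_add' hN.blk hW hNW hν₁ hw, (loc ψ 0).injective.mem_set_image] at h2
        exact h2
      · exact fun X hX hper => htype1 X hX hper (hallI X hX hper)
      · intro n hn h0
        rw [hNE, mem_E] at hn
        exact smul_eq_zero_of_coprime hjp h0 hn
    · -- rigid case
      have hfin : Set.Finite {s | ∃ X, MinGood ψ X ∧ ¬ Per N X ∧ T2 ψ p a M s X} := by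
        apply (Set.finite_le_nat a).subset
        rintro s ⟨X, hX, -, hT⟩
        obtain ⟨x, hx⟩ := hX.ne
        by_contra hlt
        have hlt' : a < s := not_le.1 hlt
        apply hT.hh_ne (Or.inl rfl) hx
        unfold hh
        have : p ^ (s - 1) * M = p ^ (s - 1 - a) * (p ^ a * M) := by
          rw [← mul_assoc, ← pow_add]; congr 2; omega
        rw [this, mul_smul, ← hG, card_nsmul_eq_zero', smul_zero]
      obtain ⟨X', hX'1, hX'2, s', hX'3⟩ := hII
      obtain ⟨s, ⟨X₁, hX₁, hper₁, hT⟩, hsmax⟩ := Set.exists_max_image _ id hfin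
        ⟨s', X', hX'1, hX'2, hX'3⟩
      have hs := hT.hs
      -- the block `W'` of `X₁`
      have hWX : ∀ s X, MinGood ψ X → ¬ Per N X → T2 ψ p a M s X → ∀ x ∈ X, p ^ s • x ∈ W := by
        intro s X hX hper hT x hx
        have hb := type2_blk hp hodd hG hM hd hT.hs hX hT.hr hT.hall
        have hbM : AddSubgroup.closure ((fun x => p ^ s • x) '' X) ≤ E G M := by
          apply closure_le_E
          rintro _ ⟨x, hx, rfl⟩
          show M • (p ^ s • x) = 0
          rw [← mul_smul, mul_comm]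
          exact hT.hall x hx
        exact hWmax _ hb (hMcop _ hbM) (AddSubgroup.subset_closure ⟨x, hx, rfl⟩)
      set U := AddSubgroup.closure X₁ with hU
      have hUb : Blk ψ U := hX₁.good.blk
      have hpU : ∀ v ∈ U, p ^ s • v ∈ W := by
        intro v hv
        have h1 : U ≤ W.comap (nsmulAddMonoidHom (p ^ s)) := by
          rw [hU, AddSubgroup.closure_le]
          intro x hx
          exact hWX s X₁ hX₁ hper₁ hT x hx
        exact h1 hv
      have htorsU : ∀ e, p ^ s • e = 0 → e ∈ U := by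
        intro e he
        obtain ⟨x, hx⟩ := hX₁.ne
        have hord : addOrderOf (M • x) = p ^ (s - 1 + 1) := by
          have : Fact p.Prime := ⟨hp⟩
          apply addOrderOf_eq_prime_pow
          · intro h0
            apply hT.hh_ne (Or.inl rfl) hx
            unfold hh; rw [mul_smul]; exact h0
          · rw [Nat.sub_add_cancel (by omega), ← mul_smul]
            exact hT.hall x hx
        rw [Nat.sub_add_cancel (by omega)] at hord
        obtain ⟨c, rfl⟩ := gen_of_order hord he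
        exact AddSubgroup.nsmul_mem _ (nsmul_mem_closure _ hx) _
      set V := U ⊔ W with hV
      have hVb : Blk ψ V := hUb.sup hW
      have hNU : N ≤ U := by
        intro e he
        rw [hNE, mem_E] at he
        exact hT.tors_mem he
      have hNV : N ≤ V := hNU.trans le_sup_left
      have hWV : W ≤ V := le_sup_right
      have hpV : ∀ v ∈ V, p ^ s • v ∈ W := by
        intro v hv
        obtain ⟨y, hy, w, hw, rfl⟩ := AddSubgroup.mem_sup.1 hv
        rw [smul_add]
        exact AddSubgroup.add_mem _ (hpU y hy) (AddSubgroup.nsmul_mem _ hw _)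
      have hXV : ∀ X, MinGood ψ X → ¬ Per N X → X ⊆ V := by
        intro X hX hper
        rcases hX.prime_type hp hG hd hE (hPerFull X hper) with h | ⟨r, hr2, hr, hall⟩
        · exact (htype1 X hX hper h).trans (sup_le_sup_right hNU W)
        · have hTX : T2 ψ p a M r X := ⟨hp, hodd, hG, hM, hd, hr2, hX, hE, hr, hall⟩
          have hrs : r ≤ s := hsmax r ⟨X, hX, hper, hTX⟩
          intro x hx
          apply mem_sup_of_nsmul (q := p ^ s)
          · have h1 := hWX r X hX hper hTX x hx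
            have : p ^ s = p ^ (s - r) * p ^ r := by
              rw [← pow_add, Nat.sub_add_cancel hrs]
            rw [this, mul_smul]
            exact AddSubgroup.nsmul_mem _ h1 _
          · exact Nat.Coprime.pow_left s hWp
          · exact htorsU
      -- elements of `V` of order prime to `p` lie in `W`
      have hcopW : ∀ v ∈ V, Cop p v → v ∈ W := by
        rintro v hv ⟨m, hm, hmv⟩
        have hc : (p ^ s).Coprime m := Nat.Coprime.pow_left s hm
        obtain ⟨k, hk1, hk2⟩ := Nat.chineseRemainder hc 0 1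
        rw [Nat.modEq_zero_iff_dvd] at hk1
        obtain ⟨c, hc⟩ := hk1
        have h1 : k • v = v := by rw [nsmul_congr hk2 hmv, one_smul]
        rw [← h1, hc, mul_comm, mul_smul]
        exact AddSubgroup.nsmul_mem _ (hpV v hv) _
      have hWcop : ∀ w ∈ W, Cop p w := fun w hw => ⟨M, hM, hWM w hw⟩
      have hJ : ∀ u, ∃ j : ℕ, ∀ v ∈ V, loc ψ u v - j • v ∈ W := by
        intro u
        obtain ⟨x₁, hx₁⟩ := hX₁.ne
        obtain ⟨j, hj⟩ := lemK (Nat.card U) G hcard ψ X₁ p hp hE hX₁ (hPerFull X₁ hper₁)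
          ⟨x₁, hx₁, hT.big hx₁⟩ le_rfl u
        refine ⟨j, fun v hv => ?_⟩
        apply hcopW
        · exact AddSubgroup.sub_mem _ (hVb.loc_mem.2 hv) (AddSubgroup.nsmul_mem _ hv _)
        · obtain ⟨y, hy, w, hw, rfl⟩ := AddSubgroup.mem_sup.1 hv
          have h1 : loc ψ u (y + w) - j • (y + w) =
              (loc ψ u y - j • y) + (loc ψ (u + y) w + -(j • w)) := by
            rw [loc_add, smul_add]; abel
          rw [h1]
          exact (hj y hy).add ((hWcop _ (hW.loc_mem.2 hw)).add ((hWcop w hw).nsmul j).neg)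
      have hK1 : ∀ u, ∀ x ∈ V, ∀ v ∈ V, loc ψ (u + x) v - loc ψ u v ∈ W := by
        intro u x hx v hv
        obtain ⟨j, hj⟩ := hJ u
        have h1 : loc ψ (u + x) v - loc ψ u v = (loc ψ u (x + v) - j • (x + v)) -
            (loc ψ u x - j • x) - (loc ψ u v - j • v) := by
          rw [loc_add, smul_add]; abel
        rw [h1]
        exact AddSubgroup.sub_mem _ (AddSubgroup.sub_mem _
          (hj _ (AddSubgroup.add_mem _ hx hv)) (hj _ hx)) (hj _ hv)
      have hCinv : ∀ v ∈ V, InvOn ψ V {y | y - v ∈ W} := by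
        intro v hv
        have h1 : ∀ u, loc ψ u '' {y | y - v ∈ W} = {y | y - loc ψ u v ∈ W} := by
          intro u
          ext y
          obtain ⟨g, rfl⟩ := (loc ψ u).surjective y
          rw [(loc ψ u).injective.mem_set_image]
          show g - v ∈ W ↔ loc ψ u g - loc ψ u v ∈ W
          rw [loc_sub, hW.loc_mem]
        intro u x hx
        rw [h1, h1]
        have h2 := hK1 u x hx v hv
        ext y
        show y - loc ψ (u + x) v ∈ W ↔ y - loc ψ u v ∈ W
        have h3 : y - loc ψ u v = (y - loc ψ (u + x) v) + (loc ψ (u + x) v - loc ψ u v) := by abel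
        rw [h3, AddSubgroup.add_mem_cancel_right _ h2]
      have hCV : ∀ v ∈ V, {y | y - v ∈ W} ⊆ (V : Set G) := by
        intro v hv y hy
        have : y = (y - v) + v := by abel
        rw [this]
        exact AddSubgroup.add_mem _ (hWV hy) hv
      obtain ⟨j, hj⟩ := hJ 0
      have hdiff : ∀ v ∈ V, ∀ y, y - v ∈ W → loc ψ 0 y - j • v ∈ W := by
        intro v hv y hy
        have h1 : loc ψ 0 y - j • v = (loc ψ 0 y - loc ψ 0 v) + (loc ψ 0 v - j • v) := by abel
        rw [h1, loc_sub]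
        exact AddSubgroup.add_mem _ (hW.loc_mem.2 hy) (hj v hv)
      apply lifting (W := W) (V := V) hN.blk hNW hNV j _ φ' hφ'
      · intro ū v hv
        have hC : Good ψ {y | y - v ∈ W} := (hCinv v hv).good (hCV v hv)
        have h1 : loc φ' ū (qm N v) ∈ loc φ' ū '' (qm N '' {y | y - v ∈ W}) :=
          ⟨_, ⟨v, by show v - v ∈ W; rw [sub_self]; exact AddSubgroup.zero_mem _, rfl⟩, rfl⟩
        rw [hφ' _ (hC.image_qm hN.blk)] at h1
        have h2 : loc (qperm hN.blk) 0 '' (qm N '' {y | y - v ∈ W}) =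
            qm N '' (loc ψ 0 '' {y | y - v ∈ W}) := loc_image_qm hN.blk 0 _
        rw [h2] at h1
        obtain ⟨_, ⟨y, hy, rfl⟩, he⟩ := h1
        exact ⟨loc ψ 0 y, he, hdiff v hv y hy⟩
      · intro X hX hper
        have hXV' := hXV X hX hper
        refine ⟨hXV', ?_⟩
        intro ū v hv z hz1 hz2
        have hvV := hXV' hv
        have hZ : Good ψ (X ∩ {y | y - v ∈ W}) := by
          refine (InvOn.inter hX.good ((hCinv v hvV).mono hXV')).mono Set.inter_subset_left
        have h1 : loc φ' ū (qm N v) ∈ loc φ' ū '' (qm N '' (X ∩ {y | y - v ∈ W})) :=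
          ⟨_, ⟨v, ⟨hv, by show v - v ∈ W; rw [sub_self]; exact AddSubgroup.zero_mem _⟩, rfl⟩, rfl⟩
        rw [hφ' _ (hZ.image_qm hN.blk)] at h1
        have h2 : loc (qperm hN.blk) 0 '' (qm N '' (X ∩ {y | y - v ∈ W})) =
            qm N '' (loc ψ 0 '' (X ∩ {y | y - v ∈ W})) := loc_image_qm hN.blk 0 _
        rw [h2] at h1
        obtain ⟨_, ⟨y, ⟨hyX, hyW⟩, rfl⟩, he⟩ := h1
        have h3 := hdiff v hvV y hyW
        have h4 : z - loc ψ 0 y ∈ N ⊓ W := by
          refine ⟨qm_eq.1 (by rw [hz1, he]), ?_⟩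
          have : z - loc ψ 0 y = (z - j • v) - (loc ψ 0 y - j • v) := by abel
          rw [this]
          exact AddSubgroup.sub_mem _ hz2 h3
        rw [hNW] at h4
        rw [sub_eq_zero.1 h4]
        exact ⟨y, hyX, rfl⟩
      · intro n hn h0
        have h1 := hj n (hNV hn)
        rw [h0, sub_zero] at h1
        have h2 : loc ψ 0 n ∈ N ⊓ W := ⟨hN.blk.loc_mem.2 hn, h1⟩
        rw [hNW] at h2
        exact loc_eq_zero.1 h2

/-- **Theorem B** -/
theorem thmB {G : Type u} [AddCommGroup G] [Finite G] [IsAddCyclic G]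
    (hcard : Odd (Nat.card G)) (ψ : Equiv.Perm G) :
    ∃ φ : Equiv.Perm G, ∀ X, Good ψ X → ∀ u, loc φ u '' X = loc ψ 0 '' X :=
  thmB_aux (Nat.card G) G hcard le_rfl ψ

end Pool.Agent.Helper40.GS
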