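import Pool.Agent.Helper40.Circ
import Pool.Agent.Helper40.GS.Graph2

set_option autoImplicit false
set_option linter.unusedSectionVars false
set_option linter.style.haveILetI false
set_option linter.deprecated false
set_option linter.unusedVariables false

namespace Pool.Agent.Helper40.TF

open Pool.Agent.Helper40.GR

/-- The full theorem. -/
theorem full_thm {m : ℕ} (hm : Odd m) {S : Set (ZMod (2 * m))} (hS : ∀ x ∈ S, -x ∈ S)
    {Γ : SimpleGraph (ZMod (2 * m))} (hΓ : ∀ x y, Γ.Adj x y ↔ y - x ∈ S)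
    (hu : NontriviallyUnstable Γ) (hII : TypeII m Γ) :
    ∃ φ : Equiv.Perm (ZMod (2 * m)), ∀ x y, Γ.Adj x y ↔ φ y - φ x ∈ shift m S := by
  obtain ⟨hst, hc, hb, htw⟩ := hu
  have hm0 : m ≠ 0 := by rintro rfl; exact absurd hm (by decide)
  haveI : NeZero m := ⟨hm0⟩
  haveI : NeZero (2 * m) := ⟨by omega⟩
  have hcop : Nat.Coprime 2 m := hm.coprime_two_left
  let e : ZMod (2 * m) ≃+* ZMod 2 × ZMod m := ZMod.chineseRemainder hcop
  have he1 : ∀ x, (e x).1 = par m x := by
    intro x
    have h1 : (RingHom.fst (ZMod 2) (ZMod m)).comp (e : ZMod (2 * m) →+* ZMod 2 × ZMod m) =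
        par m := RingHom.ext_zmod _ _
    exact congrArg (fun f : ZMod (2 * m) →+* ZMod 2 => f x) h1
  have hem : e (m : ZMod (2 * m)) = (1, 0) := by
    rw [map_natCast]
    refine Prod.ext ?_ ?_
    · show ((m : ZMod 2 × ZMod m)).1 = 1
      rw [Prod.fst_natCast]
      exact (ZMod.natCast_eq_one_iff_odd).2 hm
    · show ((m : ZMod 2 × ZMod m)).2 = 0
      rw [Prod.snd_natCast]
      exact ZMod.natCast_self m
  let S' : ZMod 2 → Set (ZMod m) := fun i => {x | e.symm (i, x) ∈ S}
  have hS' : ∀ i x, x ∈ S' i ↔ e.symm (i, x) ∈ S := fun i x => Iff.rfl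
  have hadj : ∀ x y, Γ.Adj x y ↔ Adj S' (e x) (e y) := by
    intro x y
    rw [hΓ]
    unfold Adj
    rw [hS']
    have h1 : ((e x).1 + (e y).1, (e y).2 - (e x).2) = e (y - x) := by
      rw [map_sub]
      refine Prod.ext ?_ rfl
      show (e x).1 + (e y).1 = (e y).1 - (e x).1
      rw [z2_sub, add_comm]
    rw [h1, RingEquiv.symm_apply_apply]
  -- transport of TF-morphisms
  have htf : ∀ α β : Equiv.Perm (ZMod (2 * m)), IsTF Γ α β →
      TF S' (e.toEquiv.permCongr α) (e.toEquiv.permCongr β) := by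
    intro α β h w v
    obtain ⟨x, rfl⟩ := e.surjective w
    obtain ⟨y, rfl⟩ := e.surjective v
    have h1 : ∀ (γ : Equiv.Perm (ZMod (2 * m))) (x : ZMod (2 * m)),
        e.toEquiv.permCongr γ (e x) = e (γ x) := by
      intro γ x
      show e (γ (e.symm (e x))) = e (γ x)
      rw [RingEquiv.symm_apply_apply]
    rw [h1, h1, ← hadj, ← hadj]
    exact h x y
  have htf' : ∀ α β : Equiv.Perm (ZMod 2 × ZMod m), TF S' α β →
      IsTF Γ (e.toEquiv.symm.permCongr α) (e.toEquiv.symm.permCongr β) := by
    intro α β h x y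
    have h1 : ∀ (γ : Equiv.Perm (ZMod 2 × ZMod m)) (x : ZMod (2 * m)),
        e (e.toEquiv.symm.permCongr γ x) = γ (e x) := by
      intro γ x
      show e (e.symm (γ (e x))) = γ (e x)
      rw [RingEquiv.apply_symm_apply]
    rw [hadj, hadj, h1, h1]
    exact h _ _
  have hctx : Ctx S' := by
    refine ⟨?_, ?_, ?_, ?_⟩
    · intro i x hx
      rw [hS'] at hx ⊢
      have h1 : (i, -x) = -(i, x) := by
        refine Prod.ext ?_ rfl
        show i = -i
        have := z2_add_self i
        linear_combination this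
      rw [h1, map_neg]
      exact hS _ hx
    · rw [Nat.card_eq_fintype_card, ZMod.card]
      exact hm
    · by_contra hcon
      push Not at hcon
      have h1 : ∀ i j x, x ∈ S' i ↔ x ∈ S' j := by
        intro i j x
        have := hcon x
        rcases z2_cases i with rfl | rfl <;> rcases z2_cases j with rfl | rfl <;> tauto
      have h2 : e.symm (0, 0) = e.symm (1, 0) := by
        apply htw
        ext y
        rw [SimpleGraph.mem_neighborSet, SimpleGraph.mem_neighborSet, hadj, hadj]
        unfold Adj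
        rw [RingEquiv.apply_symm_apply, RingEquiv.apply_symm_apply]
        exact h1 _ _ _
      have h3 := e.symm.injective h2
      have h4 : (0 : ZMod 2) = 1 := congrArg Prod.fst h3
      exact absurd h4 (by decide)
    · intro α β h hα hβ
      have h1 := htf' α β h
      have h2 : ∀ γ : Equiv.Perm (ZMod 2 × ZMod m), (∀ w, (γ w).1 = w.1) →
          ∀ u, par m (e.toEquiv.symm.permCongr γ u) = par m u := by
        intro γ hγ u
        rw [← he1, ← he1]
        show (e (e.symm (γ (e u)))).1 = (e u).1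
        rw [RingEquiv.apply_symm_apply, hγ]
      have h3 : e.toEquiv.symm.permCongr α = e.toEquiv.symm.permCongr β := by
        by_contra hne
        rcases hII _ _ h1 hne with h4 | h4
        · exact h4 (image_evens (h2 α hα))
        · exact h4 (image_evens (h2 β hβ))
      exact e.toEquiv.symm.permCongr.injective h3
  have hex : ∃ α β, TF S' α β ∧ α ≠ β := by
    have h1 : ∃ α β : Equiv.Perm (ZMod (2 * m)), IsTF Γ α β ∧ α ≠ β := by
      by_contra hne
      push Not at hne
      exact hst (stable_of_trivial hc hb hne)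
    obtain ⟨α, β, h, hne⟩ := h1
    exact ⟨_, _, htf α β h, fun h2 => hne (e.toEquiv.permCongr.injective h2)⟩
  obtain ⟨φ, hφ⟩ := hctx.final inferInstance hex
  let φ₁ : Equiv.Perm (ZMod 2 × ZMod m) := Equiv.prodCongr (Equiv.refl _) φ
  refine ⟨e.toEquiv.symm.permCongr φ₁, fun x y => ?_⟩
  rw [mem_shift, hadj]
  unfold Adj
  rw [hφ, hS']
  have h1 : ∀ x, e (e.toEquiv.symm.permCongr φ₁ x) = ((e x).1, φ (e x).2) := by
    intro x
    show e (e.symm (φ₁ (e x))) = _
    rw [RingEquiv.apply_symm_apply]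
    rfl
  have h2 : e.symm ((e x).1 + (e y).1 + 1, φ (e y).2 - φ (e x).2) =
      e.toEquiv.symm.permCongr φ₁ y - e.toEquiv.symm.permCongr φ₁ x + (m : ZMod (2 * m)) := by
    apply e.injective
    rw [RingEquiv.apply_symm_apply, map_add, map_sub, h1, h1, hem]
    refine Prod.ext ?_ ?_
    · show (e x).1 + (e y).1 + 1 = (e y).1 - (e x).1 + 1
      rw [z2_sub]; ring
    · show φ (e y).2 - φ (e x).2 = φ (e y).2 - φ (e x).2 + 0
      rw [add_zero]
  rw [h2]

end Pool.Agent.Helper40.TF
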